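import Pool.Agent.W189.FC.Data

/-! The transform near `0`. -/

set_option autoImplicit false

namespace Pool.Agent.W189.FC

open MeasureTheory Filter Topology Set

variable {ι : Type} {lam c : ι → ℝ}

/-- the transform is holomorphic as far as `H` is -/
theorem CData.mel_diff_half [Countable ι] {H : ℂ → ℂ} (D : CData lam c H) {v : ℝ → ℂ} {B a : ℝ}
    (V : Vw v B a) {s : ℝ} (hs : 0 ≤ s) (hH : ∀ w : ℂ, s * a < w.re → DifferentiableAt ℂ H w)
    {z : ℂ} (hz : s < z.re) : DifferentiableAt ℂ (mel H v) z := by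
  have ha := V.a_pos
  set δ : ℝ := (s + z.re) / 2 with hδ
  have hδ0 : 0 < δ := by rw [hδ]; linarith
  have hδs : s < δ := by rw [hδ]; linarith
  have hδz : δ < z.re := by rw [hδ]; linarith
  set t₁ : ℝ := max a (4 / δ) with ht1d
  have hat : a ≤ t₁ := le_max_left _ _
  have ht1 : 0 < t₁ := ha.trans_le hat
  have h4 : 4 / δ ≤ t₁ := le_max_right _ _
  set O : Set ℂ := {w | s * a < w.re} with hO
  have hOo : IsOpen O := isOpen_lt continuous_const Complex.continuous_re
  have hHO : DifferentiableOn ℂ H O := fun w hw => (hH w hw).differentiableWithinAt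
  have hin : ∀ w : ℂ, δ < w.re → ∀ t : ℝ, a ≤ t → w * t ∈ O := by
    intro w hw t ht
    show s * a < (w * t).re
    rw [Complex.re_mul_ofReal]
    have h1 : s < w.re := hδs.trans hw
    calc s * a ≤ s * t := mul_le_mul_of_nonneg_left ht hs
      _ < w.re * t := mul_lt_mul_of_pos_right h1 (ha.trans_le ht)
  have h3 : ∀ w : ℂ, δ < w.re → 3 < w.re * t₁ := by
    intro w hw
    rw [div_le_iff₀ hδ0] at h4
    have h5 : δ * t₁ < w.re * t₁ := mul_lt_mul_of_pos_right hw ht1
    linarith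
  have h5 : DifferentiableAt ℂ (fun z : ℂ => (∫ t in Icc a t₁, v t * H (z * t)) +
      mel H ((Ioi t₁).indicator v) z) z :=
    (fin_diff V.meas V.bdd hOo hHO ha.le fun t ht => hin z hδz t ht.1).add
      (D.mel_diff (V.tail ht1) (h3 z hδz))
  refine h5.congr_of_eventuallyEq ?_
  have ho : IsOpen {w : ℂ | δ < w.re} := isOpen_lt continuous_const Complex.continuous_re
  filter_upwards [ho.mem_nhds hδz] with w hw
  exact D.mel_split V hHO.continuousOn hat (hin w hw) (h3 w hw).le

/-- continuation of the identity -/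
theorem CData.eq_mel [Countable ι] {H : ℂ → ℂ} (D : CData lam c H) {v : ℝ → ℂ} {B a : ℝ}
    (V : Vw v B a) {s : ℝ} (hs : 0 ≤ s) (hH : ∀ w : ℂ, s * a < w.re → DifferentiableAt ℂ H w)
    {L : ℂ → ℂ} (hL : ∀ z : ℂ, s < z.re → DifferentiableAt ℂ L z) {X : ℝ}
    (hLX : ∀ z : ℂ, X ≤ z.re → L z = mel H v z) {z : ℂ} (hz : s < z.re) : L z = mel H v z := by
  have ho : IsOpen {z : ℂ | s < z.re} := isOpen_lt continuous_const Complex.continuous_re
  have h1 : AnalyticOnNhd ℂ L {z : ℂ | s < z.re} :=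
    DifferentiableOn.analyticOnNhd (fun w hw => (hL w hw).differentiableWithinAt) ho
  have h2 : AnalyticOnNhd ℂ (mel H v) {z : ℂ | s < z.re} :=
    DifferentiableOn.analyticOnNhd
      (fun w hw => (D.mel_diff_half V hs hH hw).differentiableWithinAt) ho
  have hz0 : s < (((max s X + 1 : ℝ) : ℂ)).re := by
    rw [Complex.ofReal_re]
    have := le_max_left s X
    linarith
  have hz1 : X < (((max s X + 1 : ℝ) : ℂ)).re := by
    rw [Complex.ofReal_re]
    have := le_max_right s X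
    linarith
  refine h1.eqOn_of_preconnected_of_eventuallyEq h2 (convex_halfSpace_re_gt s).isPreconnected
    hz0 ?_ hz
  have ho2 : IsOpen {w : ℂ | X < w.re} := isOpen_lt continuous_const Complex.continuous_re
  filter_upwards [ho2.mem_nhds hz1] with w hw
  exact hLX w (le_of_lt hw)

/-- the transform near `0` -/
theorem mel_near {H H₂ G : ℂ → ℂ} {v : ℝ → ℂ} {B a : ℝ} (V : Vw v B a)
    (hv : IntegrableOn (fun t : ℝ => (v t - 1) / t) (Ici a)) {r CG M : ℝ}
    (hG : ∀ w : ℂ, 0 < w.re → DifferentiableAt ℂ G w)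
    (hGb : ∀ u : ℝ, 0 < u → u ≤ 1 → ‖G u‖ ≤ CG ∧ ‖deriv G u‖ ≤ CG / u)
    (hH2 : ∀ u : ℝ, 0 < u → u ≤ 1 → ‖H₂ u‖ ≤ M)
    (hHc : ∀ w : ℂ, 0 < w.re → DifferentiableAt ℂ H w)
    (hHi : IntegrableOn (fun u : ℝ => H u) (Ioi 1))
    (hH : ∀ u : ℝ, 0 < u → u ≤ 1 → H u = r / u + H₂ u - deriv G u) :
    ∃ K : ℝ, ∀ x : ℝ, 0 < x → x * a < 1 →
      ‖(x : ℂ) * mel H v x - ((r * -Real.log x : ℝ) : ℂ)‖ ≤ K := by
  have ha := V.a_pos
  have hB : 0 ≤ B := (norm_nonneg _).trans (V.bdd 0)
  have hCG : 0 ≤ CG := (norm_nonneg _).trans (hGb 1 one_pos le_rfl).1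
  have hM : 0 ≤ M := (norm_nonneg _).trans (hH2 1 one_pos le_rfl)
  set CH : ℝ := |r| + M + CG with hCH
  have hCH0 : 0 ≤ CH := by positivity
  refine ⟨B * (∫ u in Ioi (1 : ℝ), ‖H u‖) + CH * (∫ t in Ici a, ‖(v t - 1) / t‖) +
    |r * Real.log a| + 2 * CG + M, fun x hx hxa => ?_⟩
  set b : ℝ := x⁻¹ with hb
  have hb0 : 0 < b := inv_pos.2 hx
  have hab : a < b := by
    rw [hb, lt_inv_comm₀ ha hx, inv_eq_one_div, lt_div_iff₀ ha]
    exact hxa
  have hxb : x * b = 1 := mul_inv_cancel₀ hx.ne'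
  set O : Set ℂ := {w : ℂ | 0 < w.re} with hO
  have hOo : IsOpen O := isOpen_lt continuous_const Complex.continuous_re
  have hHO : DifferentiableOn ℂ H O := fun w hw => (hHc w hw).differentiableWithinAt
  have hin : ∀ t : ℝ, 0 < t → (x : ℂ) * t ∈ O := by
    intro t ht
    show 0 < ((x : ℂ) * t).re
    rw [Complex.re_mul_ofReal, Complex.ofReal_re]
    positivity
  have hcast : ∀ t : ℝ, (x : ℂ) * t = ((x * t : ℝ) : ℂ) := fun t => by push_cast; rfl
  -- the tail
  have hHi2 : IntegrableOn (fun t : ℝ => H (x * t)) (Ioi b) := by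
    have h1 : IntegrableOn (fun t : ℝ => (fun u : ℝ => H u) (x * t)) (Ioi b) := by
      rw [integrableOn_Ioi_comp_mul_left_iff (fun u : ℝ => H u) b hx, hxb]
      exact hHi
    refine h1.congr_fun (fun t _ => ?_) measurableSet_Ioi
    simp only
    rw [hcast]
  have hi2 : IntegrableOn (fun t : ℝ => v t * H (x * t)) (Ioi b) := by
    refine Integrable.bdd_mul hHi2 V.meas.aestronglyMeasurable (c := B)
      (Eventually.of_forall V.bdd)
  have hi1 : IntegrableOn (fun t : ℝ => v t * H (x * t)) (Icc a b) :=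
    fin_integrable V.meas V.bdd hHO.continuousOn fun t ht => hin t (ha.trans_le ht.1)
  have hi3 : IntegrableOn (fun t : ℝ => (1 : ℂ) * H (x * t)) (Icc a b) :=
    fin_integrable (v := fun _ => (1 : ℂ)) measurable_const (B := 1) (fun _ => by simp)
      hHO.continuousOn fun t ht => hin t (ha.trans_le ht.1)
  have e1 : mel H v x = ∫ t in Ici a, v t * H (x * t) := by
    unfold mel
    refine setIntegral_eq_of_subset_of_forall_sdiff_eq_zero measurableSet_Ioi
      (fun x (hx : a ≤ x) => ha.trans_le hx) fun t ht => ?_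
    rw [V.zero t ht.1 (by simpa using ht.2), zero_mul]
  have e2 : Ici a = Icc a b ∪ Ioi b := (Icc_union_Ioi_eq_Ici hab.le).symm
  have e3 : mel H v x = (∫ t in Icc a b, v t * H (x * t)) + ∫ t in Ioi b, v t * H (x * t) := by
    rw [e1, e2, setIntegral_union _ measurableSet_Ioi hi1 hi2]
    rw [Set.disjoint_left]
    intro x hx hx2
    exact absurd hx.2 (not_le.2 hx2)
  -- first estimate
  have f1 : ‖(x : ℂ) * ∫ t in Ioi b, v t * H (x * t)‖ ≤ B * ∫ u in Ioi (1 : ℝ), ‖H u‖ := by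
    have g1 : ‖∫ t in Ioi b, v t * H (x * t)‖ ≤ ∫ t in Ioi b, B * ‖H (x * t)‖ := by
      refine norm_integral_le_of_norm_le (hHi2.norm.const_mul B) (Eventually.of_forall fun t => ?_)
      rw [norm_mul]
      exact mul_le_mul_of_nonneg_right (V.bdd t) (norm_nonneg _)
    have g2 : ∫ t in Ioi b, ‖H (x * t)‖ = x⁻¹ * ∫ u in Ioi (1 : ℝ), ‖H u‖ := by
      have g3 := integral_comp_mul_left_Ioi (fun u : ℝ => ‖H u‖) b hx
      rw [hxb, smul_eq_mul] at g3
      rw [← g3]
      congr 1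
      funext t
      rw [hcast]
    rw [integral_const_mul, g2] at g1
    rw [norm_mul, Complex.norm_real, Real.norm_eq_abs, abs_of_pos hx]
    calc x * ‖∫ t in Ioi b, v t * H (x * t)‖ ≤ x * (B * (x⁻¹ * ∫ u in Ioi (1 : ℝ), ‖H u‖)) :=
          mul_le_mul_of_nonneg_left g1 hx.le
      _ = _ := by field_simp
  -- bound of `H`
  have hHb : ∀ t : ℝ, 0 < t → t ≤ b → ‖(x : ℂ) * H (x * t)‖ ≤ CH / t := by
    intro t ht htb
    have hu0 : 0 < x * t := by positivity
    have hu1 : x * t ≤ 1 := by rw [← hxb]; exact mul_le_mul_of_nonneg_left htb hx.le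
    rw [hcast, hH _ hu0 hu1, norm_mul, Complex.norm_real, Real.norm_eq_abs, abs_of_pos hx]
    have g1 : ‖(r : ℂ) / ((x * t : ℝ) : ℂ) + H₂ ((x * t : ℝ) : ℂ) - deriv G ((x * t : ℝ) : ℂ)‖ ≤
        |r| / (x * t) + M + CG / (x * t) := by
      refine (norm_sub_le _ _).trans (add_le_add ((norm_add_le _ _).trans (add_le_add ?_
        (hH2 _ hu0 hu1))) (hGb _ hu0 hu1).2)
      rw [norm_div, Complex.norm_real, Complex.norm_real, Real.norm_eq_abs, Real.norm_eq_abs,
        abs_of_pos hu0]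
    have g2 : M ≤ M / (x * t) := by
      rw [le_div_iff₀ hu0]
      nlinarith
    have g3 : |r| / (x * t) + M + CG / (x * t) ≤ CH / (x * t) := by
      rw [hCH, add_div, add_div]
      linarith
    calc x * ‖(r : ℂ) / ((x * t : ℝ) : ℂ) + H₂ ((x * t : ℝ) : ℂ) - deriv G ((x * t : ℝ) : ℂ)‖
        ≤ x * (CH / (x * t)) := mul_le_mul_of_nonneg_left (g1.trans g3) hx.le
      _ = CH / t := by field_simp
  -- second estimate
  have f2 : ‖(x : ℂ) * (∫ t in Icc a b, v t * H (x * t)) - x * ∫ t in Icc a b, 1 * H (x * t)‖ ≤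
      CH * ∫ t in Ici a, ‖(v t - 1) / t‖ := by
    rw [← mul_sub, ← integral_sub hi1 hi3, ← integral_const_mul, ← integral_const_mul]
    have g1 : ∫ t in Icc a b, CH * ‖(v t - 1) / t‖ ≤ ∫ t in Ici a, CH * ‖(v t - 1) / t‖ := by
      refine setIntegral_mono_set (hv.norm.const_mul CH) (Eventually.of_forall fun t => ?_)
        (LE.le.eventuallyLE Icc_subset_Ici_self)
      positivity
    refine le_trans ?_ g1
    refine norm_integral_le_of_norm_le ((hv.mono_set Icc_subset_Ici_self).norm.const_mul CH) ?_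
    filter_upwards [ae_restrict_mem measurableSet_Icc] with t ht
    have ht0 : 0 < t := ha.trans_le ht.1
    have g2 : (x : ℂ) * (v t * H (x * t) - 1 * H (x * t)) = (x * H (x * t)) * (v t - 1) := by ring
    rw [g2, norm_mul, norm_div, Complex.norm_real, Real.norm_eq_abs, abs_of_pos ht0]
    calc ‖(x : ℂ) * H (x * t)‖ * ‖v t - 1‖ ≤ (CH / t) * ‖v t - 1‖ :=
          mul_le_mul_of_nonneg_right (hHb t ht0 ht.2) (norm_nonneg _)
      _ = CH * (‖v t - 1‖ / t) := by ring
  -- third estimate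
  set P : ℝ → ℂ := fun t => ((r * Real.log t : ℝ) : ℂ) - G (x * t) with hP
  set P' : ℝ → ℂ := fun t => ((r * t⁻¹ : ℝ) : ℂ) - x * deriv G (x * t) with hP'
  have hPd : ∀ t ∈ uIcc a b, HasDerivAt P (P' t) t := by
    intro t ht
    rw [uIcc_of_le hab.le] at ht
    have ht0 : 0 < t := ha.trans_le ht.1
    have g1 : HasDerivAt (fun t : ℝ => ((r * Real.log t : ℝ) : ℂ)) ((r * t⁻¹ : ℝ) : ℂ) t :=
      ((Real.hasDerivAt_log ht0.ne').const_mul r).ofReal_comp
    have g2 : HasDerivAt G (deriv G (x * t)) (x * t) := (hG _ (hin t ht0)).hasDerivAt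
    have g3 : HasDerivAt (fun t : ℝ => (x : ℂ) * t) (x : ℂ) t := by
      have := (Complex.ofRealCLM.hasDerivAt (x := t)).const_mul (x : ℂ)
      simpa using this
    have g4 : HasDerivAt (fun t : ℝ => G (x * t)) (x * deriv G (x * t)) t := by
      have := HasDerivAt.scomp (g₁ := G) (h := fun t : ℝ => (x : ℂ) * t) t g2 g3
      rw [smul_eq_mul] at this
      exact this
    exact g1.sub g4
  have hdG : DifferentiableOn ℂ (deriv G) O :=
    DifferentiableOn.deriv (fun w hw => (hG w hw).differentiableWithinAt) hOo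
  have hP'c : ContinuousOn P' (Icc a b) := by
    refine ContinuousOn.sub ?_ (ContinuousOn.mul continuousOn_const
      (hdG.continuousOn.comp (by fun_prop) fun t ht => hin t (ha.trans_le ht.1)))
    refine Complex.continuous_ofReal.comp_continuousOn ?_
    refine continuousOn_const.mul (continuousOn_id.inv₀ fun t ht => ?_)
    exact (ha.trans_le ht.1).ne'
  have hP'i : IntegrableOn P' (Icc a b) := hP'c.integrableOn_Icc
  have f3 : ∫ t in Icc a b, P' t = P b - P a := by
    rw [integral_Icc_eq_integral_Ioc, ← intervalIntegral.integral_of_le hab.le]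
    refine intervalIntegral.integral_eq_sub_of_hasDerivAt hPd ?_
    refine ContinuousOn.intervalIntegrable ?_
    rwa [uIcc_of_le hab.le]
  have f4 : ‖(x : ℂ) * (∫ t in Icc a b, 1 * H (x * t)) - (P b - P a)‖ ≤ M := by
    rw [← f3, ← integral_const_mul, ← integral_sub (hi3.const_mul _) hP'i]
    have g1 : ∫ t in Icc a b, x * M ≤ M := by
      rw [setIntegral_const, smul_eq_mul, Real.volume_real_Icc_of_le hab.le]
      calc (b - a) * (x * M) ≤ b * (x * M) :=
            mul_le_mul_of_nonneg_right (by linarith) (by positivity)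
        _ = (x * b) * M := by ring
        _ = M := by rw [hxb, one_mul]
    refine le_trans ?_ g1
    refine norm_integral_le_of_norm_le (integrable_const _) ?_
    filter_upwards [ae_restrict_mem measurableSet_Icc] with t ht
    have ht0 : 0 < t := ha.trans_le ht.1
    have hu0 : 0 < x * t := by positivity
    have hu1 : x * t ≤ 1 := by rw [← hxb]; exact mul_le_mul_of_nonneg_left ht.2 hx.le
    have g2 : (x : ℂ) * (1 * H (x * t)) - P' t = x * H₂ ((x * t : ℝ) : ℂ) := by
      rw [hP']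
      simp only
      rw [hcast, hH _ hu0 hu1]
      have hx' : (x : ℂ) ≠ 0 := by exact_mod_cast hx.ne'
      have ht' : (t : ℂ) ≠ 0 := by exact_mod_cast ht0.ne'
      push_cast
      field_simp
      ring
    rw [g2, norm_mul, Complex.norm_real, Real.norm_eq_abs, abs_of_pos hx]
    exact mul_le_mul_of_nonneg_left (hH2 _ hu0 hu1) hx.le
  -- collect
  have f5 : P b - P a - ((r * -Real.log x : ℝ) : ℂ) =
      -((r * Real.log a : ℝ) : ℂ) - G ((1 : ℝ) : ℂ) + G ((x * a : ℝ) : ℂ) := by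
    rw [hP]
    simp only
    rw [hcast, hcast, hxb, hb, Real.log_inv]
    push_cast
    ring
  have f6 : ‖P b - P a - ((r * -Real.log x : ℝ) : ℂ)‖ ≤ |r * Real.log a| + 2 * CG := by
    rw [f5]
    refine (norm_add_le _ _).trans ?_
    have g1 := norm_sub_le (-((r * Real.log a : ℝ) : ℂ)) (G ((1 : ℝ) : ℂ))
    rw [norm_neg, Complex.norm_real, Real.norm_eq_abs] at g1
    have g2 := (hGb 1 one_pos le_rfl).1
    have g3 := (hGb (x * a) (by positivity) hxa.le).1
    linarith
  have f7 : (x : ℂ) * mel H v x - ((r * -Real.log x : ℝ) : ℂ) =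
      (x : ℂ) * (∫ t in Ioi b, v t * H (x * t)) +
      ((x : ℂ) * (∫ t in Icc a b, v t * H (x * t)) - x * ∫ t in Icc a b, 1 * H (x * t)) +
      ((x : ℂ) * (∫ t in Icc a b, 1 * H (x * t)) - (P b - P a)) +
      (P b - P a - ((r * -Real.log x : ℝ) : ℂ)) := by
    rw [e3]
    ring
  rw [f7]
  refine (norm_add_le _ _).trans ?_
  refine (add_le_add ((norm_add_le _ _).trans (add_le_add (norm_add_le _ _) le_rfl)) le_rfl).trans ?_
  linarith

end Pool.Agent.W189.FC
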