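import Mathlib

/-! Finite multiplicative transforms of holomorphic functions; the geometry of the zeros. -/

set_option autoImplicit false

namespace Pool.Agent.W189.FC

open MeasureTheory Filter Topology Set

theorem fin_diff {v : ℝ → ℂ} (hv : Measurable v) {B : ℝ} (hb : ∀ t, ‖v t‖ ≤ B) {O : Set ℂ}
    (hO : IsOpen O) {h : ℂ → ℂ} (hh : DifferentiableOn ℂ h O) {a b : ℝ} (ha : 0 ≤ a) {z : ℂ}
    (hz : ∀ t ∈ Icc a b, z * t ∈ O) :
    DifferentiableAt ℂ (fun z : ℂ => ∫ t in Icc a b, v t * h (z * t)) z := by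
  have hB : 0 ≤ B := (norm_nonneg _).trans (hb 0)
  -- a neighbourhood
  have hn : IsOpen {q : ℂ × ℝ | q.1 * q.2 ∈ O} :=
    hO.preimage (f := fun q : ℂ × ℝ => q.1 * (q.2 : ℂ)) (by fun_prop)
  have hsub : ({z} : Set ℂ) ×ˢ (Icc a b) ⊆ {q : ℂ × ℝ | q.1 * q.2 ∈ O} := by
    rintro ⟨x, t⟩ ⟨hx, ht⟩
    rw [mem_singleton_iff] at hx
    simp only at hx ht
    rw [hx]
    exact hz t ht
  obtain ⟨U, W, hU, hW, hzU, hIW, hUW⟩ :=
    generalized_tube_lemma (isCompact_singleton (x := z)) (isCompact_Icc (a := a) (b := b)) hn hsub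
  obtain ⟨δ, hδ, hδU⟩ := Metric.isOpen_iff.1 hU z (hzU (mem_singleton z))
  set K : Set ℂ := (fun q : ℂ × ℝ => q.1 * (q.2 : ℂ)) ''
    (Metric.closedBall z (δ / 2) ×ˢ Icc a b) with hK
  have hKc : IsCompact K := by
    refine ((isCompact_closedBall z (δ / 2)).prod isCompact_Icc).image (by fun_prop)
  have hKO : K ⊆ O := by
    rintro _ ⟨⟨x, t⟩, ⟨hx, ht⟩, rfl⟩
    refine hUW (show ((x, t) : ℂ × ℝ) ∈ U ×ˢ W from ⟨hδU ?_, hIW ht⟩)
    exact Metric.closedBall_subset_ball (by linarith) hx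
  have hd : DifferentiableOn ℂ (deriv h) O := hh.deriv hO
  obtain ⟨M, hM⟩ := hKc.exists_bound_of_continuousOn (hd.continuousOn.mono hKO)
  have hmeas : ∀ x ∈ Metric.ball z (δ / 2), AEStronglyMeasurable (fun t : ℝ => v t * h (x * t))
      (volume.restrict (Icc a b)) := by
    intro x hx
    refine hv.aestronglyMeasurable.mul ?_
    refine ContinuousOn.aestronglyMeasurable ?_ measurableSet_Icc
    refine hh.continuousOn.comp (by fun_prop) fun t ht => ?_
    exact hKO ⟨(x, t), ⟨Metric.ball_subset_closedBall hx, ht⟩, rfl⟩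
  have key := hasDerivAt_integral_of_dominated_loc_of_deriv_le (μ := volume.restrict (Icc a b))
    (F := fun (x : ℂ) (t : ℝ) => v t * h (x * t))
    (F' := fun (x : ℂ) (t : ℝ) => v t * (deriv h (x * t) * t))
    (x₀ := z) (s := Metric.ball z (δ / 2))
    (bound := fun _ => B * (|M| * |b|)) (Metric.ball_mem_nhds z (by linarith)) ?_ ?_ ?_ ?_ ?_ ?_
  · exact key.2.differentiableAt
  · filter_upwards [Metric.ball_mem_nhds z (show 0 < δ / 2 by linarith)] with x hx
    exact hmeas x hx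
  · obtain ⟨M2, hM2⟩ := hKc.exists_bound_of_continuousOn (hh.continuousOn.mono hKO)
    refine Integrable.mono' (g := fun _ => B * |M2|) (integrable_const _) (hmeas z
      (Metric.mem_ball_self (by linarith))) ?_
    filter_upwards [ae_restrict_mem measurableSet_Icc] with t ht
    rw [norm_mul]
    refine mul_le_mul (hb t) ?_ (norm_nonneg _) hB
    refine (hM2 _ ⟨(z, t), ⟨Metric.mem_closedBall_self (by linarith), ht⟩, rfl⟩).trans
      (le_abs_self _)
  · refine hv.aestronglyMeasurable.mul ?_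
    refine ContinuousOn.aestronglyMeasurable ?_ measurableSet_Icc
    refine ContinuousOn.mul (hd.continuousOn.comp (by fun_prop) fun t ht => ?_) (by fun_prop)
    exact hKO ⟨(z, t), ⟨Metric.mem_closedBall_self (by linarith), ht⟩, rfl⟩
  · filter_upwards [ae_restrict_mem measurableSet_Icc] with t ht x hx
    rw [norm_mul, norm_mul, Complex.norm_real, Real.norm_eq_abs]
    refine mul_le_mul (hb t) ?_ (by positivity) hB
    refine mul_le_mul ?_ ?_ (abs_nonneg _) (abs_nonneg _)
    · refine (hM _ ⟨(x, t), ⟨Metric.ball_subset_closedBall hx, ht⟩, rfl⟩).trans (le_abs_self _)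
    · rw [abs_of_nonneg (ha.trans ht.1), abs_of_nonneg (ha.trans (ht.1.trans ht.2))]
      exact ht.2
  · exact integrable_const _
  · filter_upwards [ae_restrict_mem measurableSet_Icc] with t ht x hx
    refine HasDerivAt.const_mul _ ?_
    have h1 : x * t ∈ O := hKO ⟨(x, t), ⟨Metric.ball_subset_closedBall hx, ht⟩, rfl⟩
    have h2 : HasDerivAt h (deriv h (x * t)) (x * t) :=
      (hh.differentiableAt (hO.mem_nhds h1)).hasDerivAt
    have h3 : HasDerivAt (fun x : ℂ => x * (t : ℂ)) (t : ℂ) x := by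
      have := (hasDerivAt_id' x).mul_const (t : ℂ)
      rwa [one_mul] at this
    exact h2.comp x h3

theorem fin_integrable {v : ℝ → ℂ} (hv : Measurable v) {B : ℝ} (hb : ∀ t, ‖v t‖ ≤ B) {O : Set ℂ}
    {h : ℂ → ℂ} (hh : ContinuousOn h O) {a b : ℝ} {z : ℂ}
    (hz : ∀ t ∈ Icc a b, z * t ∈ O) :
    IntegrableOn (fun t : ℝ => v t * h (z * t)) (Icc a b) := by
  have hB : 0 ≤ B := (norm_nonneg _).trans (hb 0)
  have hc : ContinuousOn (fun t : ℝ => h (z * t)) (Icc a b) := hh.comp (by fun_prop) hz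
  obtain ⟨M, hM⟩ := isCompact_Icc.exists_bound_of_continuousOn hc
  refine Integrable.mono' (g := fun _ => B * |M|) (integrable_const _)
    (hv.aestronglyMeasurable.mul (hc.aestronglyMeasurable measurableSet_Icc)) ?_
  filter_upwards [ae_restrict_mem measurableSet_Icc] with t ht
  rw [norm_mul]
  exact mul_le_mul (hb t) ((hM t ht).trans (le_abs_self _)) (norm_nonneg _) hB

/-- the zeros near the ray through the outermost zero `ρ` of the ray -/
theorem zero_geometry {Φ : ℂ → ℂ} (hΦ : Differentiable ℂ Φ) (h1 : ∀ w : ℂ, 1 < w.re → Φ w ≠ 0)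
    {ρ : ℂ} (hρ : 0 < ρ.re) (hout : ∀ x : ℝ, 1 < x → Φ (x * ρ) ≠ 0)
    {q : ℝ} (hq0 : 0 ≤ q) (hq : q < ρ.re) :
    ∃ s η : ℝ, 0 < s ∧ s < 1 ∧ 0 < η ∧ ∀ ζ : ℂ, s < ζ.re → |ζ.im| < η * ζ.re →
      q < (ζ * ρ).re ∧ (ζ ≠ 1 → Φ (ζ * ρ) ≠ 0) := by
  have hρ0 : ρ ≠ 0 := by
    intro h; rw [h] at hρ; simp at hρ
  have han : AnalyticOnNhd ℂ Φ univ := hΦ.differentiableOn.analyticOnNhd isOpen_univ
  -- isolated zero
  have hiso : ∀ᶠ z in 𝓝[≠] ρ, Φ z ≠ 0 := by
    rcases (han ρ (mem_univ _)).eventually_eq_zero_or_eventually_ne_zero with h | h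
    · exfalso
      have h2 := han.eqOn_zero_of_preconnected_of_eventuallyEq_zero isPreconnected_univ
        (mem_univ ρ) h
      exact h1 2 (by norm_num) (h2 (mem_univ _))
    · exact h
  set U : Set ℂ := {ζ | Φ (ζ * ρ) ≠ 0 ∨ ζ = 1} with hU
  have hU1 : U ∈ 𝓝 (1 : ℂ) := by
    have ht : Tendsto (fun ζ : ℂ => ζ * ρ) (𝓝[≠] 1) (𝓝[≠] ρ) := by
      rw [tendsto_nhdsWithin_iff]
      constructor
      · have : Continuous fun ζ : ℂ => ζ * ρ := by fun_prop
        have := this.tendsto 1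
        rw [one_mul] at this
        exact this.mono_left nhdsWithin_le_nhds
      · filter_upwards [self_mem_nhdsWithin] with ζ hζ h
        have : ζ * ρ = 1 * ρ := by rw [one_mul]; exact h
        exact hζ (mul_right_cancel₀ hρ0 this)
    have h2 := ht.eventually hiso
    rw [eventually_nhdsWithin_iff] at h2
    filter_upwards [h2] with ζ hζ
    by_cases h : ζ = 1
    · exact Or.inr h
    · exact Or.inl (hζ h)
  obtain ⟨δ₁, hδ₁, hball⟩ := Metric.mem_nhds_iff.1 hU1
  set M : ℝ := 4 / ρ.re + 2 with hM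
  have hM0 : 2 < M := by rw [hM]; have : 0 < 4 / ρ.re := by positivity
                         linarith
  set s : ℝ := max (1 - δ₁ / 2) (max (1 / 2) ((1 + q / ρ.re) / 2)) with hs
  have hq1 : q / ρ.re < 1 := by rw [div_lt_one hρ]; exact hq
  have hs1 : s < 1 := by
    rw [hs]
    refine max_lt (by linarith) (max_lt (by norm_num) (by linarith))
  have hs0 : 0 < s := lt_of_lt_of_le (by norm_num : (0 : ℝ) < 1 / 2)
    ((le_max_left _ _).trans (le_max_right _ _))
  have hsq : q < s * ρ.re := by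
    have h3 : (1 + q / ρ.re) / 2 ≤ s := (le_max_right _ _).trans (le_max_right _ _)
    have h4 : (1 + q / ρ.re) / 2 * ρ.re ≤ s * ρ.re := mul_le_mul_of_nonneg_right h3 hρ.le
    have h5 : (1 + q / ρ.re) / 2 * ρ.re = (ρ.re + q) / 2 := by field_simp
    linarith
  have hKU : ∀ x ∈ Icc s M, ((x : ℝ) : ℂ) ∈ interior U := by
    intro x hx
    rw [mem_interior_iff_mem_nhds]
    by_cases hx1 : x = 1
    · rw [hx1]; exact hU1
    · have hne : Φ (x * ρ) ≠ 0 := by
        rcases lt_or_gt_of_ne hx1 with h | h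
        · have h6 : ((x : ℝ) : ℂ) ∈ Metric.ball (1 : ℂ) δ₁ := by
            rw [Metric.mem_ball, Complex.dist_eq]
            have : ((x : ℂ) - 1) = ((x - 1 : ℝ) : ℂ) := by push_cast; ring
            rw [this, Complex.norm_real, Real.norm_eq_abs, abs_of_neg (by linarith)]
            have := (le_max_left (1 - δ₁ / 2) (max (1 / 2) ((1 + q / ρ.re) / 2))).trans hx.1
            linarith
          rcases hball h6 with h7 | h7
          · exact h7
          · exact absurd (by exact_mod_cast h7) hx1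
        · exact hout x h
      have hc : Continuous fun ζ : ℂ => Φ (ζ * ρ) := hΦ.continuous.comp (by fun_prop)
      filter_upwards [hc.continuousAt.eventually_ne hne] with ζ hζ
      exact Or.inl hζ
  have hKc : IsCompact ((fun x : ℝ => (x : ℂ)) '' Icc s M) :=
    isCompact_Icc.image Complex.continuous_ofReal
  have hKsub : ((fun x : ℝ => (x : ℂ)) '' Icc s M) ⊆ interior U := by
    rintro _ ⟨x, hx, rfl⟩
    exact hKU x hx
  obtain ⟨δ, hδ, hth⟩ := hKc.exists_cthickening_subset_open isOpen_interior hKsub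
  set η : ℝ := min (δ / M) (min (ρ.re / (2 * (|ρ.im| + 1)))
    ((s * ρ.re - q) / (2 * s * (|ρ.im| + 1)))) with hη
  have him : 0 ≤ |ρ.im| := abs_nonneg _
  have hη0 : 0 < η := by
    rw [hη]
    refine lt_min (by positivity) (lt_min (by positivity) ?_)
    refine div_pos (by linarith) (by positivity)
  have hη1 : η ≤ δ / M := min_le_left _ _
  have hη2 : η * (|ρ.im| + 1) ≤ ρ.re / 2 := by
    have : η ≤ ρ.re / (2 * (|ρ.im| + 1)) := (min_le_right _ _).trans (min_le_left _ _)
    rw [le_div_iff₀ (by positivity)] at this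
    linarith
  have hη3 : s * (η * (|ρ.im| + 1)) ≤ (s * ρ.re - q) / 2 := by
    have : η ≤ (s * ρ.re - q) / (2 * s * (|ρ.im| + 1)) :=
      (min_le_right _ _).trans (min_le_right _ _)
    rw [le_div_iff₀ (by positivity)] at this
    linarith
  refine ⟨s, η, hs0, hs1, hη0, fun ζ hζ1 hζ2 => ?_⟩
  have hζ0 : 0 < ζ.re := hs0.trans hζ1
  have hre : (ζ * ρ).re = ζ.re * ρ.re - ζ.im * ρ.im := Complex.mul_re _ _
  have hlow : ζ.re * (ρ.re - η * (|ρ.im| + 1)) ≤ (ζ * ρ).re := by
    rw [hre]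
    have h8 : ζ.im * ρ.im ≤ |ζ.im| * |ρ.im| := by
      rw [← abs_mul]; exact le_abs_self _
    have h9 : |ζ.im| * |ρ.im| ≤ (η * ζ.re) * |ρ.im| :=
      mul_le_mul_of_nonneg_right hζ2.le him
    have h10 : 0 ≤ ζ.re * η := by positivity
    nlinarith
  constructor
  · have h11 : 0 < ρ.re - η * (|ρ.im| + 1) := by linarith
    have h12 : s * (ρ.re - η * (|ρ.im| + 1)) < ζ.re * (ρ.re - η * (|ρ.im| + 1)) :=
      mul_lt_mul_of_pos_right hζ1 h11
    have h13 : q < s * (ρ.re - η * (|ρ.im| + 1)) := by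
      have : s * (ρ.re - η * (|ρ.im| + 1)) = s * ρ.re - s * (η * (|ρ.im| + 1)) := by ring
      rw [this]
      linarith
    linarith
  · intro hne
    by_cases hle : ζ.re ≤ M
    · have h14 : ζ ∈ Metric.cthickening δ ((fun x : ℝ => (x : ℂ)) '' Icc s M) := by
        refine Metric.mem_cthickening_of_dist_le ζ (ζ.re : ℂ) δ _ ⟨ζ.re, ⟨hζ1.le, hle⟩, rfl⟩ ?_
        rw [Complex.dist_eq]
        have h15 : ζ - (ζ.re : ℂ) = (ζ.im : ℂ) * Complex.I := by
          apply Complex.ext <;> simp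
        rw [h15, norm_mul, Complex.norm_I, mul_one, Complex.norm_real, Real.norm_eq_abs]
        refine hζ2.le.trans ?_
        calc η * ζ.re ≤ (δ / M) * M := mul_le_mul hη1 hle hζ0.le (by positivity)
          _ = δ := by field_simp
      rcases interior_subset (hth h14) with h16 | h16
      · exact h16
      · exact absurd h16 hne
    · push Not at hle
      refine h1 _ ?_
      have h17 : M * (ρ.re / 2) ≤ ζ.re * (ρ.re - η * (|ρ.im| + 1)) :=
        mul_le_mul hle.le (by linarith) (by positivity) hζ0.le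
      have h18 : M * (ρ.re / 2) = 2 + ρ.re := by rw [hM]; field_simp; ring
      linarith

end Pool.Agent.W189.FC
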