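import Mathlib

/-! Stieltjes inversion: if the Cauchy transform of an integrable function has a continuous
extension across an interval, the function vanishes almost everywhere on the interval. -/

set_option autoImplicit false

namespace Pool.Agent.W189.FC

open MeasureTheory Filter Topology Set
open scoped ContDiff

/-- the Poisson mean of a continuous function with compact support -/
theorem poisson_mean {g : ℝ → ℝ} (hg : Continuous g) {M : ℝ} (hM : ∀ x, |g x| ≤ M) (u : ℝ) :
    Tendsto (fun ε : ℝ => ∫ x, g x * (ε / ((x - u) ^ 2 + ε ^ 2))) (𝓝[>] 0) (𝓝 (Real.pi * g u)) := by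
  have hM0 : 0 ≤ M := (abs_nonneg _).trans (hM 0)
  have h1 : ∀ ε : ℝ, 0 < ε → ∫ x, g x * (ε / ((x - u) ^ 2 + ε ^ 2)) =
      ∫ s, g (u + ε * s) * (1 + s ^ 2)⁻¹ := by
    intro ε hε
    have e1 : ∫ x, g x * (ε / ((x - u) ^ 2 + ε ^ 2)) =
        ∫ x, g (u + x) * (ε / (x ^ 2 + ε ^ 2)) := by
      rw [← integral_add_left_eq_self (fun x => g x * (ε / ((x - u) ^ 2 + ε ^ 2))) u]
      refine integral_congr_ae (Eventually.of_forall fun x => ?_)
      simp only
      rw [add_sub_cancel_left]
    rw [e1]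
    have e2 := Measure.integral_comp_mul_left (fun x => g (u + x) * (ε / (x ^ 2 + ε ^ 2))) ε
    rw [abs_of_pos (inv_pos.2 hε), smul_eq_mul] at e2
    have e3 : ∫ x, g (u + x) * (ε / (x ^ 2 + ε ^ 2)) =
        ε * ∫ x, g (u + ε * x) * (ε / ((ε * x) ^ 2 + ε ^ 2)) := by
      rw [e2, ← mul_assoc, mul_inv_cancel₀ hε.ne', one_mul]
    rw [e3, ← integral_const_mul]
    refine integral_congr_ae (Eventually.of_forall fun x => ?_)
    simp only
    have e4 : (0 : ℝ) < 1 + x ^ 2 := by positivity
    have e5 : (0 : ℝ) < (ε * x) ^ 2 + ε ^ 2 := by positivity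
    have e6 : (ε * x) ^ 2 + ε ^ 2 = ε ^ 2 * (1 + x ^ 2) := by ring
    rw [e6]
    field_simp
  have h2 : Tendsto (fun ε : ℝ => ∫ s, g (u + ε * s) * (1 + s ^ 2)⁻¹) (𝓝[>] 0)
      (𝓝 (∫ s, g (u + 0 * s) * (1 + s ^ 2)⁻¹)) := by
    refine tendsto_integral_filter_of_dominated_convergence (fun s => M * (1 + s ^ 2)⁻¹) ?_ ?_ ?_ ?_
    · refine Eventually.of_forall fun ε => Continuous.aestronglyMeasurable ?_
      refine (hg.comp (by fun_prop)).mul (Continuous.inv₀ (by fun_prop) fun s => ?_)
      have : (0 : ℝ) < 1 + s ^ 2 := by positivity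
      exact this.ne'
    · refine Eventually.of_forall fun ε => Eventually.of_forall fun s => ?_
      have e4 : (0 : ℝ) < 1 + s ^ 2 := by positivity
      rw [Real.norm_eq_abs, abs_mul, abs_of_pos (inv_pos.2 e4)]
      exact mul_le_mul_of_nonneg_right (hM _) (inv_pos.2 e4).le
    · exact integrable_inv_one_add_sq.const_mul M
    · refine Eventually.of_forall fun s => ?_
      have h3 : Continuous fun ε : ℝ => g (u + ε * s) * (1 + s ^ 2)⁻¹ :=
        (hg.comp (by fun_prop)).mul continuous_const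
      exact (h3.tendsto 0).mono_left nhdsWithin_le_nhds
  have h4 : ∫ s : ℝ, g (u + 0 * s) * (1 + s ^ 2)⁻¹ = Real.pi * g u := by
    have : (fun s : ℝ => g (u + 0 * s) * (1 + s ^ 2)⁻¹) = fun s : ℝ => g u * (1 + s ^ 2)⁻¹ := by
      funext s; simp
    rw [this, integral_const_mul, integral_univ_inv_one_add_sq, mul_comm]
  rw [h4] at h2
  refine h2.congr' ?_
  filter_upwards [self_mem_nhdsWithin] with ε hε
  exact (h1 ε hε).symm

theorem poisson_le {g : ℝ → ℝ} {M : ℝ} (hM : ∀ x, |g x| ≤ M) (u : ℝ) {ε : ℝ} (hε : 0 < ε) :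
    |∫ x, g x * (ε / ((x - u) ^ 2 + ε ^ 2))| ≤ M * Real.pi := by
  have hM0 : 0 ≤ M := (abs_nonneg _).trans (hM 0)
  have hint : ∫ x, (ε / ((x - u) ^ 2 + ε ^ 2)) = Real.pi := by
    have e1 : ∫ x, (ε / ((x - u) ^ 2 + ε ^ 2)) = ∫ x, (ε / (x ^ 2 + ε ^ 2)) := by
      rw [← integral_add_left_eq_self (fun x => (ε / ((x - u) ^ 2 + ε ^ 2))) u]
      refine integral_congr_ae (Eventually.of_forall fun x => ?_)
      simp only
      rw [add_sub_cancel_left]
    rw [e1]
    have e2 := Measure.integral_comp_mul_left (fun x => (ε / (x ^ 2 + ε ^ 2))) ε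
    rw [abs_of_pos (inv_pos.2 hε), smul_eq_mul] at e2
    have e3 : ∫ x, (ε / (x ^ 2 + ε ^ 2)) = ε * ∫ x, (ε / ((ε * x) ^ 2 + ε ^ 2)) := by
      rw [e2, ← mul_assoc, mul_inv_cancel₀ hε.ne', one_mul]
    rw [e3, ← integral_const_mul, ← integral_univ_inv_one_add_sq]
    refine integral_congr_ae (Eventually.of_forall fun x => ?_)
    simp only
    have e4 : (0 : ℝ) < 1 + x ^ 2 := by positivity
    have e6 : (ε * x) ^ 2 + ε ^ 2 = ε ^ 2 * (1 + x ^ 2) := by ring
    rw [e6]
    field_simp
  have hi : Integrable fun x => (ε / ((x - u) ^ 2 + ε ^ 2)) := by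
    by_contra hc
    rw [integral_undef hc] at hint
    exact Real.pi_pos.ne hint
  rw [← Real.norm_eq_abs]
  refine (norm_integral_le_of_norm_le (hi.const_mul M) (Eventually.of_forall fun x => ?_)).trans ?_
  · have e5 : (0 : ℝ) < (x - u) ^ 2 + ε ^ 2 := by positivity
    rw [Real.norm_eq_abs, abs_mul, abs_of_pos (div_pos hε e5)]
    exact mul_le_mul_of_nonneg_right (hM _) (div_pos hε e5).le
  · rw [integral_const_mul, hint]

theorem cauchy_jump {ψ : ℝ → ℂ} (hψ : Integrable ψ) (x : ℝ) {ε : ℝ} (hε : 0 < ε) :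
    (∫ u, ψ u / ((x : ℂ) + ε * Complex.I - u)) - ∫ u, ψ u / ((x : ℂ) - ε * Complex.I - u) =
      ∫ u, ψ u * ((-2 * Complex.I) * ((ε / ((x - u) ^ 2 + ε ^ 2) : ℝ) : ℂ)) := by
  have hne : ∀ (δ : ℝ) (u : ℝ), δ ≠ 0 → (x : ℂ) + δ * Complex.I - u ≠ 0 := by
    intro δ u hδ h
    have := congrArg Complex.im h
    simp at this
    exact hδ this
  have hlow : ∀ (δ : ℝ) (u : ℝ), |δ| = ε → ‖((x : ℂ) + δ * Complex.I - u)⁻¹‖ ≤ ε⁻¹ := by
    intro δ u hδ
    rw [norm_inv]
    refine inv_anti₀ hε ?_
    have := Complex.abs_im_le_norm ((x : ℂ) + δ * Complex.I - u)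
    simp at this
    rwa [hδ] at this
  have hint : ∀ δ : ℝ, |δ| = ε → Integrable fun u : ℝ => ψ u / ((x : ℂ) + δ * Complex.I - u) := by
    intro δ hδ
    have h0 : δ ≠ 0 := by
      intro h; rw [h, abs_zero] at hδ; exact hε.ne hδ
    refine (hψ.mul_bdd (g := fun u : ℝ => ((x : ℂ) + δ * Complex.I - u)⁻¹) (c := ε⁻¹) ?_
      (Eventually.of_forall fun u => hlow δ u hδ)).congr
      (Eventually.of_forall fun u => by simp only [div_eq_mul_inv])
    refine Continuous.aestronglyMeasurable (Continuous.inv₀ (by fun_prop) fun u => hne δ u h0)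
  have h1 := hint ε (abs_of_pos hε)
  have h2 := hint (-ε) (by rw [abs_neg, abs_of_pos hε])
  have h3 : (fun u : ℝ => ψ u / ((x : ℂ) - ε * Complex.I - u)) =
      fun u : ℝ => ψ u / ((x : ℂ) + ((-ε : ℝ) : ℂ) * Complex.I - u) := by
    funext u
    congr 1
    push_cast
    ring
  rw [h3, ← integral_sub h1 h2]
  refine integral_congr_ae (Eventually.of_forall fun u => ?_)
  simp only
  have h4 := hne ε u hε.ne'
  have h5 := hne (-ε) u (neg_ne_zero.2 hε.ne')
  have h6 : (((x - u) ^ 2 + ε ^ 2 : ℝ) : ℂ) ≠ 0 := by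
    have : (0 : ℝ) < (x - u) ^ 2 + ε ^ 2 := by positivity
    exact_mod_cast this.ne'
  have h7 : ((x : ℂ) + ε * Complex.I - u) * ((x : ℂ) + ((-ε : ℝ) : ℂ) * Complex.I - u) =
      (((x - u) ^ 2 + ε ^ 2 : ℝ) : ℂ) := by
    push_cast
    ring_nf
    rw [Complex.I_sq]
    ring
  rw [div_sub_div _ _ h4 h5, h7]
  push_cast
  have h8 : ((x : ℂ) - u) ^ 2 + (ε : ℂ) ^ 2 ≠ 0 := by
    have := h6
    push_cast at this
    exact this
  field_simp
  ring

/-- Stieltjes inversion -/
theorem cauchy_transform_zero {ψ : ℝ → ℂ} (hψ : Integrable ψ) {E : ℂ → ℂ} {x₀ R : ℝ}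
    (hE : ContinuousOn E (Metric.ball (x₀ : ℂ) R))
    (h : ∀ ζ ∈ Metric.ball (x₀ : ℂ) R, ζ.im ≠ 0 → E ζ = ∫ u : ℝ, ψ u / (ζ - u)) :
    ∀ᵐ u : ℝ, u ∈ Ioo (x₀ - R) (x₀ + R) → ψ u = 0 := by
  refine isOpen_Ioo.ae_eq_zero_of_integral_contDiff_smul_eq_zero
    (hψ.locallyIntegrable.locallyIntegrableOn _) ?_
  intro g hg hgc hgs
  have hgcont : Continuous g := hg.continuous
  obtain ⟨M, hM⟩ : ∃ M, ∀ x, |g x| ≤ M := by
    obtain ⟨M, hM⟩ := hgcont.bounded_above_of_compact_support hgc
    exact ⟨M, hM⟩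
  have hgint : Integrable g := hgcont.integrable_of_hasCompactSupport hgc
  -- a smaller radius
  obtain ⟨R₁, hR1, hR1K⟩ : ∃ R₁ : ℝ, R₁ < R ∧ ∀ x ∈ tsupport g, |x - x₀| ≤ R₁ := by
    rcases (tsupport g).eq_empty_or_nonempty with he | hne
    · exact ⟨R - 1, by linarith, fun x hx => by rw [he] at hx; exact absurd hx (notMem_empty x)⟩
    · have hc : ContinuousOn (fun x : ℝ => |x - x₀|) (tsupport g) := by fun_prop
      obtain ⟨y, hy, hmax⟩ := hgc.isCompact.exists_isMaxOn hne hc
      refine ⟨|y - x₀|, ?_, fun x hx => hmax hx⟩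
      have := hgs hy
      rw [abs_lt]
      constructor <;> linarith [this.1, this.2]
  set R₂ := (R₁ + R) / 2 with hR2
  have hR2a : R₁ < R₂ := by rw [hR2]; linarith
  have hR2b : R₂ < R := by rw [hR2]; linarith
  have hcomp : IsCompact (Metric.closedBall (x₀ : ℂ) R₂) := isCompact_closedBall _ _
  have hsub : Metric.closedBall (x₀ : ℂ) R₂ ⊆ Metric.ball (x₀ : ℂ) R :=
    Metric.closedBall_subset_ball hR2b
  obtain ⟨B, hB⟩ := hcomp.exists_bound_of_continuousOn (hE.mono hsub)
  -- points near the support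
  have hin : ∀ x ∈ tsupport g, ∀ δ : ℝ, |δ| ≤ R₂ - R₁ →
      (x : ℂ) + δ * Complex.I ∈ Metric.closedBall (x₀ : ℂ) R₂ := by
    intro x hx δ hδ
    rw [Metric.mem_closedBall, Complex.dist_eq]
    have e1 : (x : ℂ) + δ * Complex.I - x₀ = ((x - x₀ : ℝ) : ℂ) + δ * Complex.I := by
      push_cast; ring
    rw [e1]
    refine (norm_add_le _ _).trans ?_
    rw [norm_mul, Complex.norm_I, mul_one, Complex.norm_real, Complex.norm_real,
      Real.norm_eq_abs, Real.norm_eq_abs]
    linarith [hR1K x hx]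
  set I : ℝ → ℂ := fun ε => ∫ x : ℝ, g x • (E (x + ε * Complex.I) - E (x - ε * Complex.I)) with hI
  have hlim1 : Tendsto I (𝓝[>] 0) (𝓝 0) := by
    have hz : (∫ x : ℝ, g x • (E x - E x)) = 0 := by simp
    rw [← hz]
    refine tendsto_integral_filter_of_dominated_convergence (fun x => |g x| * (2 * B)) ?_ ?_ ?_ ?_
    · have hev : ∀ᶠ ε : ℝ in 𝓝[>] 0, ε < R₂ - R₁ :=
        (eventually_lt_nhds (by linarith)).filter_mono nhdsWithin_le_nhds
      filter_upwards [hev, self_mem_nhdsWithin] with ε hε hε0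
      have hc : ContinuousOn (fun x : ℝ => g x • (E (x + ε * Complex.I) - E (x - ε * Complex.I)))
          (tsupport g) := by
        refine hgcont.continuousOn.smul (ContinuousOn.sub ?_ ?_)
        · refine (hE.mono hsub).comp (by fun_prop) fun x hx => hin x hx ε ?_
          rw [abs_of_pos hε0]; exact hε.le
        · refine (hE.mono hsub).comp (by fun_prop) fun x hx => ?_
          have := hin x hx (-ε) (by rw [abs_neg, abs_of_pos hε0]; exact hε.le)
          convert this using 1
          push_cast; ring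
      have hm : AEStronglyMeasurable (fun x : ℝ =>
          g x • (E (x + ε * Complex.I) - E (x - ε * Complex.I))) (volume.restrict (tsupport g)) :=
        hc.aestronglyMeasurable (isClosed_tsupport g).measurableSet
      rw [← aestronglyMeasurable_indicator_iff (isClosed_tsupport g).measurableSet] at hm
      refine hm.congr (Eventually.of_forall fun x => ?_)
      by_cases hx : x ∈ tsupport g
      · simp [indicator_of_mem hx]
      · rw [indicator_of_notMem hx]
        simp only [image_eq_zero_of_notMem_tsupport hx, zero_smul]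
    · have hev : ∀ᶠ ε : ℝ in 𝓝[>] 0, ε < R₂ - R₁ :=
        (eventually_lt_nhds (by linarith)).filter_mono nhdsWithin_le_nhds
      filter_upwards [hev, self_mem_nhdsWithin] with ε hε hε0
      refine Eventually.of_forall fun x => ?_
      rw [norm_smul, Real.norm_eq_abs]
      by_cases hx : x ∈ tsupport g
      · refine mul_le_mul_of_nonneg_left ?_ (abs_nonneg _)
        refine (norm_sub_le _ _).trans ?_
        have b1 := hB _ (hin x hx ε (by rw [abs_of_pos hε0]; exact hε.le))
        have b2 := hB _ (hin x hx (-ε) (by rw [abs_neg, abs_of_pos hε0]; exact hε.le))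
        have e1 : (x : ℂ) - ε * Complex.I = (x : ℂ) + ((-ε : ℝ) : ℂ) * Complex.I := by
          push_cast; ring
        rw [e1]
        linarith
      · rw [image_eq_zero_of_notMem_tsupport hx]
        simp
    · exact hgint.abs.mul_const _
    · refine Eventually.of_forall fun x => ?_
      by_cases hx : x ∈ tsupport g
      · have hxb : (x : ℂ) ∈ Metric.ball (x₀ : ℂ) R := by
          have := hin x hx 0 (by rw [abs_zero]; linarith)
          simp only [Complex.ofReal_zero, zero_mul, add_zero] at this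
          exact hsub this
        have hca : ContinuousAt E x := hE.continuousAt (Metric.isOpen_ball.mem_nhds hxb)
        have t1 : Tendsto (fun ε : ℝ => (x : ℂ) + ε * Complex.I) (𝓝 0) (𝓝 (x : ℂ)) := by
          have : Continuous fun ε : ℝ => (x : ℂ) + ε * Complex.I := by fun_prop
          have := this.tendsto 0
          simpa using this
        have t2 : Tendsto (fun ε : ℝ => (x : ℂ) - ε * Complex.I) (𝓝 0) (𝓝 (x : ℂ)) := by
          have : Continuous fun ε : ℝ => (x : ℂ) - ε * Complex.I := by fun_prop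
          have := this.tendsto 0
          simpa using this
        have := (((hca.tendsto.comp t1).sub (hca.tendsto.comp t2)).const_smul (g x))
        exact this.mono_left nhdsWithin_le_nhds
      · rw [image_eq_zero_of_notMem_tsupport hx]
        simp only [zero_smul]
        exact tendsto_const_nhds
  -- the other expression
  have hI2 : ∀ᶠ ε : ℝ in 𝓝[>] 0, I ε = (-2 * Complex.I) *
      ∫ u : ℝ, ψ u * ((∫ x : ℝ, g x * (ε / ((x - u) ^ 2 + ε ^ 2)) : ℝ) : ℂ) := by
    have hev : ∀ᶠ ε : ℝ in 𝓝[>] 0, ε < R₂ - R₁ :=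
      (eventually_lt_nhds (by linarith)).filter_mono nhdsWithin_le_nhds
    filter_upwards [hev, self_mem_nhdsWithin] with ε hε hε0
    have hε0' : (0 : ℝ) < ε := hε0
    have e1 : I ε = ∫ x : ℝ, ∫ u : ℝ,
        (g x : ℂ) * (ψ u * ((-2 * Complex.I) * ((ε / ((x - u) ^ 2 + ε ^ 2) : ℝ) : ℂ))) := by
      rw [hI]
      refine integral_congr_ae (Eventually.of_forall fun x => ?_)
      simp only
      by_cases hx : x ∈ tsupport g
      · have b1 := hsub (hin x hx ε (by rw [abs_of_pos hε0']; exact hε.le))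
        have b2 := hsub (hin x hx (-ε) (by rw [abs_neg, abs_of_pos hε0']; exact hε.le))
        have e1 : (x : ℂ) + ((-ε : ℝ) : ℂ) * Complex.I = (x : ℂ) - ε * Complex.I := by
          push_cast; ring
        rw [e1] at b2
        rw [h _ b1 (by simpa using hε0'.ne'), h _ b2 (by simpa using hε0'.ne'),
          cauchy_jump hψ x hε0', integral_const_mul, Complex.real_smul]
      · rw [image_eq_zero_of_notMem_tsupport hx]
        simp
    rw [e1, integral_integral_swap]
    · rw [← integral_const_mul]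
      refine integral_congr_ae (Eventually.of_forall fun u => ?_)
      simp only
      have e2 : (fun x : ℝ => (g x : ℂ) *
          (ψ u * ((-2 * Complex.I) * ((ε / ((x - u) ^ 2 + ε ^ 2) : ℝ) : ℂ)))) =
          fun x : ℝ => ((-2 * Complex.I) * ψ u) * ((g x * (ε / ((x - u) ^ 2 + ε ^ 2)) : ℝ) : ℂ) := by
        funext x
        push_cast
        ring
      rw [e2, integral_const_mul, integral_complex_ofReal]
      ring
    · have hp : Integrable (fun z : ℝ × ℝ => (g z.1 : ℂ) * ψ z.2) (volume.prod volume) :=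
        (hgint.ofReal (𝕜 := ℂ)).mul_prod hψ
      have hk : Continuous fun z : ℝ × ℝ =>
          (-2 * Complex.I) * ((ε / ((z.1 - z.2) ^ 2 + ε ^ 2) : ℝ) : ℂ) := by
        refine continuous_const.mul (Complex.continuous_ofReal.comp ?_)
        refine Continuous.div continuous_const (by fun_prop) fun z => ?_
        have : (0 : ℝ) < (z.1 - z.2) ^ 2 + ε ^ 2 := by positivity
        exact this.ne'
      refine (hp.mul_bdd (c := 2 * ε⁻¹) hk.aestronglyMeasurable
        (Eventually.of_forall fun z => ?_)).congr (Eventually.of_forall fun z => ?_)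
      · have h5 : (0 : ℝ) < (z.1 - z.2) ^ 2 + ε ^ 2 := by positivity
        rw [norm_mul, norm_mul, norm_neg, Complex.norm_I, mul_one, Complex.norm_real,
          Real.norm_eq_abs, abs_of_pos (div_pos hε0' h5)]
        have h6 : ε / ((z.1 - z.2) ^ 2 + ε ^ 2) ≤ ε⁻¹ := by
          rw [div_le_iff₀ h5, inv_mul_eq_div, le_div_iff₀ hε0']
          nlinarith [sq_nonneg (z.1 - z.2)]
        have h7 : ‖(2 : ℂ)‖ = 2 := by norm_num
        rw [h7]
        linarith
      · simp only [Function.uncurry]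
        ring
  have hlim2 : Tendsto (fun ε : ℝ => (-2 * Complex.I) *
      ∫ u : ℝ, ψ u * ((∫ x : ℝ, g x * (ε / ((x - u) ^ 2 + ε ^ 2)) : ℝ) : ℂ)) (𝓝[>] 0)
      (𝓝 ((-2 * Complex.I) * ∫ u : ℝ, ψ u * ((Real.pi * g u : ℝ) : ℂ))) := by
    refine Tendsto.const_mul _ ?_
    refine tendsto_integral_filter_of_dominated_convergence (fun u => ‖ψ u‖ * (M * Real.pi))
      ?_ ?_ ?_ ?_
    · filter_upwards [self_mem_nhdsWithin] with ε hε0
      have hε0' : (0 : ℝ) < ε := hε0
      refine hψ.aestronglyMeasurable.mul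
        (Complex.continuous_ofReal.comp_aestronglyMeasurable ?_)
      have hp : Integrable (fun z : ℝ × ℝ => g z.2 * (Real.exp (-(z.1) ^ 2)))
          (volume.prod volume) := by
        have := (integrable_exp_neg_mul_sq (b := 1) one_pos).mul_prod hgint
        refine this.congr (Eventually.of_forall fun z => ?_)
        simp only
        rw [neg_one_mul, mul_comm]
      have hk2 : Continuous fun z : ℝ × ℝ => g z.2 * (ε / ((z.2 - z.1) ^ 2 + ε ^ 2)) := by
        refine (hgcont.comp continuous_snd).mul (Continuous.div continuous_const (by fun_prop)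
          fun z => ?_)
        have : (0 : ℝ) < (z.2 - z.1) ^ 2 + ε ^ 2 := by positivity
        exact this.ne'
      exact hk2.stronglyMeasurable.integral_prod_right'.aestronglyMeasurable
    · filter_upwards [self_mem_nhdsWithin] with ε hε0
      refine Eventually.of_forall fun u => ?_
      rw [norm_mul, Complex.norm_real, Real.norm_eq_abs]
      exact mul_le_mul_of_nonneg_left (poisson_le hM u hε0) (norm_nonneg _)
    · exact hψ.norm.mul_const _
    · refine Eventually.of_forall fun u => ?_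
      refine Tendsto.const_mul _ ?_
      exact (Complex.continuous_ofReal.tendsto _).comp (poisson_mean hgcont hM u)
  have h0 := tendsto_nhds_unique (hlim1.congr' hI2) hlim2
  have h1 : ∫ u : ℝ, ψ u * ((Real.pi * g u : ℝ) : ℂ) = 0 := by
    have h2 : (-2 * Complex.I) ≠ 0 := by simp
    exact (mul_eq_zero.1 h0.symm).resolve_left h2
  have h2 : ∫ u : ℝ, ψ u * ((Real.pi * g u : ℝ) : ℂ) = Real.pi * ∫ u : ℝ, g u • ψ u := by
    rw [← integral_const_mul]
    refine integral_congr_ae (Eventually.of_forall fun u => ?_)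
    simp only [Complex.real_smul]
    push_cast
    ring
  rw [h2] at h1
  exact (mul_eq_zero.1 h1).resolve_left (by exact_mod_cast Real.pi_ne_zero)

end Pool.Agent.W189.FC
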