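import Pool.Agent.W189.FC.Trans
import Pool.Agent.W189.FC.Fin
import Pool.Agent.W189.FC.Stieltjes

/-! The abstract theorem: a zero forces the transform of the weight to vanish. -/

set_option autoImplicit false

namespace Pool.Agent.W189.FC

open MeasureTheory Filter Topology Set

variable {ι : Type} {lam c : ι → ℝ} {H : ℂ → ℂ}

/-- division by the power of a zero -/
theorem exists_quot {Φ : ℂ → ℂ} (hΦ : Differentiable ℂ Φ) {z₁ : ℂ} (hz₁ : Φ z₁ ≠ 0) {ρ : ℂ}
    (hρ : Φ ρ = 0) : ∃ (m : ℕ) (Q : ℂ → ℂ), m ≠ 0 ∧ Differentiable ℂ Q ∧ Q ρ ≠ 0 ∧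
      ∀ w, Φ w = (w - ρ) ^ m * Q w := by
  have han : AnalyticOnNhd ℂ Φ univ := hΦ.differentiableOn.analyticOnNhd isOpen_univ
  have hne : analyticOrderAt Φ ρ ≠ ⊤ := by
    intro htop
    rw [analyticOrderAt_eq_top] at htop
    have h2 := han.eqOn_zero_of_preconnected_of_eventuallyEq_zero isPreconnected_univ
      (mem_univ ρ) htop
    exact hz₁ (h2 (mem_univ _))
  obtain ⟨m, hm⟩ := ENat.ne_top_iff_exists.mp hne
  obtain ⟨g, hg, hg0, he⟩ := ((han ρ (mem_univ _)).analyticOrderAt_eq_natCast).mp hm.symm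
  have hm0 : m ≠ 0 := by
    rintro rfl
    have h3 := he.self_of_nhds
    rw [hρ] at h3
    simp at h3
    exact hg0 h3.symm
  set Q : ℂ → ℂ := fun w => if w = ρ then g ρ else Φ w / (w - ρ) ^ m with hQ
  have hQ0 : Q ρ = g ρ := by rw [hQ]; simp
  have hQe : Q =ᶠ[𝓝 ρ] g := by
    filter_upwards [he] with w hw
    rw [hQ]
    simp only
    split_ifs with h
    · rw [h]
    · rw [hw]
      have : w - ρ ≠ 0 := sub_ne_zero.2 h
      rw [smul_eq_mul]
      field_simp
  refine ⟨m, Q, hm0, fun w => ?_, ?_, fun w => ?_⟩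
  · by_cases h : w = ρ
    · rw [h]
      exact (hg.congr hQe.symm).differentiableAt
    · have h2 : Q =ᶠ[𝓝 w] fun w => Φ w / (w - ρ) ^ m := by
        filter_upwards [isOpen_ne.mem_nhds h] with v hv
        rw [hQ]
        simp only
        rw [if_neg hv]
      refine DifferentiableAt.congr_of_eventuallyEq ?_ h2
      refine DifferentiableAt.fun_div (hΦ w) (by fun_prop) ?_
      exact pow_ne_zero _ (sub_ne_zero.2 h)
  · rw [hQ0]; exact hg0
  · rw [hQ]
    simp only
    split_ifs with h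
    · rw [h, hρ, sub_self, zero_pow hm0, zero_mul]
    · have : w - ρ ≠ 0 := sub_ne_zero.2 h
      field_simp

/-- splitting of the transform -/
theorem CData.mel_split [Countable ι] (D : CData lam c H) {v : ℝ → ℂ} {B a : ℝ} (V : Vw v B a)
    {O : Set ℂ} (hHO : ContinuousOn H O) {t₁ : ℝ} (hat : a ≤ t₁) {z : ℂ}
    (hz : ∀ t : ℝ, a ≤ t → z * t ∈ O) (hz3 : 3 ≤ z.re * t₁) :
    mel H v z = (∫ t in Icc a t₁, v t * H (z * t)) + mel H ((Ioi t₁).indicator v) z := by
  have ha := V.a_pos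
  have ht1 : 0 < t₁ := ha.trans_le hat
  have hz0 : 0 < z.re := by
    by_contra h
    push Not at h
    nlinarith
  have hB : 0 ≤ B := (norm_nonneg _).trans (V.bdd 0)
  obtain ⟨C, hC0, hC⟩ := D.H_bound
  have hi1 : IntegrableOn (fun t : ℝ => v t * H (z * t)) (Icc a t₁) :=
    fin_integrable V.meas V.bdd hHO fun t ht => hz t ht.1
  have hi2 : IntegrableOn (fun t : ℝ => v t * H (z * t)) (Ioi t₁) := by
    have hb : IntegrableOn (fun t : ℝ => (B * (C * Real.exp 3)) * Real.exp (-z.re * t)) (Ioi t₁) :=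
      (integrableOn_exp_mul_Ioi (by linarith) t₁).const_mul _
    refine Integrable.mono' hb ?_ ?_
    · refine V.meas.aestronglyMeasurable.mul ?_
      refine ContinuousOn.aestronglyMeasurable ?_ measurableSet_Ioi
      exact hHO.comp (by fun_prop) fun t ht => hz t (hat.trans (le_of_lt ht))
    · filter_upwards [ae_restrict_mem measurableSet_Ioi] with t ht
      have ht' : t₁ < t := ht
      rw [norm_mul]
      have h3 : 3 ≤ (z * t).re := by
        rw [Complex.re_mul_ofReal]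
        nlinarith
      have h4 := hC (z * t) h3
      rw [Complex.re_mul_ofReal] at h4
      calc ‖v t‖ * ‖H (z * t)‖ ≤ B * (C * Real.exp (3 - z.re * t)) :=
            mul_le_mul (V.bdd t) h4 (norm_nonneg _) hB
        _ = (B * (C * Real.exp 3)) * Real.exp (-z.re * t) := by
            rw [sub_eq_add_neg, Real.exp_add, neg_mul]; ring
  have e1 : mel H v z = ∫ t in Ici a, v t * H (z * t) := by
    unfold mel
    refine setIntegral_eq_of_subset_of_forall_sdiff_eq_zero measurableSet_Ioi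
      (fun x (hx : a ≤ x) => ha.trans_le hx) fun t ht => ?_
    rw [V.zero t ht.1 (by simpa using ht.2), zero_mul]
  have e2 : Ici a = Icc a t₁ ∪ Ioi t₁ := (Icc_union_Ioi_eq_Ici hat).symm
  have e3 : mel H ((Ioi t₁).indicator v) z = ∫ t in Ioi t₁, v t * H (z * t) := by
    unfold mel
    have : (fun t : ℝ => (Ioi t₁).indicator v t * H (z * t)) =
        (Ioi t₁).indicator fun t : ℝ => v t * H (z * t) := by
      funext t
      by_cases h : t ∈ Ioi t₁
      · rw [indicator_of_mem h, indicator_of_mem h]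
      · rw [indicator_of_notMem h, indicator_of_notMem h, zero_mul]
    rw [this, setIntegral_indicator measurableSet_Ioi]
    congr 2
    ext x
    simp only [mem_inter_iff, mem_Ioi]
    constructor
    · exact fun h => h.2
    · exact fun h => ⟨ht1.trans h, h⟩
  rw [e1, e2, setIntegral_union _ measurableSet_Ioi hi1 hi2, e3]
  rw [Set.disjoint_left]
  intro x hx hx2
  exact absurd hx.2 (not_le.2 hx2)

theorem Vw.tail {v : ℝ → ℂ} {B a : ℝ} (V : Vw v B a) {t₁ : ℝ} (ht : 0 < t₁) :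
    Vw ((Ioi t₁).indicator v) B t₁ := by
  refine ⟨V.meas.indicator measurableSet_Ioi, fun t => ?_, ht, fun t _ h => ?_⟩
  · by_cases h : t ∈ Ioi t₁
    · rw [indicator_of_mem h]; exact V.bdd t
    · rw [indicator_of_notMem h, norm_zero]; exact (norm_nonneg _).trans (V.bdd 0)
  · rw [indicator_of_notMem (by simpa using h.le)]

/-- the half sectors are convex -/
theorem half_convex (s η ε : ℝ) :
    Convex ℝ {ζ : ℂ | s < ζ.re ∧ 0 < ε * ζ.im ∧ ε * ζ.im < η * ζ.re} := by
  have h1 : Convex ℝ {ζ : ℂ | s < ζ.re} := convex_halfSpace_re_gt s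
  have h2 : Convex ℝ {ζ : ℂ | 0 < ε * ζ.im} := by
    refine convex_halfSpace_gt (f := fun ζ : ℂ => ε * ζ.im) ⟨fun x y => ?_, fun r x => ?_⟩ 0
    · simp [mul_add]
    · simp; ring
  have h3 : Convex ℝ {ζ : ℂ | ε * ζ.im - η * ζ.re < 0} := by
    refine convex_halfSpace_lt (f := fun ζ : ℂ => ε * ζ.im - η * ζ.re)
      ⟨fun x y => ?_, fun r x => ?_⟩ 0
    · simp; ring
    · simp; ring
  have h4 : {ζ : ℂ | s < ζ.re ∧ 0 < ε * ζ.im ∧ ε * ζ.im < η * ζ.re} =
      {ζ : ℂ | s < ζ.re} ∩ ({ζ : ℂ | 0 < ε * ζ.im} ∩ {ζ : ℂ | ε * ζ.im - η * ζ.re < 0}) := by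
    ext ζ
    simp only [mem_ofPred_eq, mem_inter_iff, sub_neg]
  rw [h4]
  exact h1.inter (h2.inter h3)

set_option maxHeartbeats 4000000 in
/-- **A zero to the right forces the weight to vanish.** -/
theorem CData.no_zero [Countable ι] (D : CData lam c H) {Φ G : ℂ → ℂ}
    (hΦ : Differentiable ℂ Φ) (h1 : ∀ w : ℂ, 1 < w.re → Φ w ≠ 0)
    (hG : ∀ w : ℂ, 0 < w.re → DifferentiableAt ℂ G w)
    (hH : ∀ s : ℂ, 0 < s.re → H s = logDeriv Φ s - deriv G s)
    {v : ℝ → ℂ} {B a : ℝ} (V : Vw v B a) {L : ℂ → ℂ} {κ : ℝ} (hκ : 0 ≤ κ)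
    (hL : ∀ z : ℂ, κ < z.re → DifferentiableAt ℂ L z) {X : ℝ}
    (hLX : ∀ z : ℂ, X ≤ z.re → L z = mel H v z)
    {ρ₀ : ℂ} (hρ₀ : Φ ρ₀ = 0) (hρκ : κ * a < ρ₀.re) :
    ∃ δ > 0, ∀ᵐ t : ℝ, t ∈ Ioo a (a + δ) → v t = 0 := by
  have ha := V.a_pos
  have hρ₀0 : 0 < ρ₀.re := lt_of_le_of_lt (by positivity) hρκ
  -- the outermost zero on the ray
  obtain ⟨ρ, hρ, hρκ', hout⟩ : ∃ ρ : ℂ, Φ ρ = 0 ∧ κ * a < ρ.re ∧
      ∀ x : ℝ, 1 < x → Φ (x * ρ) ≠ 0 := by
    set Z : Set ℝ := {x | 1 ≤ x ∧ Φ (x * ρ₀) = 0} with hZ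
    have hZc : IsCompact Z := by
      refine (isCompact_Icc (a := (1 : ℝ)) (b := 1 / ρ₀.re)).of_isClosed_subset ?_ ?_
      · refine IsClosed.inter (isClosed_le continuous_const continuous_id) ?_
        exact isClosed_eq (hΦ.continuous.comp (by fun_prop)) continuous_const
      · rintro x ⟨hx1, hx2⟩
        refine ⟨hx1, ?_⟩
        by_contra hc
        push Not at hc
        rw [div_lt_iff₀ hρ₀0] at hc
        exact h1 _ (by rw [Complex.re_ofReal_mul]; exact hc) hx2
    obtain ⟨x₁, hx1, hmax⟩ := hZc.exists_isMaxOn ⟨1, le_rfl, by simpa using hρ₀⟩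
      (f := fun x : ℝ => x) continuousOn_id
    refine ⟨x₁ * ρ₀, hx1.2, ?_, fun x hx h => ?_⟩
    · rw [Complex.re_ofReal_mul]
      have := hx1.1
      nlinarith
    · have h2 : x * x₁ ∈ Z := by
        refine ⟨by nlinarith [hx1.1], ?_⟩
        push_cast
        rw [mul_assoc]
        exact h
      have h3 := hmax h2
      simp only [mem_ofPred_eq] at h3
      nlinarith [hx1.1]
  have hρ0 : 0 < ρ.re := lt_of_le_of_lt (by positivity) hρκ'
  have hρne : ρ ≠ 0 := by intro h; rw [h] at hρ0; simp at hρ0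
  set q : ℝ := (κ * a + ρ.re) / 2 with hq
  have hq0 : 0 < q := by rw [hq]; have : 0 ≤ κ * a := by positivity
                         linarith
  have hqκ : κ * a < q := by rw [hq]; linarith
  obtain ⟨s, η, hs0, hs1, hη, hgeo⟩ := zero_geometry hΦ h1 hρ0 hout hq0.le
    (by rw [hq]; linarith)
  have hρ1 : ρ.re ≤ 1 := by
    by_contra hc
    push Not at hc
    exact h1 ρ hc hρ
  set t₁ : ℝ := 4 * a / q with ht1
  have hq1 : q < 1 := by rw [hq]; linarith
  have hat : 4 * a < t₁ := by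
    rw [ht1, lt_div_iff₀ hq0]; nlinarith
  have ht10 : 0 < t₁ := by positivity
  -- the region of `ζ`
  have reg : ∀ ζ : ℂ, s / a < ζ.re → |ζ.im| < η * ζ.re → ∀ t : ℝ, a ≤ t →
      q < ((ζ * ρ) * t).re ∧ ((ζ * t : ℂ) ≠ 1 → Φ ((ζ * ρ) * t) ≠ 0) := by
    intro ζ hζ1 hζ2 t ht
    have ht0 : 0 < t := ha.trans_le ht
    rw [div_lt_iff₀ ha] at hζ1
    have hζ0 : 0 < ζ.re := by
      by_contra hc
      push Not at hc
      nlinarith
    have e1 : (ζ * ρ) * t = (ζ * t) * ρ := by ring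
    rw [e1]
    refine hgeo (ζ * t) ?_ ?_
    · rw [Complex.re_mul_ofReal]
      nlinarith
    · rw [Complex.re_mul_ofReal, Complex.im_mul_ofReal, abs_mul, abs_of_pos ht0]
      nlinarith
  have regκ : ∀ ζ : ℂ, s / a < ζ.re → |ζ.im| < η * ζ.re → q / a < (ζ * ρ).re := by
    intro ζ hζ1 hζ2
    have h2 := (reg ζ hζ1 hζ2 a le_rfl).1
    rw [Complex.re_mul_ofReal] at h2
    rwa [div_lt_iff₀ ha]
  have regL : ∀ ζ : ℂ, s / a < ζ.re → |ζ.im| < η * ζ.re → κ < (ζ * ρ).re := by
    intro ζ hζ1 hζ2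
    have h2 := regκ ζ hζ1 hζ2
    have h3 : κ < q / a := by rw [lt_div_iff₀ ha]; exact hqκ
    linarith
  have reg3 : ∀ ζ : ℂ, s / a < ζ.re → |ζ.im| < η * ζ.re → 3 < (ζ * ρ).re * t₁ := by
    intro ζ hζ1 hζ2
    have h2 := regκ ζ hζ1 hζ2
    have h3 : (q / a) * t₁ = 4 := by rw [ht1]; field_simp
    have h4 : (q / a) * t₁ < (ζ * ρ).re * t₁ := mul_lt_mul_of_pos_right h2 ht10
    linarith
  -- the domain of `H`
  set O : Set ℂ := {w | 0 < w.re ∧ Φ w ≠ 0} with hO
  have hOo : IsOpen O :=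
    (isOpen_lt continuous_const Complex.continuous_re).inter
      (hΦ.continuous.isOpen_preimage _ isOpen_compl_singleton)
  have hGd : ∀ w : ℂ, 0 < w.re → DifferentiableAt ℂ (deriv G) w := by
    intro w hw
    have h2 : DifferentiableOn ℂ G {w : ℂ | 0 < w.re} := fun w hw => (hG w hw).differentiableWithinAt
    have ho : IsOpen {w : ℂ | 0 < w.re} := isOpen_lt continuous_const Complex.continuous_re
    exact (h2.deriv ho).differentiableAt (ho.mem_nhds hw)
  have hlog : ∀ (P : ℂ → ℂ), Differentiable ℂ P → ∀ w, P w ≠ 0 →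
      DifferentiableAt ℂ (logDeriv P) w := by
    intro P hP w hw
    have h2 : DifferentiableAt ℂ (deriv P) w := by
      have h3 : DifferentiableOn ℂ P univ := hP.differentiableOn
      exact (h3.deriv isOpen_univ).differentiableAt (isOpen_univ.mem_nhds (mem_univ _))
    exact h2.div (hP w) hw
  have hHd : DifferentiableOn ℂ H O := by
    intro w hw
    refine DifferentiableAt.differentiableWithinAt ?_
    have h2 : H =ᶠ[𝓝 w] fun s => logDeriv Φ s - deriv G s := by
      have ho : IsOpen {w : ℂ | 0 < w.re} := isOpen_lt continuous_const Complex.continuous_re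
      filter_upwards [ho.mem_nhds hw.1] with s hs
      exact hH s hs
    exact ((hlog Φ hΦ w hw.2).sub (hGd w hw.1)).congr_of_eventuallyEq h2
  -- the halves
  have half : ∀ ε : ℝ, |ε| = 1 → ∀ ζ : ℂ, s / a < ζ.re → 0 < ε * ζ.im → ε * ζ.im < η * ζ.re →
      L (ζ * ρ) = mel H v (ζ * ρ) := by
    intro ε hε
    set W : Set ℂ := {ζ : ℂ | s / a < ζ.re ∧ 0 < ε * ζ.im ∧ ε * ζ.im < η * ζ.re} with hW
    have hWo : IsOpen W :=
      (isOpen_lt continuous_const Complex.continuous_re).inter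
        ((isOpen_lt continuous_const (continuous_const.mul Complex.continuous_im)).inter
          (isOpen_lt (continuous_const.mul Complex.continuous_im)
            (continuous_const.mul Complex.continuous_re)))
    have habs : ∀ ζ ∈ W, |ζ.im| < η * ζ.re := by
      rintro ζ ⟨_, hb1, hb2⟩
      have : |ε * ζ.im| = |ζ.im| := by rw [abs_mul, hε, one_mul]
      rw [← this, abs_of_pos hb1]
      exact hb2
    have hne1 : ∀ ζ ∈ W, ∀ t : ℝ, a ≤ t → (ζ * t : ℂ) ≠ 1 := by
      rintro ζ ⟨_, hb1, _⟩ t ht h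
      have h2 := congrArg Complex.im h
      rw [Complex.im_mul_ofReal, Complex.one_im] at h2
      have ht0 : 0 < t := ha.trans_le ht
      have h3 : ζ.im = 0 := by
        rcases mul_eq_zero.1 h2 with h | h
        · exact h
        · exact absurd h ht0.ne'
      rw [h3, mul_zero] at hb1
      exact lt_irrefl _ hb1
    have hinO : ∀ ζ ∈ W, ∀ t : ℝ, a ≤ t → (ζ * ρ) * t ∈ O := by
      intro ζ hζ t ht
      have h2 := reg ζ hζ.1 (habs ζ hζ) t ht
      exact ⟨hq0.trans h2.1, h2.2 (hne1 ζ hζ t ht)⟩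
    have hsplit : ∀ ζ ∈ W, mel H v (ζ * ρ) = (∫ t in Icc a t₁, v t * H ((ζ * ρ) * t)) +
        mel H ((Ioi t₁).indicator v) (ζ * ρ) := fun ζ hζ =>
      D.mel_split V hHd.continuousOn (by linarith) (hinO ζ hζ) (reg3 ζ hζ.1 (habs ζ hζ)).le
    have hrd : DifferentiableOn ℂ (fun ζ : ℂ => mel H v (ζ * ρ)) W := by
      intro ζ hζ
      refine DifferentiableAt.differentiableWithinAt ?_
      have h2 : DifferentiableAt ℂ (fun z : ℂ => ∫ t in Icc a t₁, v t * H (z * t)) (ζ * ρ) :=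
        fin_diff V.meas V.bdd hOo hHd ha.le fun t ht => hinO ζ hζ t ht.1
      have h3 : DifferentiableAt ℂ (mel H ((Ioi t₁).indicator v)) (ζ * ρ) :=
        D.mel_diff (V.tail ht10) (reg3 ζ hζ.1 (habs ζ hζ))
      have h4 : DifferentiableAt ℂ (fun ζ : ℂ => (∫ t in Icc a t₁, v t * H ((ζ * ρ) * t)) +
          mel H ((Ioi t₁).indicator v) (ζ * ρ)) ζ :=
        (DifferentiableAt.fun_comp' (g := fun z : ℂ => ∫ t in Icc a t₁, v t * H (z * t))
          (f := fun ζ : ℂ => ζ * ρ) ζ h2 (by fun_prop)).add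
          (DifferentiableAt.fun_comp' (g := mel H ((Ioi t₁).indicator v))
          (f := fun ζ : ℂ => ζ * ρ) ζ h3 (by fun_prop))
      refine h4.congr_of_eventuallyEq ?_
      filter_upwards [hWo.mem_nhds hζ] with y hy
      exact hsplit y hy
    have hld : DifferentiableOn ℂ (fun ζ : ℂ => L (ζ * ρ)) W := by
      intro ζ hζ
      refine DifferentiableAt.differentiableWithinAt ?_
      exact DifferentiableAt.fun_comp' ζ (hL _ (regL ζ hζ.1 (habs ζ hζ))) (by fun_prop)
    -- a point far to the right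
    obtain ⟨ζ₁, hζ₁, hζX⟩ : ∃ ζ₁ ∈ W, X < (ζ₁ * ρ).re := by
      have hsa : 0 < s / a := by positivity
      set x₁ : ℝ := max (2 * (s / a)) (2 * (s / a) * (a / q * (|X| + 1))) with hx1
      have hx1a : 2 * (s / a) ≤ x₁ := le_max_left _ _
      have hx0 : 0 < x₁ := by linarith
      set ζb : ℂ := ⟨2 * (s / a), ε * (η * (s / a))⟩ with hζb
      set μ : ℝ := x₁ / (2 * (s / a)) with hμ
      have hμ1 : 1 ≤ μ := by rw [hμ, one_le_div (by positivity)]; exact hx1a
      have hμ2 : a / q * (|X| + 1) ≤ μ := by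
        rw [hμ, le_div_iff₀ (by positivity), mul_comm]
        exact le_max_right _ _
      have hεε : ε * ε = 1 := by rw [← abs_mul_abs_self, hε, one_mul]
      have hbW : ζb ∈ W := by
        refine ⟨?_, ?_, ?_⟩
        · show s / a < 2 * (s / a)
          linarith
        · show 0 < ε * (ε * (η * (s / a)))
          rw [← mul_assoc, hεε, one_mul]; positivity
        · show ε * (ε * (η * (s / a))) < η * (2 * (s / a))
          rw [← mul_assoc, hεε, one_mul]
          nlinarith [mul_pos hη hsa]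
      refine ⟨μ * ζb, ⟨?_, ?_, ?_⟩, ?_⟩
      · rw [Complex.re_ofReal_mul]
        have := hbW.1
        nlinarith
      · rw [Complex.im_ofReal_mul]
        have := hbW.2.1
        have h5 : ε * (μ * ζb.im) = μ * (ε * ζb.im) := by ring
        rw [h5]; positivity
      · rw [Complex.im_ofReal_mul, Complex.re_ofReal_mul]
        have := hbW.2.2
        have h5 : ε * (μ * ζb.im) = μ * (ε * ζb.im) := by ring
        have h6 : η * (μ * ζb.re) = μ * (η * ζb.re) := by ring
        rw [h5, h6]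
        exact mul_lt_mul_of_pos_left this (by linarith)
      · rw [mul_assoc, Complex.re_ofReal_mul]
        have h5 := regκ ζb hbW.1 (habs ζb hbW)
        have h6 : (a / q * (|X| + 1)) * (q / a) = |X| + 1 := by field_simp
        have h7 : (a / q * (|X| + 1)) * (q / a) ≤ μ * (ζb * ρ).re :=
          mul_le_mul hμ2 h5.le (by positivity) (by linarith)
        have := le_abs_self X
        linarith
    have hev : (fun ζ : ℂ => L (ζ * ρ)) =ᶠ[𝓝 ζ₁] fun ζ : ℂ => mel H v (ζ * ρ) := by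
      have hc : Continuous fun ζ : ℂ => (ζ * ρ).re := by fun_prop
      filter_upwards [hc.continuousAt.eventually (lt_mem_nhds hζX)] with ζ hζ
      exact hLX _ hζ.le
    have := (hld.analyticOnNhd hWo).eqOn_of_preconnected_of_eventuallyEq (hrd.analyticOnNhd hWo)
      (half_convex (s / a) η ε).isPreconnected hζ₁ hev
    intro ζ hζ1 hζ2 hζ3
    exact this ⟨hζ1, hζ2, hζ3⟩
  -- the quotient
  obtain ⟨m, Q, hm0, hQd, hQρ, hQe⟩ := exists_quot hΦ (z₁ := 2) (h1 2 (by norm_num)) hρ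
  have hmC : (m : ℂ) ≠ 0 := by exact_mod_cast hm0
  set H₁ : ℂ → ℂ := fun w => logDeriv Q w - deriv G w with hH1
  set O₁ : Set ℂ := {w | 0 < w.re ∧ Q w ≠ 0} with hO1
  have hO1o : IsOpen O₁ :=
    (isOpen_lt continuous_const Complex.continuous_re).inter
      (hQd.continuous.isOpen_preimage _ isOpen_compl_singleton)
  have hH1d : DifferentiableOn ℂ H₁ O₁ := fun w hw =>
    ((hlog Q hQd w hw.2).sub (hGd w hw.1)).differentiableWithinAt
  have hHH : ∀ w ∈ O, H w = m / (w - ρ) + H₁ w := by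
    intro w hw
    have hwρ : w - ρ ≠ 0 := by
      intro h
      rw [sub_eq_zero] at h
      rw [h] at hw
      exact hw.2 hρ
    have hQw : Q w ≠ 0 := by
      intro h
      exact hw.2 (by rw [hQe w, h, mul_zero])
    rw [hH w hw.1, hH1]
    simp only
    have h2 : Φ = fun w => (w - ρ) ^ m * Q w := funext hQe
    have h3 : logDeriv Φ w = m / (w - ρ) + logDeriv Q w := by
      rw [h2, logDeriv_mul (f := fun w : ℂ => (w - ρ) ^ m) (g := Q) w (pow_ne_zero m hwρ) hQw
        (by fun_prop) (hQd w)]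
      congr 1
      rw [logDeriv_apply]
      have h4 : HasDerivAt (fun w : ℂ => (w - ρ) ^ m) ((m : ℂ) * (w - ρ) ^ (m - 1)) w := by
        have := ((hasDerivAt_id' w).sub_const ρ).fun_pow m
        simpa using this
      rw [h4.deriv]
      obtain ⟨k, rfl⟩ : ∃ k, m = k + 1 := ⟨m - 1, by omega⟩
      rw [Nat.add_sub_cancel, pow_succ]
      field_simp
    rw [h3]
    ring
  -- the ball
  set R₀ : ℝ := min (a * (1 - s) / 3) (η * a) with hR0
  have hR0a : R₀ ≤ a * (1 - s) / 3 := min_le_left _ _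
  have hR0b : R₀ ≤ η * a := min_le_right _ _
  have hR0p : 0 < R₀ := by
    rw [hR0]
    exact lt_min (by have := sub_pos.2 hs1; positivity) (by positivity)
  have hR0c : R₀ ≤ a / 3 := by
    refine hR0a.trans ?_
    have : a * (1 - s) ≤ a := by nlinarith
    linarith
  have hball : ∀ τ ∈ Metric.ball (((a + R₀ : ℝ)) : ℂ) R₀, a < τ.re ∧ s / a < (τ⁻¹).re ∧
      |(τ⁻¹).im| < η * (τ⁻¹).re := by
    intro τ hτ
    rw [Metric.mem_ball, Complex.dist_eq] at hτ
    have e1 := (Complex.abs_re_le_norm (τ - ((a + R₀ : ℝ) : ℂ))).trans_lt hτ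
    have e2 := (Complex.abs_im_le_norm (τ - ((a + R₀ : ℝ) : ℂ))).trans_lt hτ
    rw [Complex.sub_re, Complex.ofReal_re, abs_lt] at e1
    rw [Complex.sub_im, Complex.ofReal_im, sub_zero] at e2
    have hx1 : a < τ.re := by linarith [e1.1]
    have hx2 : τ.re < a + 2 * R₀ := by linarith [e1.2]
    have hx0 : 0 < τ.re := ha.trans hx1
    have hn : 0 < Complex.normSq τ := by
      rw [Complex.normSq_pos]
      intro h; rw [h] at hx0; simp at hx0
    refine ⟨hx1, ?_, ?_⟩
    · rw [Complex.inv_re, lt_div_iff₀ hn, Complex.normSq_apply, div_mul_eq_mul_div,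
        div_lt_iff₀ ha]
      have hy : τ.im * τ.im < R₀ * R₀ := by
        have := mul_self_lt_mul_self (abs_nonneg _) e2
        rwa [abs_mul_abs_self] at this
      have h5 : R₀ * R₀ ≤ R₀ * τ.re := by nlinarith
      have h6 : τ.re * τ.re + τ.im * τ.im < τ.re * (a + 3 * R₀) := by nlinarith
      have h7 : s * (τ.re * τ.re + τ.im * τ.im) < s * (τ.re * (a + 3 * R₀)) :=
        mul_lt_mul_of_pos_left h6 hs0
      have h8 : s * (a + 3 * R₀) ≤ a := by
        have : 3 * R₀ ≤ a * (1 - s) := by linarith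
        nlinarith
      nlinarith
    · rw [Complex.inv_re, Complex.inv_im, abs_div, abs_neg, abs_of_pos hn, mul_div_assoc']
      refine div_lt_div_of_pos_right ?_ hn
      have := mul_lt_mul_of_pos_left hx1 hη
      linarith
  have hin1 : ∀ τ ∈ Metric.ball (((a + R₀ : ℝ)) : ℂ) R₀, ∀ t : ℝ, a ≤ t →
      (τ⁻¹ * ρ) * t ∈ O₁ := by
    intro τ hτ t ht
    obtain ⟨_, h2, h3⟩ := hball τ hτ
    obtain ⟨h4, h5⟩ := reg τ⁻¹ h2 h3 t ht
    refine ⟨hq0.trans h4, fun h6 => ?_⟩
    by_cases h7 : (τ⁻¹ * t : ℂ) = 1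
    · have h8 : τ⁻¹ * ρ * t = ρ := by
        rw [mul_right_comm, h7, one_mul]
      rw [h8] at h6
      exact hQρ h6
    · exact h5 h7 (by rw [hQe, h6, mul_zero])
  set E : ℂ → ℂ := fun τ => -(ρ / (m * τ)) * (L (τ⁻¹ * ρ) -
    (∫ t in Icc a t₁, v t * H₁ ((τ⁻¹ * ρ) * t)) - mel H ((Ioi t₁).indicator v) (τ⁻¹ * ρ)) with hE
  have hEc : ContinuousOn E (Metric.ball (((a + R₀ : ℝ)) : ℂ) R₀) := by
    intro τ hτ
    refine ContinuousAt.continuousWithinAt ?_
    obtain ⟨hb1, h2, h3⟩ := hball τ hτ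
    have hτ0 : τ ≠ 0 := by
      intro h; rw [h] at hb1; simp at hb1; linarith
    have hi : ContinuousAt (fun τ : ℂ => τ⁻¹ * ρ) τ :=
      (continuousAt_inv₀ hτ0).mul continuousAt_const
    have c1 : ContinuousAt (fun τ : ℂ => L (τ⁻¹ * ρ)) τ :=
      ContinuousAt.comp (g := L) (f := fun τ : ℂ => τ⁻¹ * ρ)
        (hL _ (regL τ⁻¹ h2 h3)).continuousAt hi
    have c2 : ContinuousAt (fun τ : ℂ => ∫ t in Icc a t₁, v t * H₁ ((τ⁻¹ * ρ) * t)) τ := by
      have h4 : DifferentiableAt ℂ (fun z : ℂ => ∫ t in Icc a t₁, v t * H₁ (z * t)) (τ⁻¹ * ρ) :=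
        fin_diff V.meas V.bdd hO1o hH1d ha.le fun t ht => hin1 τ hτ t ht.1
      exact ContinuousAt.comp (g := fun z : ℂ => ∫ t in Icc a t₁, v t * H₁ (z * t))
        (f := fun τ : ℂ => τ⁻¹ * ρ) h4.continuousAt hi
    have c3 : ContinuousAt (fun τ : ℂ => mel H ((Ioi t₁).indicator v) (τ⁻¹ * ρ)) τ :=
      ContinuousAt.comp (g := mel H ((Ioi t₁).indicator v)) (f := fun τ : ℂ => τ⁻¹ * ρ)
        (D.mel_diff (V.tail ht10) (reg3 τ⁻¹ h2 h3)).continuousAt hi
    have c4 : ContinuousAt (fun τ : ℂ => -(ρ / (m * τ))) τ :=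
      (continuousAt_const.div (by fun_prop) (mul_ne_zero hmC hτ0)).neg
    exact c4.mul ((c1.sub c2).sub c3)
  set ψ : ℝ → ℂ := (Icc a t₁).indicator v with hψ
  have hψi : Integrable ψ := by
    rw [hψ, integrable_indicator_iff measurableSet_Icc]
    refine Integrable.mono' (g := fun _ => B) (integrable_const _)
      V.meas.aestronglyMeasurable (Eventually.of_forall V.bdd)
  have hfin : ∀ᵐ u : ℝ, u ∈ Ioo ((a + R₀) - R₀) ((a + R₀) + R₀) → ψ u = 0 := by
    refine cauchy_transform_zero hψi hEc fun τ hτ him => ?_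
    obtain ⟨hb1, h2, h3⟩ := hball τ hτ
    have hτ0 : τ ≠ 0 := by
      intro h; rw [h] at hb1; simp at hb1; linarith
    have hnsq : 0 < Complex.normSq τ := Complex.normSq_pos.2 hτ0
    have him' : (τ⁻¹).im ≠ 0 := by
      rw [Complex.inv_im]
      exact div_ne_zero (neg_ne_zero.2 him) hnsq.ne'
    have hLm : L (τ⁻¹ * ρ) = mel H v (τ⁻¹ * ρ) := by
      rcases lt_or_gt_of_ne him' with h | h
      · refine half (-1) (by simp) τ⁻¹ h2 (by linarith) ?_
        rw [abs_of_neg h] at h3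
        linarith
      · refine half 1 (by simp) τ⁻¹ h2 (by linarith) ?_
        rw [abs_of_pos h] at h3
        linarith
    have hne1 : ∀ t : ℝ, a ≤ t → (τ⁻¹ * t : ℂ) ≠ 1 := by
      intro t ht h
      have h4 := congrArg Complex.im h
      rw [Complex.im_mul_ofReal, Complex.one_im] at h4
      rcases mul_eq_zero.1 h4 with h5 | h5
      · exact him' h5
      · exact (ha.trans_le ht).ne' h5
    have hinO : ∀ t : ℝ, a ≤ t → (τ⁻¹ * ρ) * t ∈ O := by
      intro t ht
      obtain ⟨h4, h5⟩ := reg τ⁻¹ h2 h3 t ht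
      exact ⟨hq0.trans h4, h5 (hne1 t ht)⟩
    have hsp := D.mel_split V hHd.continuousOn (t₁ := t₁) (by linarith) hinO (reg3 τ⁻¹ h2 h3).le
    have i1 : IntegrableOn (fun t : ℝ => v t * H ((τ⁻¹ * ρ) * t)) (Icc a t₁) :=
      fin_integrable V.meas V.bdd hHd.continuousOn fun t ht => hinO t ht.1
    have i2 : IntegrableOn (fun t : ℝ => v t * H₁ ((τ⁻¹ * ρ) * t)) (Icc a t₁) :=
      fin_integrable V.meas V.bdd hH1d.continuousOn fun t ht => hin1 τ hτ t ht.1
    have e1 : E τ = -(ρ / (m * τ)) * ((∫ t in Icc a t₁, v t * H ((τ⁻¹ * ρ) * t)) -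
        ∫ t in Icc a t₁, v t * H₁ ((τ⁻¹ * ρ) * t)) := by
      rw [hE]
      simp only
      rw [hLm, hsp]
      ring
    rw [e1, ← integral_sub i1 i2, ← integral_const_mul]
    have e2 : ∫ u : ℝ, ψ u / (τ - u) = ∫ u in Icc a t₁, v u / (τ - u) := by
      have : (fun u : ℝ => ψ u / (τ - u)) = (Icc a t₁).indicator fun u : ℝ => v u / (τ - u) := by
        funext u
        rw [hψ]
        by_cases h : u ∈ Icc a t₁
        · rw [indicator_of_mem h, indicator_of_mem h]
        · rw [indicator_of_notMem h, indicator_of_notMem h, zero_div]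
      rw [this, integral_indicator measurableSet_Icc]
    rw [e2]
    refine setIntegral_congr_fun measurableSet_Icc fun t ht => ?_
    rw [hHH _ (hinO t ht.1)]
    have n1 : τ - t ≠ 0 := by
      intro h
      have h4 := congrArg Complex.im h
      simp at h4
      exact him h4
    have n2 : τ⁻¹ * ρ * t - ρ ≠ 0 := by
      intro h
      have h5 : ρ * (τ⁻¹ * t - 1) = 0 := by rw [← h]; ring
      rcases mul_eq_zero.1 h5 with h6 | h6
      · exact hρne h6
      · exact hne1 t ht.1 (sub_eq_zero.1 h6)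
    have n3 : τ⁻¹ * ρ * t - ρ = -(ρ * (τ - t) / τ) := by field_simp; ring
    rw [n3]
    field_simp
    ring
  refine ⟨2 * R₀, by linarith, ?_⟩
  filter_upwards [hfin] with u hu hu2
  have h2 : u ∈ Ioo ((a + R₀) - R₀) ((a + R₀) + R₀) := ⟨by linarith [hu2.1], by linarith [hu2.2]⟩
  have h3 := hu h2
  rw [hψ, indicator_of_mem (show u ∈ Icc a t₁ from ⟨hu2.1.le, by linarith [hu2.2]⟩)] at h3
  exact h3

end Pool.Agent.W189.FC
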