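import Pool.Agent.W189.FC.Data
import Pool.Agent.W189.ML.Final

/-! Finite cut-offs for the product of Birch and Swinnerton-Dyer. -/

set_option autoImplicit false

namespace Pool.Agent.W189.FC

open MeasureTheory Filter Topology Set Classical
open Pool.Agent.W263.BSD Pool.Agent.W189.ML

/-- `∑_p w(log p / log X) log ((N_p + 1)/p)` over the good primes, the logarithm of the product of
Birch and Swinnerton-Dyer with the cut-off `w` -/
noncomputable def cutSum (a b : ℤ) (w : ℝ → ℝ) (X : ℝ) : ℝ :=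
  ∑' p : ℕ, if GoodPrime a b p then
    w (Real.log p / Real.log X) * Real.log (((pointCount a b p : ℝ) + 1) / p) else 0

variable {a b : ℤ} {F : ℂ → ℂ}

theorem cdata_curve (hF : IsLSeries a b F) :
    CData (fun p : SS a b => Real.log (p : ℕ)) (fun p : SS a b => cc (Ap a b) (p : ℕ))
      fun s => logDeriv (PhiF a b F) s - deriv (GG (SS a b) (Ap a b)) s := by
  have E := eData a b
  have D := sdata E
  have hlog25 : ∀ p : ℕ, 25 ≤ p → 1 ≤ Real.log p := by
    intro p hp
    rw [Real.le_log_iff_exp_le (by positivity)]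
    have h1 : Real.exp 1 < 3 := Real.exp_one_lt_three
    have h2 : (25 : ℝ) ≤ p := by exact_mod_cast hp
    linarith
  refine cdata_of_exp (fun p : SS a b => hlog25 (p : ℕ) (E.big (p : ℕ) p.2)) ?_ (fun w hw => D.Gd w hw) ?_
  · have h1 := D.sum.comp_injective (Subtype.val_injective (p := fun p => p ∈ SS a b))
    refine h1.congr fun p => ?_
    simp only [Function.comp_apply]
    rw [if_pos p.2]
  · intro w hw
    rw [← exp_eq E (w := w) (by linarith) (PhiF_hasProd hF (w := w) (by linarith))]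
    congr 2
    unfold ser
    have h2 := tsum_subtype (SS a b) (fun p : ℕ => (cc (Ap a b) p : ℂ) *
      Complex.exp (-(w * Real.log p)))
    rw [h2]
    refine tsum_congr fun p => ?_
    beta_reduce
    by_cases hp : p ∈ SS a b
    · rw [indicator_of_mem hp, if_pos hp]
    · rw [indicator_of_notMem hp, if_neg hp]
      simp

theorem wsum_summable {w : ℝ → ℝ} {B A : ℝ} (hb : ∀ x, |w x| ≤ B) (h0 : ∀ x, A < x → w x = 0)
    {T : ℝ} (hT : 0 < T) :
    (Summable fun p : ℕ => cf a b p * w (Real.log p / T)) ∧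
      ∑' p : ℕ, |cf a b p * w (Real.log p / T)| ≤
      (B * ∑' p : ℕ, |cf a b p| * Real.exp (-(2 * Real.log p))) * Real.exp (2 * A * T) := by
  have D := sdata (eData a b)
  have hB : 0 ≤ B := (abs_nonneg _).trans (hb 0)
  have hs : Summable fun p : ℕ => |cf a b p| * Real.exp (-(2 * Real.log p)) := D.sum
  have hle : ∀ p : ℕ, |cf a b p * w (Real.log p / T)| ≤
      (B * Real.exp (2 * A * T)) * (|cf a b p| * Real.exp (-(2 * Real.log p))) := by
    intro p
    by_cases h : A < Real.log p / T
    · rw [h0 _ h, mul_zero, abs_zero]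
      positivity
    · push Not at h
      rw [div_le_iff₀ hT] at h
      rw [abs_mul]
      have h2 : (1 : ℝ) ≤ Real.exp (2 * A * T) * Real.exp (-(2 * Real.log p)) := by
        rw [← Real.exp_add]
        apply Real.one_le_exp
        linarith
      calc |cf a b p| * |w (Real.log p / T)| ≤ |cf a b p| * B :=
            mul_le_mul_of_nonneg_left (hb _) (abs_nonneg _)
        _ = (B * |cf a b p|) * 1 := by ring
        _ ≤ (B * |cf a b p|) * (Real.exp (2 * A * T) * Real.exp (-(2 * Real.log p))) :=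
            mul_le_mul_of_nonneg_left h2 (by positivity)
        _ = _ := by ring
  have hsa : Summable fun p : ℕ => |cf a b p * w (Real.log p / T)| :=
    Summable.of_nonneg_of_le (fun p => abs_nonneg _) hle (hs.mul_left _)
  refine ⟨hsa.of_abs, ?_⟩
  refine (hsa.tsum_le_tsum hle (hs.mul_left _)).trans (le_of_eq ?_)
  rw [tsum_mul_left]
  ring

/-- the part of the small primes -/
noncomputable def fs (a b : ℤ) (w : ℝ → ℝ) (T : ℝ) (p : ℕ) : ℝ :=
  if p < 25 ∧ GoodPrime a b p then w (Real.log p / T) * lp a b p else 0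

theorem fs_zero (w : ℝ → ℝ) (T : ℝ) {p : ℕ} (hp : p ∉ Finset.range 25) : fs a b w T p = 0 := by
  rw [Finset.mem_range] at hp
  unfold fs
  rw [if_neg (fun h => hp h.1)]

theorem fs_bound (a b : ℤ) {w : ℝ → ℝ} {B : ℝ} (hb : ∀ x, |w x| ≤ B) (T : ℝ) :
    |∑ p ∈ Finset.range 25, fs a b w T p| ≤ ∑ p ∈ Finset.range 25, B * |lp a b p| := by
  refine (Finset.abs_sum_le_sum_abs _ _).trans (Finset.sum_le_sum fun p _ => ?_)
  have hB : 0 ≤ B := (abs_nonneg _).trans (hb 0)
  unfold fs
  split_ifs
  · rw [abs_mul]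
    exact mul_le_mul_of_nonneg_right (hb _) (abs_nonneg _)
  · rw [abs_zero]; positivity

theorem cutSum_eq {w : ℝ → ℝ} {B A : ℝ} (hb : ∀ x, |w x| ≤ B) (h0 : ∀ x, A < x → w x = 0)
    {T : ℝ} (hT : 0 < T) : cutSum a b w (Real.exp T) =
      wsum (fun p : SS a b => Real.log (p : ℕ)) (fun p : SS a b => cc (Ap a b) (p : ℕ)) w T +
      ∑ p ∈ Finset.range 25, fs a b w T p := by
  have h1 : ∀ p : ℕ, (if GoodPrime a b p then
      w (Real.log p / T) * Real.log (((pointCount a b p : ℝ) + 1) / p) else 0) =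
      cf a b p * w (Real.log p / T) + fs a b w T p := by
    intro p
    unfold cf fs
    by_cases hg : GoodPrime a b p
    · by_cases h25 : 25 ≤ p
      · have hS : p ∈ SS a b := ⟨hg, h25⟩
        rw [if_pos hg, if_pos hS, if_neg (by omega), cc_eq_lp (by omega), add_zero]
        unfold Pool.Agent.W263.BSD.lp
        ring
      · have hS : p ∉ SS a b := fun h => h25 h.2
        rw [if_pos hg, if_neg hS, if_pos ⟨by omega, hg⟩, zero_mul, zero_add]
        unfold Pool.Agent.W263.BSD.lp
        rfl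
    · have hS : p ∉ SS a b := fun h => hg h.1
      rw [if_neg hg, if_neg hS, if_neg (fun h => hg h.2)]
      simp
  have hs := (wsum_summable (a := a) (b := b) hb h0 hT).1
  unfold cutSum
  rw [Real.log_exp]
  simp only [h1]
  rw [hs.tsum_add (summable_of_ne_finset_zero (s := Finset.range 25) fun p hp => fs_zero _ _ hp),
    tsum_eq_sum (s := Finset.range 25) (f := fun p => fs a b w T p) fun p hp => fs_zero _ _ hp]
  congr 1
  unfold wsum
  have h2 := tsum_subtype (SS a b) (fun p : ℕ => cc (Ap a b) p * w (Real.log p / T))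
  rw [h2]
  refine tsum_congr fun p => ?_
  unfold cf
  by_cases hp : p ∈ SS a b
  · rw [indicator_of_mem hp, if_pos hp]
  · rw [indicator_of_notMem hp, if_neg hp, zero_mul]

theorem wsum_abs {w : ℝ → ℝ} {B A : ℝ} (hb : ∀ x, |w x| ≤ B) (h0 : ∀ x, A < x → w x = 0)
    {T : ℝ} (hT : 0 < T) :
    |wsum (fun p : SS a b => Real.log (p : ℕ)) (fun p : SS a b => cc (Ap a b) (p : ℕ)) w T| ≤
      (B * ∑' p : ℕ, |cf a b p| * Real.exp (-(2 * Real.log p))) * Real.exp (2 * A * T) := by
  obtain ⟨hs, hle⟩ := wsum_summable (a := a) (b := b) hb h0 hT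
  refine le_trans ?_ hle
  have h1 : wsum (fun p : SS a b => Real.log (p : ℕ)) (fun p : SS a b => cc (Ap a b) (p : ℕ)) w T =
      ∑' p : ℕ, cf a b p * w (Real.log p / T) := by
    unfold wsum
    have h2 := tsum_subtype (SS a b) (fun p : ℕ => cc (Ap a b) p * w (Real.log p / T))
    rw [h2]
    refine tsum_congr fun p => ?_
    unfold cf
    by_cases hp : p ∈ SS a b
    · rw [indicator_of_mem hp, if_pos hp]
    · rw [indicator_of_notMem hp, if_neg hp, zero_mul]
  rw [h1]
  have h3 := norm_tsum_le_tsum_norm (f := fun p : ℕ => cf a b p * w (Real.log p / T)) hs.norm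
  simpa only [Real.norm_eq_abs] using h3

theorem wsum_meas {w : ℝ → ℝ} (hw : Measurable w) {B A : ℝ} (hb : ∀ x, |w x| ≤ B)
    (h0 : ∀ x, A < x → w x = 0) :
    AEStronglyMeasurable (fun T : ℝ => (wsum (fun p : SS a b => Real.log (p : ℕ))
      (fun p : SS a b => cc (Ap a b) (p : ℕ)) w T : ℂ)) (volume.restrict (Ioi 0)) := by
  refine Complex.continuous_ofReal.comp_aestronglyMeasurable ?_
  refine aestronglyMeasurable_of_tendsto_ae (atTop : Filter (Finset (SS a b)))
    (f := fun (s : Finset (SS a b)) (T : ℝ) => ∑ p ∈ s, cc (Ap a b) (p : ℕ) *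
      w (Real.log (p : ℕ) / T)) (fun s => ?_) ?_
  · refine Measurable.aestronglyMeasurable ?_
    refine Finset.measurable_fun_sum _ fun p _ => ?_
    exact (hw.comp (measurable_const.div measurable_id)).const_mul _
  · filter_upwards [ae_restrict_mem measurableSet_Ioi] with T hT
    have hs := (wsum_summable (a := a) (b := b) hb h0 hT).1
    have h1 := hs.comp_injective (Subtype.val_injective (p := fun p => p ∈ SS a b))
    have h2 : (fun p : SS a b => cc (Ap a b) (p : ℕ) * w (Real.log (p : ℕ) / T)) =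
        (fun p : ℕ => cf a b p * w (Real.log p / T)) ∘ Subtype.val := by
      funext p
      simp only [Function.comp_apply]
      unfold cf
      rw [if_pos p.2]
    unfold wsum
    rw [h2]
    exact h1.hasSum

/-- **No finite cut-off without the Riemann hypothesis.** -/
theorem finite_cutoff (hF : IsLSeries a b F) {w : ℝ → ℝ} (hw : Measurable w) {B A : ℝ}
    (hb : ∀ x, |w x| ≤ B) (h0 : ∀ x, A < x → w x = 0) {α : ℝ} (hα : 0 < α)
    (hne : ¬ ∀ᵐ x : ℝ, α < x → w x = 0) {c : ℝ} (hc : 0 ≤ c)
    (hS : ∃ C X₀ : ℝ, ∀ X ≥ X₀, |cutSum a b w X| ≤ C * X ^ c) :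
    ∀ s : ℂ, 1 + c / α < s.re → F s ≠ 0 := by
  intro s hs hFs
  have hA : 0 < A := by
    by_contra hc2
    push Not at hc2
    refine hne (Eventually.of_forall fun x hx => h0 x ?_)
    linarith
  have hB : 0 ≤ B := (abs_nonneg _).trans (hb 0)
  have D := cdata_curve hF
  have E := eData a b
  set S : ℝ → ℂ := fun T : ℝ => (wsum (fun p : SS a b => Real.log (p : ℕ))
      (fun p : SS a b => cc (Ap a b) (p : ℕ)) w T : ℂ) with hSd
  -- the bound
  obtain ⟨C, X₀, hX⟩ := hS
  set K : ℝ := ∑ p ∈ Finset.range 25, B * |lp a b p| with hK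
  have hK0 : 0 ≤ K := by rw [hK]; positivity
  set T₀ : ℝ := max 1 (Real.log (max 1 X₀)) with hT0
  set M : ℝ := (B * ∑' p : ℕ, |cf a b p| * Real.exp (-(2 * Real.log p))) with hM
  have hM0 : 0 ≤ M := by
    rw [hM]
    refine mul_nonneg hB (tsum_nonneg fun p => by positivity)
  have hbound : ∀ T : ℝ, 0 < T → ‖S T‖ ≤ (|C| + K + M * Real.exp (2 * A * T₀)) *
      Real.exp (c * T) := by
    intro T hT
    have hexp : 1 ≤ Real.exp (c * T) := Real.one_le_exp (by positivity)
    rw [hSd]
    simp only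
    rw [Complex.norm_real, Real.norm_eq_abs]
    by_cases h : T₀ ≤ T
    · have h2 : X₀ ≤ Real.exp T := by
        have h3 : Real.log (max 1 X₀) ≤ T := (le_max_right _ _).trans h
        rw [Real.log_le_iff_le_exp (by positivity)] at h3
        exact (le_max_right _ _).trans h3
      have h3 := hX _ h2
      rw [cutSum_eq hb h0 hT, ← Real.exp_mul, mul_comm T c] at h3
      have h4 := fs_bound a b hb T
      have h5 := abs_sub_abs_le_abs_sub (wsum (fun p : SS a b => Real.log (p : ℕ))
        (fun p : SS a b => cc (Ap a b) (p : ℕ)) w T) (-∑ p ∈ Finset.range 25, fs a b w T p)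
      rw [sub_neg_eq_add, abs_neg] at h5
      have h6 : C * Real.exp (c * T) ≤ |C| * Real.exp (c * T) :=
        mul_le_mul_of_nonneg_right (le_abs_self _) (Real.exp_pos _).le
      have h7 : K ≤ K * Real.exp (c * T) := le_mul_of_one_le_right hK0 hexp
      have h8 : 0 ≤ M * Real.exp (2 * A * T₀) * Real.exp (c * T) := by positivity
      have h9 : (|C| + K + M * Real.exp (2 * A * T₀)) * Real.exp (c * T) =
          |C| * Real.exp (c * T) + K * Real.exp (c * T) +
            M * Real.exp (2 * A * T₀) * Real.exp (c * T) := by ring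
      rw [h9]
      linarith
    · push Not at h
      have h2 := wsum_abs (a := a) (b := b) hb h0 hT
      refine h2.trans ?_
      have h3 : Real.exp (2 * A * T) ≤ Real.exp (2 * A * T₀) := by
        apply Real.exp_le_exp.2
        have := mul_le_mul_of_nonneg_left h.le (by positivity : 0 ≤ 2 * A)
        exact this
      have h4 : M * Real.exp (2 * A * T) ≤ M * Real.exp (2 * A * T₀) :=
        mul_le_mul_of_nonneg_left h3 hM0
      have h5 : M * Real.exp (2 * A * T₀) ≤ (|C| + K + M * Real.exp (2 * A * T₀)) := by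
        have := abs_nonneg C
        linarith
      have h6 : 0 ≤ |C| + K + M * Real.exp (2 * A * T₀) := by positivity
      calc M * Real.exp (2 * A * T) ≤ |C| + K + M * Real.exp (2 * A * T₀) := h4.trans h5
        _ ≤ _ := le_mul_of_one_le_right h6 hexp
  have V : Vw (fun t => (w t⁻¹ : ℂ)) B A⁻¹ := by
    refine ⟨?_, fun t => ?_, inv_pos.2 hA, fun t ht hta => ?_⟩
    · exact Complex.measurable_ofReal.comp (hw.comp measurable_inv)
    · rw [Complex.norm_real, Real.norm_eq_abs]; exact hb _
    · rw [h0 t⁻¹, Complex.ofReal_zero]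
      rw [lt_inv_comm₀ hA ht]
      exact hta
  have hne' : ¬ ∀ᵐ t : ℝ, t ∈ Ioo 0 (1 / α) → (w t⁻¹ : ℂ) = 0 := by
    intro h
    refine hne ?_
    have h2 := ae_inv (P := fun x => (w x : ℂ) = 0) (b := 1 / α) (by positivity) h
    filter_upwards [h2] with x hx hx2
    have h3 := hx (by rwa [one_div_one_div]) (hα.trans hx2)
    exact_mod_cast h3
  have hΦ : PhiF a b F (s - 1) = 0 := by
    unfold PhiF
    rw [show (1 : ℂ) + (s - 1) = s by ring, hFs, zero_mul]
  refine D.no_zero_ae (Φ := PhiF a b F) (G := GG (SS a b) (Ap a b)) (PhiF_differentiable hF)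
    (fun w hw => PhiF_ne_zero_of_one_lt hF hw) (fun w hw => (sdata E).Gd w hw) (fun s _ => rfl) V
    (L := lap S) (κ := c) hc (fun z hz => lap_differentiableAt (wsum_meas hw hb h0)
      (by
        filter_upwards [ae_restrict_mem measurableSet_Ioi] with T hT
        exact hbound T hT) hz) (X := 3 * A)
    (fun z hz => D.lap_wsum hw hA hb h0 hz) (b := 1 / α) (by positivity) hne' (ρ := s - 1) ?_ hΦ
  rw [Complex.sub_re, Complex.one_re]
  have : c * (1 / α) = c / α := by ring
  rw [this]
  linarith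

/-- closed form: no cut-off of compact support can bound the sums by `X^c` unless the half plane
`Re s > 1 + c/α` is free of zeros, `α` any point beyond which `w` is not almost everywhere zero -/
def FiniteCutoffs : Prop := ∀ (a b : ℤ) (F : ℂ → ℂ), IsLSeries a b F →
  ∀ (w : ℝ → ℝ) (B A α c : ℝ), Measurable w → (∀ x, |w x| ≤ B) → (∀ x, A < x → w x = 0) →
  0 < α → (¬ ∀ᵐ x : ℝ, α < x → w x = 0) → 0 ≤ c →
  (∃ C X₀ : ℝ, ∀ X ≥ X₀, |cutSum a b w X| ≤ C * X ^ c) → ∀ s : ℂ, 1 + c / α < s.re → F s ≠ 0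

theorem finiteCutoffs : FiniteCutoffs :=
  fun _ _ _ hF _ _ _ _ _ hw hb h0 hα hne hc hS => finite_cutoff hF hw hb h0 hα hne hc hS

end Pool.Agent.W189.FC
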