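import Pool.Agent.W189.FC.Cont

/-! The series data from the exponential form; weights that vanish only almost everywhere. -/

set_option autoImplicit false

namespace Pool.Agent.W189.FC

open MeasureTheory Filter Topology Set

variable {ι : Type} {lam c : ι → ℝ}

theorem cdata_of_exp (hlam : ∀ i, 1 ≤ lam i) (hsum : Summable fun i => |c i| * Real.exp (-(2 * lam i)))
    {Φ G : ℂ → ℂ} (hG : ∀ w : ℂ, 0 < w.re → DifferentiableAt ℂ G w)
    (hexp : ∀ w : ℂ, 2 < w.re →
      Complex.exp (G w - ∑' i, (c i : ℂ) * Complex.exp (-(w * lam i))) = Φ w) :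
    CData lam c fun s => logDeriv Φ s - deriv G s := by
  refine ⟨hlam, hsum, fun s hs => ?_⟩
  have hopen : IsOpen {w : ℂ | 2 < w.re} := isOpen_lt continuous_const Complex.continuous_re
  have hmem : s ∈ {w : ℂ | 2 < w.re} := by
    show 2 < s.re
    linarith
  have hd : ∀ (i : ι) (w : ℂ), HasDerivAt (fun w : ℂ => (c i : ℂ) * Complex.exp (-(w * lam i)))
      (-((c i : ℂ) * lam i * Complex.exp (-(w * lam i)))) w := by
    intro i w
    have h1 : HasDerivAt (fun w : ℂ => -(w * lam i)) (-(lam i : ℂ)) w := by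
      have := ((hasDerivAt_id' w).mul_const (lam i : ℂ)).neg
      rw [one_mul] at this
      exact this
    have h2 := (h1.cexp).const_mul (c i : ℂ)
    have h3 : -((c i : ℂ) * lam i * Complex.exp (-(w * lam i))) =
        (c i : ℂ) * (Complex.exp (-(w * lam i)) * -(lam i : ℂ)) := by ring
    rw [h3]
    exact h2
  have hle : ∀ (i : ι) (w : ℂ), w ∈ {w : ℂ | 2 < w.re} →
      ‖(c i : ℂ) * Complex.exp (-(w * lam i))‖ ≤ |c i| * Real.exp (-(2 * lam i)) := by
    intro i w hw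
    have hw' : 2 < w.re := hw
    rw [norm_mul, Complex.norm_real, Real.norm_eq_abs, norm_exp_neg]
    refine mul_le_mul_of_nonneg_left ?_ (abs_nonneg _)
    apply Real.exp_le_exp.2
    have := hlam i
    nlinarith
  have h1 := Complex.hasSum_deriv_of_summable_norm hsum
    (fun i => fun w _ => (hd i w).differentiableAt.differentiableWithinAt) hopen hle hmem
  set S : ℂ → ℂ := fun w => ∑' i, (c i : ℂ) * Complex.exp (-(w * lam i)) with hS
  have hSd : DifferentiableOn ℂ S {w : ℂ | 2 < w.re} :=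
    Complex.differentiableOn_tsum_of_summable_norm hsum
      (fun i => fun w _ => (hd i w).differentiableAt.differentiableWithinAt) hopen hle
  have hSs : DifferentiableAt ℂ S s := hSd.differentiableAt (hopen.mem_nhds hmem)
  have hGs : DifferentiableAt ℂ G s := hG s (by linarith)
  have hΦ : HasDerivAt Φ (Complex.exp (G s - S s) * (deriv G s - deriv S s)) s := by
    refine HasDerivAt.congr_of_eventuallyEq (f := fun w => Complex.exp (G w - S w)) ?_ ?_
    · exact (hGs.hasDerivAt.sub hSs.hasDerivAt).cexp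
    · filter_upwards [hopen.mem_nhds hmem] with w hw
      exact (hexp w hw).symm
  have h2 : logDeriv Φ s = deriv G s - deriv S s := by
    rw [logDeriv_apply, hΦ.deriv, ← hexp s hmem, mul_div_assoc, mul_comm, div_mul_cancel₀]
    exact Complex.exp_ne_zero _
  have h3 : logDeriv Φ s - deriv G s = -deriv S s := by rw [h2]; ring
  rw [h3]
  have h4 := h1.neg
  have h5 : (fun i => (c i : ℂ) * lam i * Complex.exp (-(s * lam i))) =
      fun i => -deriv (fun w : ℂ => (c i : ℂ) * Complex.exp (-(w * lam i))) s := by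
    funext i
    rw [(hd i s).deriv, neg_neg]
  rw [h5]
  exact h4

theorem mel_congr {H : ℂ → ℂ} {v v' : ℝ → ℂ} (h : ∀ᵐ t ∂(volume.restrict (Ioi (0 : ℝ))), v t = v' t)
    (z : ℂ) : mel H v z = mel H v' z := by
  unfold mel
  refine integral_congr_ae ?_
  filter_upwards [h] with t ht
  rw [ht]

/-- the version for weights that vanish only almost everywhere -/
theorem CData.no_zero_ae [Countable ι] {H : ℂ → ℂ} (D : CData lam c H) {Φ G : ℂ → ℂ}
    (hΦ : Differentiable ℂ Φ) (h1 : ∀ w : ℂ, 1 < w.re → Φ w ≠ 0)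
    (hG : ∀ w : ℂ, 0 < w.re → DifferentiableAt ℂ G w)
    (hH : ∀ s : ℂ, 0 < s.re → H s = logDeriv Φ s - deriv G s)
    {v : ℝ → ℂ} {B a : ℝ} (V : Vw v B a) {L : ℂ → ℂ} {κ : ℝ} (hκ : 0 ≤ κ)
    (hL : ∀ z : ℂ, κ < z.re → DifferentiableAt ℂ L z) {X : ℝ}
    (hLX : ∀ z : ℂ, X ≤ z.re → L z = mel H v z)
    {b : ℝ} (_hb : 0 < b) (hne : ¬ ∀ᵐ t : ℝ, t ∈ Ioo 0 b → v t = 0)
    {ρ : ℂ} (hρκ : κ * b < ρ.re) : Φ ρ ≠ 0 := by
  intro hρ
  have ha := V.a_pos
  set Z : Set ℝ := {y | ∀ᵐ t : ℝ, t ∈ Ioo 0 y → v t = 0} with hZ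
  have haZ : a ∈ Z := by
    show ∀ᵐ t : ℝ, t ∈ Ioo 0 a → v t = 0
    exact Eventually.of_forall fun t ht => V.zero t ht.1 ht.2
  have hmono : ∀ x y : ℝ, x ≤ y → y ∈ Z → x ∈ Z := by
    intro x y hxy hy
    have hy' : ∀ᵐ t : ℝ, t ∈ Ioo 0 y → v t = 0 := hy
    show ∀ᵐ t : ℝ, t ∈ Ioo 0 x → v t = 0
    filter_upwards [hy'] with t ht h
    exact ht ⟨h.1, h.2.trans_le hxy⟩
  have hbdd : ∀ y ∈ Z, y < b := by
    intro y hy
    by_contra hc
    push Not at hc
    exact hne (hmono b y hc hy)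
  have hbdd' : BddAbove Z := ⟨b, fun y hy => (hbdd y hy).le⟩
  set A := sSup Z with hA
  have hAa : a ≤ A := le_csSup hbdd' haZ
  have hAb : A ≤ b := csSup_le ⟨a, haZ⟩ fun y hy => (hbdd y hy).le
  have hA0 : 0 < A := ha.trans_le hAa
  have hAZ : A ∈ Z := by
    have h2 : ∀ n : ℕ, ∀ᵐ t : ℝ, t ∈ Ioo 0 (A - 1 / ((n : ℝ) + 1)) → v t = 0 := by
      intro n
      have h3 : A - 1 / ((n : ℝ) + 1) < A := by
        have : (0 : ℝ) < 1 / ((n : ℝ) + 1) := by positivity
        linarith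
      obtain ⟨y, hy, hy2⟩ := exists_lt_of_lt_csSup ⟨a, haZ⟩ h3
      exact hmono _ y hy2.le hy
    show ∀ᵐ t : ℝ, t ∈ Ioo 0 A → v t = 0
    filter_upwards [ae_all_iff.2 h2] with t ht h
    obtain ⟨n, hn⟩ := exists_nat_one_div_lt (show 0 < A - t by linarith [h.2])
    exact ht n ⟨h.1, by linarith⟩
  set v' : ℝ → ℂ := (Ici A).indicator v with hv'
  have V' : Vw v' B A := by
    refine ⟨V.meas.indicator measurableSet_Ici, fun t => ?_, hA0, fun t _ h => ?_⟩
    · by_cases h : t ∈ Ici A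
      · rw [hv', indicator_of_mem h]; exact V.bdd t
      · rw [hv', indicator_of_notMem h, norm_zero]; exact (norm_nonneg _).trans (V.bdd 0)
    · rw [hv', indicator_of_notMem (by simpa using h)]
  have hvv : ∀ᵐ t ∂(volume.restrict (Ioi (0 : ℝ))), v t = v' t := by
    rw [ae_restrict_iff' measurableSet_Ioi]
    have hAZ' : ∀ᵐ t : ℝ, t ∈ Ioo 0 A → v t = 0 := hAZ
    filter_upwards [hAZ'] with t ht ht0
    by_cases h : t < A
    · rw [ht ⟨ht0, h⟩, hv', indicator_of_notMem (by simpa using h)]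
    · rw [hv', indicator_of_mem (by simpa using h)]
  have hκA : κ * A < ρ.re := lt_of_le_of_lt (mul_le_mul_of_nonneg_left hAb hκ) hρκ
  obtain ⟨δ, hδ, hfin⟩ := D.no_zero hΦ h1 hG hH V' hκ hL
    (fun z hz => (hLX z hz).trans (mel_congr hvv z)) hρ hκA
  have hmem : A + δ ∈ Z := by
    have hAZ' : ∀ᵐ t : ℝ, t ∈ Ioo 0 A → v t = 0 := hAZ
    show ∀ᵐ t : ℝ, t ∈ Ioo 0 (A + δ) → v t = 0
    have hAne : ∀ᵐ t : ℝ, t ≠ A := by
      rw [ae_iff]
      simp
    filter_upwards [hAZ', hfin, hAne] with t ht1 ht2 ht3 h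
    rcases lt_trichotomy t A with h2 | h2 | h2
    · exact ht1 ⟨h.1, h2⟩
    · exact absurd h2 ht3
    · have h3 := ht2 ⟨h2, h.2⟩
      rwa [hv', indicator_of_mem (show t ∈ Ici A from h2.le)] at h3
  have := le_csSup hbdd' hmem
  linarith

/-- null sets under inversion -/
theorem ae_inv {P : ℝ → Prop} {b : ℝ} (hb : 0 < b) (h : ∀ᵐ t : ℝ, t ∈ Ioo 0 b → P t⁻¹) :
    ∀ᵐ x : ℝ, 1 / b < x → 0 < x → P x := by
    rw [ae_iff] at h ⊢
    set N : Set ℝ := {t | ¬ (t ∈ Ioo 0 b → P t⁻¹)} with hN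
    have h2 : {x : ℝ | ¬ (1 / b < x → 0 < x → P x)} ⊆ (fun t : ℝ => t⁻¹) '' N := by
      intro x hx
      simp only [mem_ofPred_eq, not_forall] at hx
      obtain ⟨hx1, hx2, hx3⟩ := hx
      refine ⟨x⁻¹, ?_, inv_inv x⟩
      rw [hN]
      simp only [mem_ofPred_eq, not_forall]
      refine ⟨⟨inv_pos.2 hx2, ?_⟩, by rwa [inv_inv]⟩
      rw [one_div] at hx1
      exact (inv_lt_comm₀ hx2 hb).2 hx1
    have h3 : DifferentiableOn ℝ (fun t : ℝ => t⁻¹) N := by
      intro t ht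
      rw [hN] at ht
      simp only [mem_ofPred_eq, not_forall] at ht
      obtain ⟨ht1, _⟩ := ht
      exact (differentiableAt_inv ht1.1.ne').differentiableWithinAt
    exact measure_mono_null h2
      (addHaar_image_eq_zero_of_differentiableOn_of_addHaar_eq_zero volume h3 h)

end Pool.Agent.W189.FC
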