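import Pool.Agent.W189.FC.Abel
import Pool.Agent.W189.FC.Curve
import Pool.Agent.W263.BSD.Main
import Pool.Agent.W524.RY.Sec

/-! The theorem of Goldfeld for every finite cut-off. -/

set_option autoImplicit false

namespace Pool.Agent.W189.FC

open MeasureTheory Filter Topology Set Classical
open Pool.Agent.W263.BSD Pool.Agent.W189.ML

/-- one-sided comparison with the logarithm -/
theorem lap_le_of_le_ell {S : ℝ → ℝ} {x κ K : ℝ} (hx : 0 < x) (hx1 : x ≤ 1) (hS : LInt S x)
    (h : ∀ T, 0 < T → S T ≤ κ * ell T + K) :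
    x * Pool.Agent.W263.BSD.lap S x ≤ κ * -Real.log x + (|κ| * (Real.exp 1 + ck 0) + K) := by
  have h1 : LInt (fun T => κ * pl 0 T + K * pk 0 T) x :=
    ((pl_LInt 0 hx).const_mul _).add ((pk_LInt 0 hx).const_mul _)
  have hpk : ∀ T, pk 0 T = 1 := by intro T; unfold pk; simp
  have hpl : ∀ T, pl 0 T = ell T := by intro T; unfold pl; rw [hpk, one_mul]
  have h2 : Pool.Agent.W263.BSD.lap S x ≤
      Pool.Agent.W263.BSD.lap (fun T => κ * pl 0 T + K * pk 0 T) x :=
    lap_mono hS h1 (fun T hT => by rw [hpk, hpl, mul_one]; exact h T hT)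
  rw [lap_add ((pl_LInt 0 hx).const_mul _) ((pk_LInt 0 hx).const_mul _), lap_const_mul,
    lap_const_mul, pk_lap 0 hx] at h2
  have h3 := pl_lap_le 0 hx hx1
  have h4 := le_pl_lap 0 hx
  rw [zero_add, pow_one] at h2 h3 h4
  simp only [Nat.cast_zero, add_zero] at h3
  have h5 := mul_le_mul_of_nonneg_left h2 hx.le
  have h6 : x * (κ * Pool.Agent.W263.BSD.lap (pl 0) x + K * (1 / x)) =
      κ * (x * Pool.Agent.W263.BSD.lap (pl 0) x) + K := by field_simp
  rw [h6] at h5
  have hck : 0 ≤ ck 0 := by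
    unfold ck
    have := Real.Gamma_pos_of_pos (show (0 : ℝ) < (0 : ℕ) + 1 / 2 by norm_num)
    positivity
  have h7 : |x * Pool.Agent.W263.BSD.lap (pl 0) x - -Real.log x| ≤ Real.exp 1 + ck 0 := by
    rw [abs_le]
    have := Real.exp_pos 1
    constructor <;> linarith
  have h8 : κ * (x * Pool.Agent.W263.BSD.lap (pl 0) x - -Real.log x) ≤
      |κ| * (Real.exp 1 + ck 0) := by
    refine (le_abs_self _).trans ?_
    rw [abs_mul]
    exact mul_le_mul_of_nonneg_left h7 (abs_nonneg _)
  linarith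

/-- comparison of the coefficients of `- log x` -/
theorem coef_le {r κ K : ℝ} (h : ∀ᶠ x : ℝ in 𝓝[>] 0, r * -Real.log x ≤ κ * -Real.log x + K) :
    r ≤ κ := by
  by_contra hc
  push Not at hc
  have h1 : Tendsto (fun x : ℝ => (r - κ) * -Real.log x) (𝓝[>] 0) atTop := by
    refine Tendsto.const_mul_atTop (by linarith) ?_
    exact tendsto_neg_atBot_atTop.comp Real.tendsto_log_nhdsGT_zero
  have h2 := h.and (h1.eventually (eventually_gt_atTop K))
  obtain ⟨x, h3, h4⟩ := h2.exists
  nlinarith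

/-- the condition at `0` in the variable `1/x` -/
theorem inv_cond {w : ℝ → ℝ} (hw : Measurable w) {B A : ℝ} (hA : 0 < A) (hb : ∀ x, |w x| ≤ B)
    (h1 : IntegrableOn (fun x : ℝ => (w x - 1) / x) (Ioc 0 1)) :
    IntegrableOn (fun t : ℝ => ((w t⁻¹ : ℂ) - 1) / t) (Ici A⁻¹) := by
  have hB : 0 ≤ B := (abs_nonneg _).trans (hb 0)
  have h2 : IntegrableOn (fun x : ℝ => (w x - 1) / x) (Ioc 0 A) := by
    have h3 : IntegrableOn (fun x : ℝ => (w x - 1) / x) (Ioc 1 A) := by
      refine Integrable.mono' (g := fun _ => B + 1) (integrable_const _)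
        (((hw.sub_const 1).div measurable_id).aestronglyMeasurable) ?_
      filter_upwards [ae_restrict_mem measurableSet_Ioc] with x hx
      have hx1 : 1 < x := hx.1
      rw [Real.norm_eq_abs, abs_div, abs_of_pos (by linarith : 0 < x), div_le_iff₀ (by linarith)]
      have := hb x
      have h4 : |w x - 1| ≤ |w x| + |1| := abs_sub _ _
      rw [abs_one] at h4
      nlinarith
    refine (h1.union h3).mono_set ?_
    intro x hx
    rcases le_or_gt x 1 with h | h
    · exact Or.inl ⟨hx.1, h⟩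
    · exact Or.inr ⟨h, hx.2⟩
  have him : (fun t : ℝ => t⁻¹) '' (Ici A⁻¹) = Ioc 0 A := by
    ext x
    constructor
    · rintro ⟨t, ht, rfl⟩
      have ht' : A⁻¹ ≤ t := ht
      have hA' : 0 < A⁻¹ := inv_pos.2 hA
      refine ⟨inv_pos.2 (hA'.trans_le ht'), ?_⟩
      show t⁻¹ ≤ A
      rw [inv_le_comm₀ (hA'.trans_le ht') hA]
      exact ht'
    · intro hx
      refine ⟨x⁻¹, ?_, inv_inv x⟩
      show A⁻¹ ≤ x⁻¹
      exact inv_anti₀ hx.1 hx.2
  rw [← him, integrableOn_image_iff_integrableOn_abs_deriv_smul measurableSet_Ici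
    (f' := fun t => -(t ^ 2)⁻¹) (fun t ht => (hasDerivAt_inv
      (ne_of_gt (lt_of_lt_of_le (inv_pos.2 hA) ht))).hasDerivWithinAt)
    (fun x _ y _ h => inv_injective h)] at h2
  have h5 : IntegrableOn (fun t : ℝ => ((|-(t ^ 2)⁻¹| • ((w t⁻¹ - 1) / t⁻¹) : ℝ) : ℂ))
    (Ici A⁻¹) := h2.ofReal (𝕜 := ℂ)
  refine IntegrableOn.congr_fun h5 (fun t ht => ?_) measurableSet_Ici
  have ht0 : 0 < t := lt_of_lt_of_le (inv_pos.2 hA) ht
  simp only [smul_eq_mul, abs_neg]
  rw [abs_of_pos (by positivity)]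
  push_cast
  have : (t : ℂ) ≠ 0 := by exact_mod_cast ht0.ne'
  field_simp

variable {a b : ℤ} {F : ℂ → ℂ}

/-- the constant for `G` -/
theorem GG_real_bound (a b : ℤ) : ∃ C : ℝ, ∀ u : ℝ, 0 < u → u ≤ 1 →
    ‖GG (SS a b) (Ap a b) u‖ ≤ C ∧ ‖deriv (GG (SS a b) (Ap a b)) u‖ ≤ C / u := by
  have D := sdata (eData a b)
  obtain ⟨C, hC⟩ := D.Gb
  refine ⟨2 * |C|, fun u hu hu1 => ⟨?_, ?_⟩⟩
  · have h1 := hC u (by simpa using hu) (by
      rw [Complex.norm_real, Real.norm_eq_abs, abs_of_pos hu, Complex.ofReal_re]; linarith)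
    have h2 := le_abs_self C
    have h3 := abs_nonneg C
    linarith
  · have h1 : ∀ z ∈ Metric.closedBall (u : ℂ) (u / 2), u / 2 ≤ z.re ∧ ‖z‖ ≤ 5 * z.re := by
      intro z hz
      rw [Metric.mem_closedBall, Complex.dist_eq] at hz
      have h2 := (Complex.abs_re_le_norm (z - u)).trans hz
      rw [Complex.sub_re, Complex.ofReal_re, abs_le] at h2
      have h3 : u / 2 ≤ z.re := by linarith [h2.1]
      have h4 : ‖z‖ ≤ ‖z - u‖ + ‖(u : ℂ)‖ := by
        have := norm_add_le (z - u) (u : ℂ)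
        rwa [sub_add_cancel] at this
      rw [Complex.norm_real, Real.norm_eq_abs, abs_of_pos hu] at h4
      exact ⟨h3, by linarith⟩
    have h2 := Complex.norm_deriv_le_of_forall_mem_sphere_norm_le (c := (u : ℂ)) (R := u / 2)
      (C := |C|) (f := GG (SS a b) (Ap a b)) (by positivity) ?_ ?_
    · refine h2.trans (le_of_eq ?_)
      field_simp
    · refine DifferentiableOn.diffContOnCl ?_
      rw [closure_ball _ (by positivity : u / 2 ≠ 0)]
      intro z hz
      exact (D.Gd z (by linarith [(h1 z hz).1])).differentiableWithinAt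
    · intro z hz
      have h3 := h1 z (Metric.sphere_subset_closedBall hz)
      exact (hC z (by linarith [h3.1]) h3.2).trans (le_abs_self C)

/-- the transform near `0` for a curve whose L-series has no zeros to the right of `1` -/
theorem curve_near (hF : IsLSeries a b F) (hRH : ∀ s : ℂ, 1 < s.re → F s ≠ 0) {m : ℕ}
    (hm : analyticOrderAt F 1 = m) {v : ℝ → ℂ} {B α : ℝ} (V : Vw v B α)
    (hv : IntegrableOn (fun t : ℝ => (v t - 1) / t) (Ici α)) :
    ∃ K : ℝ, ∀ x : ℝ, 0 < x → x * α < 1 →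
      ‖(x : ℂ) * mel (fun s => logDeriv (PhiF a b F) s - deriv (GG (SS a b) (Ap a b)) s) v x -
        ((m * -Real.log x : ℝ) : ℂ)‖ ≤ K := by
  have D := cdata_curve hF
  have E := sdata (eData a b)
  have hΦd := PhiF_differentiable (a := a) (b := b) hF
  have hΦ0 : ∀ w : ℂ, 0 < w.re → PhiF a b F w ≠ 0 := by
    intro w hw
    unfold PhiF
    exact mul_ne_zero (hRH _ (by rw [Complex.add_re, Complex.one_re]; linarith))
      (Pool.Agent.W524.RY.small_ne_zero hw.le)
  obtain ⟨Q, hQa, hQf, x₁, hx1, hx2, hx3, hx4⟩ := exists_Q hF (x₀ := 0) le_rfl zero_le_one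
    (m := m) (by simpa using hm) (fun σ hσ => hRH _ (by simpa using hσ))
  have hx10 : x₁ = 0 := le_antisymm hx2 hx1
  have hQ0 : ∀ u ∈ Icc (0 : ℝ) 1, Q u ≠ 0 := by
    intro u hu h
    have h1 := (hx4 u ⟨by rw [hx10]; exact hu.1, by linarith [hu.2]⟩).2
    rw [h] at h1
    simp at h1
  have hQd : Differentiable ℂ Q := fun w => (hQa w).differentiableAt
  have hlog : ∀ (P : ℂ → ℂ), Differentiable ℂ P → ∀ w, P w ≠ 0 →
      DifferentiableAt ℂ (logDeriv P) w := by
    intro P hP w hw
    have h2 : DifferentiableAt ℂ (deriv P) w := by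
      have h3 : DifferentiableOn ℂ P univ := hP.differentiableOn
      exact (h3.deriv isOpen_univ).differentiableAt (isOpen_univ.mem_nhds (mem_univ _))
    exact h2.div (hP w) hw
  obtain ⟨CG, hCG⟩ := GG_real_bound a b
  have hLc : ContinuousOn (fun u : ℝ => logDeriv Q u) (Icc 0 1) := by
    intro u hu
    exact ((hlog Q hQd u (hQ0 u hu)).continuousAt.comp
      Complex.continuous_ofReal.continuousAt).continuousWithinAt
  obtain ⟨M, hM⟩ := isCompact_Icc.exists_bound_of_continuousOn hLc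
  have ho : IsOpen {w : ℂ | 0 < w.re} := isOpen_lt continuous_const Complex.continuous_re
  have hHd : ∀ w : ℂ, 0 < w.re → DifferentiableAt ℂ
      (fun s => logDeriv (PhiF a b F) s - deriv (GG (SS a b) (Ap a b)) s) w := by
    intro w hw
    refine (hlog _ hΦd w (hΦ0 w hw)).sub ?_
    exact (DifferentiableOn.deriv (fun w hw => (E.Gd w hw).differentiableWithinAt)
      ho).differentiableAt (ho.mem_nhds hw)
  refine mel_near (H₂ := logDeriv Q) V hv (r := m) (CG := CG) (M := M) E.Gd hCG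
    (fun u h0 h1 => hM u ⟨h0.le, h1⟩) hHd ?_ ?_
  · -- integrability on `(1, ∞)`
    have hc : ContinuousOn (fun u : ℝ => (fun s => logDeriv (PhiF a b F) s -
        deriv (GG (SS a b) (Ap a b)) s) (u : ℂ)) (Icc 1 3) := by
      intro u hu
      exact ((hHd u (by rw [Complex.ofReal_re]; linarith [hu.1])).continuousAt.comp
        Complex.continuous_ofReal.continuousAt).continuousWithinAt
    have h1 := hc.integrableOn_Icc (μ := volume)
    obtain ⟨C, hC0, hC⟩ := D.H_bound
    have h2 : IntegrableOn (fun u : ℝ => (fun s => logDeriv (PhiF a b F) s -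
        deriv (GG (SS a b) (Ap a b)) s) (u : ℂ)) (Ioi 3) := by
      have h3 : IntegrableOn (fun u : ℝ => (C * Real.exp 3) * Real.exp (-1 * u)) (Ioi 3) :=
        (integrableOn_exp_mul_Ioi (by norm_num) 3).const_mul _
      refine Integrable.mono' h3 ?_ ?_
      · refine ContinuousOn.aestronglyMeasurable ?_ measurableSet_Ioi
        intro u hu
        have hu' : (3 : ℝ) < u := hu
        exact ((hHd u (by rw [Complex.ofReal_re]; linarith)).continuousAt.comp
          Complex.continuous_ofReal.continuousAt).continuousWithinAt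
      · filter_upwards [ae_restrict_mem measurableSet_Ioi] with u hu
        have hu' : (3 : ℝ) < u := hu
        refine (hC u (by rw [Complex.ofReal_re]; exact hu'.le)).trans (le_of_eq ?_)
        rw [Complex.ofReal_re, sub_eq_add_neg, Real.exp_add]
        rw [show -1 * u = -u by ring]
        ring
    refine (h1.union h2).mono_set fun u hu => ?_
    rcases le_or_gt u 3 with h | h
    · exact Or.inl ⟨le_of_lt hu, h⟩
    · exact Or.inr h
  · intro u hu hu1
    have hu' : (u : ℂ) ≠ 0 := by exact_mod_cast hu.ne'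
    have hev : PhiF a b F =ᶠ[𝓝 (u : ℂ)] fun w => w ^ m * Q w := by
      filter_upwards [isOpen_ne.mem_nhds hu'] with w hw
      have := hQf w (by simpa using hw)
      rw [this]
      simp
    have hQu := hQ0 u ⟨hu.le, hu1⟩
    have h3 : logDeriv (PhiF a b F) u = m / u + logDeriv Q u := by
      rw [logDeriv_apply, hev.deriv_eq, hev.self_of_nhds, ← logDeriv_apply (fun w => w ^ m * Q w),
        logDeriv_mul (f := fun w : ℂ => w ^ m) (g := Q) _ (pow_ne_zero m hu') hQu (by fun_prop)
        (hQd _)]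
      congr 1
      rw [logDeriv_apply]
      have h4 : HasDerivAt (fun w : ℂ => w ^ m) ((m : ℂ) * (u : ℂ) ^ (m - 1)) u :=
        hasDerivAt_pow m _
      rw [h4.deriv]
      rcases Nat.eq_zero_or_pos m with h | h
      · rw [h]; simp
      · obtain ⟨j, rfl⟩ : ∃ j, m = j + 1 := ⟨m - 1, by omega⟩
        rw [Nat.add_sub_cancel, pow_succ]
        field_simp
    rw [h3]
    push_cast
    ring

/-- the sums over the primes `≥ 25` as a function of `T = log X` -/
noncomputable def scut (a b : ℤ) (w : ℝ → ℝ) (T : ℝ) : ℝ :=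
  if 0 < T then wsum (fun p : SS a b => Real.log (p : ℕ)) (fun p : SS a b => cc (Ap a b) (p : ℕ)) w T
  else 0

theorem scut_meas {w : ℝ → ℝ} (hw : Measurable w) {B A : ℝ} (hb : ∀ x, |w x| ≤ B)
    (h0 : ∀ x, A < x → w x = 0) : Measurable (scut a b w) := by
  refine measurable_of_tendsto_metrizable' (atTop : Filter (Finset (SS a b)))
    (f := fun (s : Finset (SS a b)) (T : ℝ) => if 0 < T then ∑ p ∈ s, cc (Ap a b) (p : ℕ) *
      w (Real.log (p : ℕ) / T) else 0) (fun s => ?_) ?_
  · refine Measurable.ite measurableSet_Ioi ?_ measurable_const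
    refine Finset.measurable_fun_sum _ fun p _ => ?_
    exact (hw.comp (measurable_const.div measurable_id)).const_mul _
  · rw [tendsto_pi_nhds]
    intro T
    by_cases hT : 0 < T
    · unfold scut
      simp only [if_pos hT]
      have hs := (wsum_summable (a := a) (b := b) hb h0 hT).1
      have h1 := hs.comp_injective (Subtype.val_injective (p := fun p => p ∈ SS a b))
      have h2 : (fun p : SS a b => cc (Ap a b) (p : ℕ) * w (Real.log (p : ℕ) / T)) =
          (fun p : ℕ => cf a b p * w (Real.log p / T)) ∘ Subtype.val := by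
        funext p
        simp only [Function.comp_apply]
        unfold cf
        rw [if_pos p.2]
      unfold wsum
      rw [h2]
      exact h1.hasSum
    · unfold scut
      simp only [if_neg hT]
      exact tendsto_const_nhds

/-- the complex transform of `scut` -/
theorem scut_lapC (w : ℝ → ℝ) (z : ℂ) : lapC (scut a b w) z =
    Pool.Agent.W189.FC.lap (fun T => (wsum (fun p : SS a b => Real.log (p : ℕ))
      (fun p : SS a b => cc (Ap a b) (p : ℕ)) w T : ℂ)) z := by
  unfold lapC Pool.Agent.W189.FC.lap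
  refine setIntegral_congr_fun measurableSet_Ioi fun T hT => ?_
  have hT' : (0 : ℝ) < T := hT
  unfold scut
  simp only
  rw [if_pos hT']

/-- the weight is not almost everywhere zero -/
theorem not_ae_zero {w : ℝ → ℝ} (h1 : IntegrableOn (fun x : ℝ => (w x - 1) / x) (Ioc 0 1)) :
    ∃ α : ℝ, 0 < α ∧ ¬ ∀ᵐ x : ℝ, α < x → w x = 0 := by
  by_contra hc
  push Not at hc
  have h2 : ∀ n : ℕ, ∀ᵐ x : ℝ, 1 / ((n : ℝ) + 1) < x → w x = 0 := fun n => hc _ (by positivity)
  have h3 : ∀ᵐ x : ℝ, 0 < x → w x = 0 := by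
    filter_upwards [ae_all_iff.2 h2] with x hx h
    obtain ⟨n, hn⟩ := exists_nat_one_div_lt h
    exact hx n hn
  have h4 : IntegrableOn (fun x : ℝ => x⁻¹) (Ioc 0 1) := by
    refine Integrable.congr h1.neg ?_
    filter_upwards [ae_restrict_of_ae h3, ae_restrict_mem measurableSet_Ioc] with x hx hx1
    rw [Pi.neg_apply, hx hx1.1]
    ring
  have h5 := (intervalIntegrable_iff_integrableOn_Ioc_of_le zero_le_one).2 h4
  rw [intervalIntegrable_inv_iff] at h5
  simp at h5

/-- the transform of the sums near `0` -/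
theorem scut_near (hF : IsLSeries a b F) (hRH : ∀ s : ℂ, 1 < s.re → F s ≠ 0) {m : ℕ}
    (hm : analyticOrderAt F 1 = m) {w : ℝ → ℝ} (hw : Measurable w) {B A : ℝ} (hA : 0 < A)
    (hb : ∀ x, |w x| ≤ B) (h0 : ∀ x, A < x → w x = 0)
    (h1 : IntegrableOn (fun x : ℝ => (w x - 1) / x) (Ioc 0 1))
    (hconv : ∀ x : ℝ, 0 < x → LInt (scut a b w) x) :
    ∃ K : ℝ, ∀ x : ℝ, 0 < x → x < A →
      |x * Pool.Agent.W263.BSD.lap (scut a b w) x - m * -Real.log x| ≤ K := by
  have V : Vw (fun t => (w t⁻¹ : ℂ)) B A⁻¹ := by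
    refine ⟨?_, fun t => ?_, inv_pos.2 hA, fun t ht hta => ?_⟩
    · exact Complex.measurable_ofReal.comp (hw.comp measurable_inv)
    · rw [Complex.norm_real, Real.norm_eq_abs]; exact hb _
    · rw [h0 t⁻¹, Complex.ofReal_zero]
      rw [lt_inv_comm₀ hA ht]
      exact hta
  have D := cdata_curve hF
  have E := sdata (eData a b)
  have hΦ0 : ∀ w : ℂ, 0 < w.re → PhiF a b F w ≠ 0 := by
    intro w hw
    unfold PhiF
    exact mul_ne_zero (hRH _ (by rw [Complex.add_re, Complex.one_re]; linarith))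
      (Pool.Agent.W524.RY.small_ne_zero hw.le)
  have ho : IsOpen {w : ℂ | 0 < w.re} := isOpen_lt continuous_const Complex.continuous_re
  have hHd : ∀ w : ℂ, 0 < w.re → DifferentiableAt ℂ
      (fun s => logDeriv (PhiF a b F) s - deriv (GG (SS a b) (Ap a b)) s) w := by
    intro w hw
    refine DifferentiableAt.sub ?_ ?_
    · have hΦd := PhiF_differentiable (a := a) (b := b) hF
      have h2 : DifferentiableAt ℂ (deriv (PhiF a b F)) w := by
        have h3 : DifferentiableOn ℂ (PhiF a b F) univ := hΦd.differentiableOn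
        exact (h3.deriv isOpen_univ).differentiableAt (isOpen_univ.mem_nhds (mem_univ _))
      exact h2.div (hΦd w) (hΦ0 w hw)
    · exact (DifferentiableOn.deriv (fun w hw => (E.Gd w hw).differentiableWithinAt)
        ho).differentiableAt (ho.mem_nhds hw)
  obtain ⟨K, hK⟩ := curve_near hF hRH hm V (inv_cond hw hA hb h1)
  refine ⟨K, fun x hx hxA => ?_⟩
  have h2 := D.eq_mel V (s := 0) le_rfl (fun w hw => hHd w (by simpa using hw))
    (L := lapC (scut a b w)) (fun z hz => lapC_differentiableAt (scut_meas hw hb h0)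
      (w0 := 0) (fun x hx => hconv x hx) hz) (X := 3 * A)
    (fun z hz => by rw [scut_lapC]; exact D.lap_wsum hw hA hb h0 hz) (z := (x : ℂ))
    (by rw [Complex.ofReal_re]; exact hx)
  have h3 := hK x hx (by
    rw [← div_eq_mul_inv, div_lt_one hA]; exact hxA)
  rw [← h2, lapC_ofReal, ← Complex.ofReal_mul, ← Complex.ofReal_sub, Complex.norm_real,
    Real.norm_eq_abs] at h3
  exact h3

/-- an upper bound of the sums is an upper bound of the order -/
theorem order_le (hF : IsLSeries a b F) (hRH : ∀ s : ℂ, 1 < s.re → F s ≠ 0) {m : ℕ}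
    (hm : analyticOrderAt F 1 = m) {w : ℝ → ℝ} (hw : Measurable w) {B A : ℝ} (hA : 0 < A)
    (hb : ∀ x, |w x| ≤ B) (h0 : ∀ x, A < x → w x = 0)
    (h1 : IntegrableOn (fun x : ℝ => (w x - 1) / x) (Ioc 0 1))
    (hconv : ∀ x : ℝ, 0 < x → LInt (scut a b w) x) {κ K : ℝ}
    (hle : ∀ T, 0 < T → scut a b w T ≤ κ * ell T + K) : (m : ℝ) ≤ κ := by
  obtain ⟨K₁, hK₁⟩ := scut_near hF hRH hm hw hA hb h0 h1 hconv
  refine coef_le (K := (|κ| * (Real.exp 1 + ck 0) + K) + K₁) ?_
  filter_upwards [Ioo_mem_nhdsGT (show (0 : ℝ) < min 1 A from lt_min one_pos hA)] with x hx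
  have h2 := hK₁ x hx.1 (hx.2.trans_le (min_le_right _ _))
  have h3 := lap_le_of_le_ell hx.1 (hx.2.le.trans (min_le_left _ _)) (hconv x hx.1) hle
  have h4 := (abs_le.1 h2).1
  linarith

/-- a lower bound of the sums is a lower bound of the order -/
theorem le_order (hF : IsLSeries a b F) (hRH : ∀ s : ℂ, 1 < s.re → F s ≠ 0) {m : ℕ}
    (hm : analyticOrderAt F 1 = m) {w : ℝ → ℝ} (hw : Measurable w) {B A : ℝ} (hA : 0 < A)
    (hb : ∀ x, |w x| ≤ B) (h0 : ∀ x, A < x → w x = 0)
    (h1 : IntegrableOn (fun x : ℝ => (w x - 1) / x) (Ioc 0 1))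
    (hconv : ∀ x : ℝ, 0 < x → LInt (scut a b w) x) {κ K : ℝ}
    (hle : ∀ T, 0 < T → κ * ell T - K ≤ scut a b w T) : κ ≤ (m : ℝ) := by
  obtain ⟨K₁, hK₁⟩ := scut_near hF hRH hm hw hA hb h0 h1 hconv
  have h5 : -(m : ℝ) ≤ -κ := by
    refine coef_le (K := (|-κ| * (Real.exp 1 + ck 0) + K) + K₁) ?_
    filter_upwards [Ioo_mem_nhdsGT (show (0 : ℝ) < min 1 A from lt_min one_pos hA)] with x hx
    have h2 := hK₁ x hx.1 (hx.2.trans_le (min_le_right _ _))
    have h3 := lap_le_of_le_ell (S := fun T => -scut a b w T) (κ := -κ) (K := K) hx.1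
      (hx.2.le.trans (min_le_left _ _)) (hconv x hx.1).neg (fun T hT => by
        have := hle T hT
        linarith)
    have h6 : Pool.Agent.W263.BSD.lap (fun T => -scut a b w T) x =
        -Pool.Agent.W263.BSD.lap (scut a b w) x := by
      unfold Pool.Agent.W263.BSD.lap
      rw [← integral_neg]
      congr 1
      funext T
      ring
    rw [h6] at h3
    have h4 := (abs_le.1 h2).2
    linarith
  linarith

end Pool.Agent.W189.FC
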