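import Pool.Agent.W189.FC.Two
import Pool.Agent.W189.FC.Gold
import Pool.Agent.W189.ML.Star

/-! Finite cut-offs for general systems. -/

set_option autoImplicit false

namespace Pool.Agent.W189.FC

open MeasureTheory Filter Topology Set Classical
open Pool.Agent.W263.BSD (LInt lapC lapC_ofReal lapC_differentiableAt ex ex_LInt pk pl pk_LInt pl_LInt
  ell ell_nonneg ell_mono ell_le log_le_ell)
open Pool.Agent.W189.ML (SData ser)

variable {ι : Type} {lam c : ι → ℝ} {Φ G : ℂ → ℂ} {s : Finset ι}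

/-- a general Dirichlet series with its exponential continuation; `s` contains the small frequencies -/
structure GD (lam c : ι → ℝ) (Φ G : ℂ → ℂ) (s : Finset ι) : Prop where
  sd : SData lam c G
  big : ∀ i, i ∉ s → 1 ≤ lam i
  cnt : Countable ι
  hΦ : Differentiable ℂ Φ
  h1 : ∀ w : ℂ, 1 < w.re → Φ w ≠ 0
  hexp : ∀ w : ℂ, 2 < w.re → Complex.exp (G w - ser lam c w) = Φ w

/-- the large frequencies -/
def lamB (lam : ι → ℝ) (s : Finset ι) (i : {i // i ∉ s}) : ℝ := lam i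
/-- the coefficients of the large frequencies -/
def cB (c : ι → ℝ) (s : Finset ι) (i : {i // i ∉ s}) : ℝ := c i
/-- the part of the small frequencies -/
noncomputable def sml (lam c : ι → ℝ) (s : Finset ι) (w : ℂ) : ℂ :=
  ∑ i ∈ s, (c i : ℂ) * Complex.exp (-(w * lam i))
/-- the new correction -/
noncomputable def GB (lam c : ι → ℝ) (G : ℂ → ℂ) (s : Finset ι) (w : ℂ) : ℂ := G w - sml lam c s w
/-- minus the derivative of the series -/
noncomputable def HB (lam c : ι → ℝ) (Φ G : ℂ → ℂ) (s : Finset ι) (w : ℂ) : ℂ :=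
  logDeriv Φ w - deriv (GB lam c G s) w

theorem sml_diff : Differentiable ℂ (sml lam c s) := by
  unfold sml
  refine Differentiable.fun_sum fun i _ => ?_
  fun_prop

theorem GD.summ (D : GD lam c Φ G s) : Summable fun i => |c i| * Real.exp (-(2 * lam i)) := D.sd.sum

theorem GD.GB_diff (D : GD lam c Φ G s) {w : ℂ} (hw : 0 < w.re) :
    DifferentiableAt ℂ (GB lam c G s) w := (D.sd.Gd w hw).sub sml_diff.differentiableAt

theorem GD.cdata (D : GD lam c Φ G s) : CData (lamB lam s) (cB c s) (HB lam c Φ G s) := by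
  refine cdata_of_exp (fun (i : {i // i ∉ s}) => D.big i.1 i.2) ?_ (fun w hw => D.GB_diff hw) ?_
  · exact D.summ.comp_injective (Subtype.val_injective (p := fun i => i ∉ s))
  · intro w hw
    rw [← D.hexp w hw]
    congr 1
    have hs : Summable fun i => (c i : ℂ) * Complex.exp (-(w * lam i)) := by
      refine Summable.of_norm_bounded D.summ fun i => ?_
      rw [norm_mul, Complex.norm_real, Real.norm_eq_abs, norm_exp_neg]
      refine mul_le_mul_of_nonneg_left (Real.exp_le_exp.2 ?_) (abs_nonneg _)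
      have := D.sd.lam_pos i
      nlinarith
    unfold GB sml ser
    rw [← hs.sum_add_tsum_subtype_compl s]
    simp only [lamB, cB]
    ring

theorem GD.wfull (D : GD lam c Φ G s) {w : ℝ → ℝ} {B A : ℝ} (hb : ∀ x, |w x| ≤ B)
    (h0 : ∀ x, A < x → w x = 0) {T : ℝ} (hT : 0 < T) :
    (Summable fun i => |c i * w (lam i / T)|) ∧
      ∑' i, |c i * w (lam i / T)| ≤
      (B * ∑' i, |c i| * Real.exp (-(2 * lam i))) * Real.exp (2 * A * T) := by
  have hB : 0 ≤ B := (abs_nonneg _).trans (hb 0)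
  have hs := D.summ
  have hle : ∀ i, |c i * w (lam i / T)| ≤
      (B * Real.exp (2 * A * T)) * (|c i| * Real.exp (-(2 * lam i))) := by
    intro i
    by_cases h : A < lam i / T
    · rw [h0 _ h, mul_zero, abs_zero]
      positivity
    · push Not at h
      rw [div_le_iff₀ hT] at h
      rw [abs_mul]
      have h2 : (1 : ℝ) ≤ Real.exp (2 * A * T) * Real.exp (-(2 * lam i)) := by
        rw [← Real.exp_add]
        apply Real.one_le_exp
        linarith
      calc |c i| * |w (lam i / T)| ≤ |c i| * B :=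
            mul_le_mul_of_nonneg_left (hb _) (abs_nonneg _)
        _ = (B * |c i|) * 1 := by ring
        _ ≤ (B * |c i|) * (Real.exp (2 * A * T) * Real.exp (-(2 * lam i))) :=
            mul_le_mul_of_nonneg_left h2 (by positivity)
        _ = _ := by ring
  have hsa : Summable fun i => |c i * w (lam i / T)| :=
    Summable.of_nonneg_of_le (fun p => abs_nonneg _) hle (hs.mul_left _)
  refine ⟨hsa, ?_⟩
  refine (hsa.tsum_le_tsum hle (hs.mul_left _)).trans (le_of_eq ?_)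
  rw [tsum_mul_left]
  ring

/-- the sums over the large frequencies -/
noncomputable def wB (lam c : ι → ℝ) (s : Finset ι) (w : ℝ → ℝ) (T : ℝ) : ℝ :=
  if 0 < T then wsum (lamB lam s) (cB c s) w T else 0

theorem GD.diff_le (D : GD lam c Φ G s) {w : ℝ → ℝ} {B A : ℝ} (hb : ∀ x, |w x| ≤ B)
    (h0 : ∀ x, A < x → w x = 0) {T : ℝ} (hT : 0 < T) :
    |wsum lam c w T - wB lam c s w T| ≤ ∑ i ∈ s, |c i| * B := by
  have hs := (D.wfull hb h0 hT).1.of_abs
  unfold wB
  rw [if_pos hT]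
  unfold wsum lamB cB
  rw [← hs.sum_add_tsum_subtype_compl s, add_sub_cancel_right]
  refine (Finset.abs_sum_le_sum_abs _ _).trans (Finset.sum_le_sum fun i _ => ?_)
  rw [abs_mul]
  exact mul_le_mul_of_nonneg_left (hb _) (abs_nonneg _)

theorem GD.wB_abs (D : GD lam c Φ G s) {w : ℝ → ℝ} {B A : ℝ} (hA : 0 < A) (hb : ∀ x, |w x| ≤ B)
    (h0 : ∀ x, A < x → w x = 0) {T T₁ : ℝ} (hT : 0 < T) (hT1 : T ≤ T₁) :
    |wB lam c s w T| ≤ (B * ∑' i, |c i| * Real.exp (-(2 * lam i))) * Real.exp (2 * A * T₁) := by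
  have hB : 0 ≤ B := (abs_nonneg _).trans (hb 0)
  obtain ⟨hs, hle⟩ := D.wfull hb h0 hT
  have h1 : |wB lam c s w T| ≤ ∑' i, |c i * w (lam i / T)| := by
    unfold wB
    rw [if_pos hT]
    unfold wsum lamB cB
    have h2 : Summable fun i : {i // i ∉ s} => |c i * w (lam i / T)| :=
      hs.comp_injective (Subtype.val_injective (p := fun i => i ∉ s))
    have h3 := norm_tsum_le_tsum_norm (f := fun i : {i // i ∉ s} => c i * w (lam i / T)) h2
    simp only [Real.norm_eq_abs] at h3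
    refine h3.trans ?_
    exact Summable.tsum_subtype_le (fun i => |c i * w (lam i / T)|) {i | i ∉ s}
      (fun i => abs_nonneg _) hs
  refine h1.trans (hle.trans ?_)
  have h4 : 0 ≤ B * ∑' i, |c i| * Real.exp (-(2 * lam i)) :=
    mul_nonneg hB (tsum_nonneg fun p => by positivity)
  refine mul_le_mul_of_nonneg_left (Real.exp_le_exp.2 ?_) h4
  exact mul_le_mul_of_nonneg_left hT1 (by positivity)

theorem GD.wB_meas (D : GD lam c Φ G s) {w : ℝ → ℝ} (hw : Measurable w) {B A : ℝ}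
    (hb : ∀ x, |w x| ≤ B) (h0 : ∀ x, A < x → w x = 0) : Measurable (wB lam c s w) := by
  have := D.cnt
  refine measurable_of_tendsto_metrizable' (atTop : Filter (Finset {i // i ∉ s}))
    (f := fun (q : Finset {i // i ∉ s}) (T : ℝ) => if 0 < T then ∑ i ∈ q, c i *
      w (lam i / T) else 0) (fun q => ?_) ?_
  · refine Measurable.ite measurableSet_Ioi ?_ measurable_const
    refine Finset.measurable_fun_sum _ fun p _ => ?_
    exact (hw.comp (measurable_const.div measurable_id)).const_mul _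
  · rw [tendsto_pi_nhds]
    intro T
    by_cases hT : 0 < T
    · unfold wB
      simp only [if_pos hT]
      have hs := (D.wfull hb h0 hT).1.of_abs
      exact (hs.comp_injective (Subtype.val_injective (p := fun i => i ∉ s))).hasSum
    · unfold wB
      simp only [if_neg hT]
      exact tendsto_const_nhds

theorem wB_lapC (w : ℝ → ℝ) (z : ℂ) : lapC (wB lam c s w) z =
    Pool.Agent.W189.FC.lap (fun T => (wsum (lamB lam s) (cB c s) w T : ℂ)) z := by
  unfold lapC Pool.Agent.W189.FC.lap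
  refine setIntegral_congr_fun measurableSet_Ioi fun T hT => ?_
  have hT' : (0 : ℝ) < T := hT
  unfold wB
  simp only
  rw [if_pos hT']

theorem GD.wB_mel (D : GD lam c Φ G s) {w : ℝ → ℝ} (hw : Measurable w) {B A : ℝ} (hA : 0 < A)
    (hb : ∀ x, |w x| ≤ B) (h0 : ∀ x, A < x → w x = 0) {z : ℂ} (hz : 3 * A ≤ z.re) :
    lapC (wB lam c s w) z = mel (HB lam c Φ G s) (fun t => (w t⁻¹ : ℂ)) z := by
  have := D.cnt
  rw [wB_lapC]
  exact D.cdata.lap_wsum hw hA hb h0 hz

theorem GD.wB_far (D : GD lam c Φ G s) {w : ℝ → ℝ} (hw : Measurable w) {B A : ℝ} (hA : 0 < A)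
    (hb : ∀ x, |w x| ≤ B) (h0 : ∀ x, A < x → w x = 0) : ∀ x > 3 * A, LInt (wB lam c s w) x := by
  intro x hx
  refine Pool.Agent.W263.BSD.LInt.of_bound (D.wB_meas hw hb h0)
    (((ex_LInt (show 2 * A < x by linarith)).const_mul
      (B * ∑' i, |c i| * Real.exp (-(2 * lam i))))) fun T hT => ?_
  exact D.wB_abs hA hb h0 hT le_rfl

theorem vw_of {w : ℝ → ℝ} (hw : Measurable w) {B A : ℝ} (hA : 0 < A)
    (hb : ∀ x, |w x| ≤ B) (h0 : ∀ x, A < x → w x = 0) : Vw (fun t => (w t⁻¹ : ℂ)) B A⁻¹ := by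
  refine ⟨?_, fun t => ?_, inv_pos.2 hA, fun t ht hta => ?_⟩
  · exact Complex.measurable_ofReal.comp (hw.comp measurable_inv)
  · rw [Complex.norm_real, Real.norm_eq_abs]; exact hb _
  · rw [h0 t⁻¹, Complex.ofReal_zero]
    rw [lt_inv_comm₀ hA ht]
    exact hta

theorem ne_inv {w : ℝ → ℝ} {α : ℝ} (hα : 0 < α) (hne : ¬ ∀ᵐ x : ℝ, α < x → w x = 0) :
    ¬ ∀ᵐ t : ℝ, t ∈ Ioo 0 (1 / α) → (w t⁻¹ : ℂ) = 0 := by
  intro h
  refine hne ?_
  have h2 := ae_inv (P := fun x => (w x : ℂ) = 0) (b := 1 / α) (by positivity) h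
  filter_upwards [h2] with x hx hx2
  have h3 := hx (by rwa [one_div_one_div]) (hα.trans hx2)
  exact_mod_cast h3

theorem A_pos {w : ℝ → ℝ} {A α : ℝ} (h0 : ∀ x, A < x → w x = 0) (hα : 0 < α)
    (hne : ¬ ∀ᵐ x : ℝ, α < x → w x = 0) : 0 < A := by
  by_contra hc2
  push Not at hc2
  refine hne (Eventually.of_forall fun x hx => h0 x ?_)
  linarith

/-- convergence gives zero-free half planes -/
theorem GD.free_of_conv (D : GD lam c Φ G s) {w : ℝ → ℝ} (hw : Measurable w) {B A : ℝ}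
    (hb : ∀ x, |w x| ≤ B) (h0 : ∀ x, A < x → w x = 0) {α : ℝ} (hα : 0 < α)
    (hne : ¬ ∀ᵐ x : ℝ, α < x → w x = 0) {κ : ℝ} (hκ : 0 ≤ κ)
    (hconv : ∀ x > κ, LInt (wB lam c s w) x) {ρ : ℂ} (hρ : κ / α < ρ.re) : Φ ρ ≠ 0 := by
  have := D.cnt
  have hA := A_pos h0 hα hne
  refine D.cdata.no_zero_ae D.hΦ D.h1 (fun w hw => D.GB_diff hw) (fun s _ => rfl)
    (vw_of hw hA hb h0) (L := lapC (wB lam c s w)) (κ := κ) hκ
    (fun z hz => lapC_differentiableAt (D.wB_meas hw hb h0) hconv hz) (X := 3 * A)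
    (fun z hz => D.wB_mel hw hA hb h0 hz) (b := 1 / α)
    (by positivity) (ne_inv hα hne) ?_
  have : κ * (1 / α) = κ / α := by ring
  rw [this]
  exact hρ

/-- transfer of bounds for large `T` to all `T` -/
theorem GD.up_of (D : GD lam c Φ G s) {w : ℝ → ℝ} {B A : ℝ} (hA : 0 < A)
    (hb : ∀ x, |w x| ≤ B) (h0 : ∀ x, A < x → w x = 0) {κ : ℝ} (hκ : 0 ≤ κ) {ε : ℝ}
    (hε : ε = 1 ∨ ε = -1)
    (hS : ∃ C T₀ : ℝ, ∀ T ≥ T₀, ε * wsum lam c w T ≤ C * Real.exp (κ * T)) :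
    ∃ C : ℝ, ∀ T, 0 < T → ε * wB lam c s w T ≤ C * Real.exp (κ * T) := by
  have hB : 0 ≤ B := (abs_nonneg _).trans (hb 0)
  have hεa : |ε| = 1 := by rcases hε with h | h <;> rw [h] <;> simp
  obtain ⟨C, T₁, hX⟩ := hS
  set K : ℝ := ∑ i ∈ s, |c i| * B with hK
  have hK0 : 0 ≤ K := by rw [hK]; positivity
  set T₀ : ℝ := max 1 T₁ with hT0
  have hT01 : 1 ≤ T₀ := le_max_left _ _
  set M : ℝ := (B * ∑' i, |c i| * Real.exp (-(2 * lam i))) with hM
  have hM0 : 0 ≤ M := by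
    rw [hM]
    refine mul_nonneg hB (tsum_nonneg fun p => by positivity)
  refine ⟨|C| + K + M * Real.exp (2 * A * T₀), fun T hT => ?_⟩
  have hexp : 1 ≤ Real.exp (κ * T) := Real.one_le_exp (by positivity)
  have h9 : (|C| + K + M * Real.exp (2 * A * T₀)) * Real.exp (κ * T) =
      |C| * Real.exp (κ * T) + K * Real.exp (κ * T) +
        M * Real.exp (2 * A * T₀) * Real.exp (κ * T) := by ring
  have h6 : C * Real.exp (κ * T) ≤ |C| * Real.exp (κ * T) :=
    mul_le_mul_of_nonneg_right (le_abs_self _) (Real.exp_pos _).le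
  have h6' : 0 ≤ |C| * Real.exp (κ * T) := by positivity
  have h7 : K ≤ K * Real.exp (κ * T) := le_mul_of_one_le_right hK0 hexp
  have h8 : 0 ≤ M * Real.exp (2 * A * T₀) := by positivity
  have h8' : M * Real.exp (2 * A * T₀) ≤ M * Real.exp (2 * A * T₀) * Real.exp (κ * T) :=
    le_mul_of_one_le_right h8 hexp
  by_cases h : T₀ ≤ T
  · have h3 := hX T ((le_max_right _ _).trans h)
    have h4 := D.diff_le hb h0 hT
    have h5 : ε * wB lam c s w T - ε * wsum lam c w T ≤ K := by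
      refine (le_abs_self _).trans ?_
      rw [← mul_sub, abs_mul, hεa, one_mul, abs_sub_comm]
      exact h4
    rw [h9]
    linarith
  · push Not at h
    have h2 := D.wB_abs hA hb h0 hT h.le
    have h3 : ε * wB lam c s w T ≤ |wB lam c s w T| := by
      refine (le_abs_self _).trans ?_
      rw [abs_mul, hεa, one_mul]
    rw [h9]
    linarith

/-- **two-sided bounds for one finite cut-off** -/
theorem GD.two_sided (D : GD lam c Φ G s) {w : ℝ → ℝ} (hw : Measurable w) {B A : ℝ}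
    (hb : ∀ x, |w x| ≤ B) (h0 : ∀ x, A < x → w x = 0) {α : ℝ} (hα : 0 < α)
    (hne : ¬ ∀ᵐ x : ℝ, α < x → w x = 0) {κ : ℝ} (hκ : 0 ≤ κ)
    (hS : ∃ C T₀ : ℝ, ∀ T ≥ T₀, |wsum lam c w T| ≤ C * Real.exp (κ * T)) :
    (∀ x > κ, LInt (wB lam c s w) x) ∧ ∀ ρ : ℂ, κ / α < ρ.re → Φ ρ ≠ 0 := by
  have hA := A_pos h0 hα hne
  obtain ⟨C, T₀, hC⟩ := hS
  obtain ⟨C₁, h1⟩ := D.up_of hA hb h0 hκ (ε := 1) (Or.inl rfl) ⟨C, T₀, fun T hT => by
    rw [one_mul]; exact (le_abs_self _).trans (hC T hT)⟩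
  obtain ⟨C₂, h2⟩ := D.up_of hA hb h0 hκ (ε := -1) (Or.inr rfl) ⟨C, T₀, fun T hT => by
    have := neg_abs_le (wsum lam c w T)
    have := hC T hT
    linarith⟩
  have hconv : ∀ x > κ, LInt (wB lam c s w) x := by
    intro x hx
    refine Pool.Agent.W263.BSD.LInt.of_bound (D.wB_meas hw hb h0)
      (((ex_LInt (show κ < x by linarith)).const_mul (|C₁| + |C₂|))) fun T hT => ?_
    have e1 := h1 T hT
    have e2 := h2 T hT
    have e3 : C₁ * Real.exp (κ * T) ≤ |C₁| * Real.exp (κ * T) :=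
      mul_le_mul_of_nonneg_right (le_abs_self _) (Real.exp_pos _).le
    have e4 : C₂ * Real.exp (κ * T) ≤ |C₂| * Real.exp (κ * T) :=
      mul_le_mul_of_nonneg_right (le_abs_self _) (Real.exp_pos _).le
    have e5 : 0 ≤ |C₁| * Real.exp (κ * T) := by positivity
    have e6 : 0 ≤ |C₂| * Real.exp (κ * T) := by positivity
    unfold ex
    rw [add_mul, abs_le]
    constructor <;> linarith
  exact ⟨hconv, fun ρ hρ => D.free_of_conv hw hb h0 hα hne hκ hconv hρ⟩

/-- **one-sided bounds for one nonnegative finite cut-off** -/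
theorem GD.one_sided (D : GD lam c Φ G s) {w : ℝ → ℝ} (hw : Measurable w) (hw0 : ∀ x, 0 ≤ w x)
    {B A : ℝ} (hb : ∀ x, w x ≤ B) (h0 : ∀ x, A < x → w x = 0) {α : ℝ} (hα : 0 < α)
    (hne : ¬ ∀ᵐ x : ℝ, α < x → w x = 0) {κ : ℝ} (hκ : 0 ≤ κ) {ε : ℝ} (hε : ε = 1 ∨ ε = -1)
    (hreal : ε = -1 → ∀ x : ℝ, 0 < x → Φ x ≠ 0)
    (hS : ∃ C T₀ : ℝ, ∀ T ≥ T₀, ε * wsum lam c w T ≤ C * Real.exp (κ * T)) :
    (∀ x > κ, LInt (wB lam c s w) x) ∧ ∀ ρ : ℂ, κ / α < ρ.re → Φ ρ ≠ 0 := by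
  have := D.cnt
  have hA := A_pos h0 hα hne
  have hb' : ∀ x, |w x| ≤ B := fun x => by rw [abs_of_nonneg (hw0 x)]; exact hb x
  obtain ⟨C, hC⟩ := D.up_of hA hb' h0 hκ hε hS
  have hconv := D.cdata.conv_of_onesided D.hΦ D.h1 (fun w hw => D.GB_diff hw) (fun s _ => rfl)
    hw hw0 hA hb h0 (D.wB_meas hw hb' h0) (X := 3 * A) (D.wB_far hw hA hb' h0)
    (fun z hz => D.wB_mel hw hA hb' h0 hz) (b := 1 / α) (ne_inv hα hne) hκ hε hC hreal
  exact ⟨hconv, fun ρ hρ => D.free_of_conv hw hb' h0 hα hne hκ hconv hρ⟩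

end Pool.Agent.W189.FC
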