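import Pool.Agent.W189.FC.Gen

/-! Finite cut-offs for general systems: the order at the centre. -/

set_option autoImplicit false

namespace Pool.Agent.W189.FC

open MeasureTheory Filter Topology Set Classical
open Pool.Agent.W263.BSD (LInt lapC lapC_ofReal lapC_differentiableAt ex ex_LInt pk pl pk_LInt pl_LInt
  ell ell_nonneg ell_mono ell_le log_le_ell ck)
open Pool.Agent.W189.ML (SData ser)

variable {ι : Type} {lam c : ι → ℝ} {Φ G : ℂ → ℂ} {s : Finset ι}

/-- bounds on the real axis from bounds in sectors -/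
theorem real_bound (D : SData lam c G) : ∃ C : ℝ, ∀ u : ℝ, 0 < u → u ≤ 1 →
    ‖G u‖ ≤ C ∧ ‖deriv G u‖ ≤ C / u := by
  obtain ⟨C, hC⟩ := D.Gb
  refine ⟨2 * |C|, fun u hu hu1 => ⟨?_, ?_⟩⟩
  · have h1 := hC u (by simpa using hu) (by
      rw [Complex.norm_real, Real.norm_eq_abs, abs_of_pos hu, Complex.ofReal_re]; linarith)
    have h2 := le_abs_self C
    have h3 := abs_nonneg C
    linarith
  · have h1 : ∀ z ∈ Metric.closedBall (u : ℂ) (u / 2), u / 2 ≤ z.re ∧ ‖z‖ ≤ 5 * z.re := by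
      intro z hz
      rw [Metric.mem_closedBall, Complex.dist_eq] at hz
      have h2 := (Complex.abs_re_le_norm (z - u)).trans hz
      rw [Complex.sub_re, Complex.ofReal_re, abs_le] at h2
      have h3 : u / 2 ≤ z.re := by linarith [h2.1]
      have h4 : ‖z‖ ≤ ‖z - u‖ + ‖(u : ℂ)‖ := by
        have := norm_add_le (z - u) (u : ℂ)
        rwa [sub_add_cancel] at this
      rw [Complex.norm_real, Real.norm_eq_abs, abs_of_pos hu] at h4
      exact ⟨h3, by linarith⟩
    have h2 := Complex.norm_deriv_le_of_forall_mem_sphere_norm_le (c := (u : ℂ)) (R := u / 2)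
      (C := |C|) (f := G) (by positivity) ?_ ?_
    · refine h2.trans (le_of_eq ?_)
      field_simp
    · refine DifferentiableOn.diffContOnCl ?_
      rw [closure_ball _ (by positivity : u / 2 ≠ 0)]
      intro z hz
      exact (D.Gd z (by linarith [(h1 z hz).1])).differentiableWithinAt
    · intro z hz
      have h3 := h1 z (Metric.sphere_subset_closedBall hz)
      exact (hC z (by linarith [h3.1]) h3.2).trans (le_abs_self C)

theorem GD.GB_bound (D : GD lam c Φ G s) : ∃ C : ℝ, ∀ u : ℝ, 0 < u → u ≤ 1 →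
    ‖GB lam c G s u‖ ≤ C ∧ ‖deriv (GB lam c G s) u‖ ≤ C / u := by
  obtain ⟨C, hC⟩ := real_bound D.sd
  have h1 : ContinuousOn (fun u : ℝ => sml lam c s u) (Icc 0 1) :=
    (sml_diff.continuous.comp Complex.continuous_ofReal).continuousOn
  have h2 : ContinuousOn (fun u : ℝ => deriv (sml lam c s) u) (Icc 0 1) := by
    have h3 : Continuous (deriv (sml lam c s)) :=
      ((sml_diff (lam := lam) (c := c) (s := s)).contDiff (n := 1)).continuous_deriv le_rfl
    exact (h3.comp Complex.continuous_ofReal).continuousOn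
  obtain ⟨M, hM⟩ := isCompact_Icc.exists_bound_of_continuousOn h1
  obtain ⟨N, hN⟩ := isCompact_Icc.exists_bound_of_continuousOn h2
  have hM0 : 0 ≤ M := (norm_nonneg _).trans (hM 0 ⟨le_rfl, zero_le_one⟩)
  have hN0 : 0 ≤ N := (norm_nonneg _).trans (hN 0 ⟨le_rfl, zero_le_one⟩)
  refine ⟨C + M + N, fun u hu hu1 => ⟨?_, ?_⟩⟩
  · have e1 := (hC u hu hu1).1
    have e2 := hM u ⟨hu.le, hu1⟩
    unfold GB
    exact (norm_sub_le _ _).trans (by linarith)
  · have e1 := (hC u hu hu1).2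
    have e2 := hN u ⟨hu.le, hu1⟩
    have e3 : deriv (GB lam c G s) u = deriv G u - deriv (sml lam c s) u := by
      unfold GB
      exact deriv_sub (D.sd.Gd u (by simpa using hu)) sml_diff.differentiableAt
    rw [e3]
    refine (norm_sub_le _ _).trans ?_
    rw [add_div, add_div]
    have e4 : N ≤ N / u := by rw [le_div_iff₀ hu]; nlinarith
    have e5 : 0 ≤ M / u := by positivity
    linarith

/-- the sums near `0` -/
theorem GD.near (D : GD lam c Φ G s) (hz : ∀ ρ : ℂ, 0 < ρ.re → Φ ρ ≠ 0) :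
    ∃ m : ℕ, analyticOrderAt Φ 0 = m ∧ ∀ (w : ℝ → ℝ) (B A : ℝ), Measurable w → 0 < A →
      (∀ x, |w x| ≤ B) → (∀ x, A < x → w x = 0) →
      IntegrableOn (fun x : ℝ => (w x - 1) / x) (Ioc 0 1) →
      (∀ x > 0, LInt (wB lam c s w) x) →
      ∃ K : ℝ, ∀ x : ℝ, 0 < x → x < A →
        |x * Pool.Agent.W263.BSD.lap (wB lam c s w) x - m * -Real.log x| ≤ K := by
  have := D.cnt
  obtain ⟨m, Q, hQd, hQ0, -, hQe⟩ := exists_quot' D.hΦ (D.h1 2 (by norm_num)) 0
  refine ⟨m, ?_, fun w B A hw hA hb h0 h1 hconv => ?_⟩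
  · rw [(D.hΦ.analyticAt 0).analyticOrderAt_eq_natCast]
    exact ⟨Q, hQd.analyticAt 0, hQ0, Eventually.of_forall fun z => by
      rw [smul_eq_mul]; exact hQe z⟩
  have hQ1 : ∀ u ∈ Icc (0 : ℝ) 1, Q u ≠ 0 := by
    intro u hu h
    rcases hu.1.eq_or_lt with h2 | h2
    · rw [← h2] at h
      exact hQ0 (by simpa using h)
    · exact hz u (by simpa using h2) (by rw [hQe, h, mul_zero])
  have hlog : ∀ (P : ℂ → ℂ), Differentiable ℂ P → ∀ w, P w ≠ 0 →
      DifferentiableAt ℂ (logDeriv P) w := by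
    intro P hP w hw
    have h2 : DifferentiableAt ℂ (deriv P) w := by
      have h3 : DifferentiableOn ℂ P univ := hP.differentiableOn
      exact (h3.deriv isOpen_univ).differentiableAt (isOpen_univ.mem_nhds (mem_univ _))
    exact h2.div (hP w) hw
  obtain ⟨CG, hCG⟩ := D.GB_bound
  have hLc : ContinuousOn (fun u : ℝ => logDeriv Q u) (Icc 0 1) := by
    intro u hu
    exact ((hlog Q hQd u (hQ1 u hu)).continuousAt.comp
      Complex.continuous_ofReal.continuousAt).continuousWithinAt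
  obtain ⟨M, hM⟩ := isCompact_Icc.exists_bound_of_continuousOn hLc
  have ho : IsOpen {w : ℂ | 0 < w.re} := isOpen_lt continuous_const Complex.continuous_re
  have hHd : ∀ w : ℂ, 0 < w.re → DifferentiableAt ℂ (HB lam c Φ G s) w := by
    intro w hw
    refine (hlog _ D.hΦ w (hz w hw)).sub ?_
    exact (DifferentiableOn.deriv (fun w hw => (D.GB_diff hw).differentiableWithinAt)
      ho).differentiableAt (ho.mem_nhds hw)
  have V := vw_of hw hA hb h0
  have DC := D.cdata
  obtain ⟨K, hK⟩ := mel_near (H := HB lam c Φ G s) (H₂ := logDeriv Q) V (inv_cond hw hA hb h1)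
    (r := m) (CG := CG) (M := M) (fun w hw => D.GB_diff hw) hCG
    (fun u h0 h1 => hM u ⟨h0.le, h1⟩) hHd (by
      have hc : ContinuousOn (fun u : ℝ => HB lam c Φ G s (u : ℂ)) (Icc 1 3) := by
        intro u hu
        exact ((hHd u (by rw [Complex.ofReal_re]; linarith [hu.1])).continuousAt.comp
          Complex.continuous_ofReal.continuousAt).continuousWithinAt
      have h1 := hc.integrableOn_Icc (μ := volume)
      obtain ⟨C, hC0, hC⟩ := DC.H_bound
      have h2 : IntegrableOn (fun u : ℝ => HB lam c Φ G s (u : ℂ)) (Ioi 3) := by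
        have h3 : IntegrableOn (fun u : ℝ => (C * Real.exp 3) * Real.exp (-1 * u)) (Ioi 3) :=
          (integrableOn_exp_mul_Ioi (by norm_num) 3).const_mul _
        refine Integrable.mono' h3 ?_ ?_
        · refine ContinuousOn.aestronglyMeasurable ?_ measurableSet_Ioi
          intro u hu
          have hu' : (3 : ℝ) < u := hu
          exact ((hHd u (by rw [Complex.ofReal_re]; linarith)).continuousAt.comp
            Complex.continuous_ofReal.continuousAt).continuousWithinAt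
        · filter_upwards [ae_restrict_mem measurableSet_Ioi] with u hu
          have hu' : (3 : ℝ) < u := hu
          refine (hC u (by rw [Complex.ofReal_re]; exact hu'.le)).trans (le_of_eq ?_)
          rw [Complex.ofReal_re, sub_eq_add_neg, Real.exp_add]
          rw [show -1 * u = -u by ring]
          ring
      refine (h1.union h2).mono_set fun u hu => ?_
      rcases le_or_gt u 3 with h | h
      · exact Or.inl ⟨le_of_lt hu, h⟩
      · exact Or.inr h) (by
      intro u hu hu1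
      have hu' : (u : ℂ) ≠ 0 := by exact_mod_cast hu.ne'
      have hQu := hQ1 u ⟨hu.le, hu1⟩
      have hfe : Φ = fun w => w ^ m * Q w := by
        funext w
        rw [hQe w, sub_zero]
      have h3 : logDeriv Φ u = m / u + logDeriv Q u := by
        rw [hfe, logDeriv_mul (f := fun w : ℂ => w ^ m) (g := Q) _ (pow_ne_zero m hu') hQu
          (by fun_prop) (hQd _)]
        congr 1
        rw [logDeriv_apply]
        have h4 : HasDerivAt (fun w : ℂ => w ^ m) ((m : ℂ) * (u : ℂ) ^ (m - 1)) u :=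
          hasDerivAt_pow m _
        rw [h4.deriv]
        rcases Nat.eq_zero_or_pos m with h | h
        · rw [h]; simp
        · obtain ⟨j, rfl⟩ : ∃ j, m = j + 1 := ⟨m - 1, by omega⟩
          rw [Nat.add_sub_cancel, pow_succ]
          field_simp
      unfold HB
      rw [h3]
      push_cast
      ring)
  refine ⟨K, fun x hx hxA => ?_⟩
  have h2 := DC.eq_mel V (s := 0) le_rfl (fun w hw => hHd w (by simpa using hw))
    (L := lapC (wB lam c s w)) (fun z hz => lapC_differentiableAt (D.wB_meas hw hb h0)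
      (w0 := 0) (fun x hx => hconv x hx) hz) (X := 3 * A)
    (fun z hz => D.wB_mel hw hA hb h0 hz) (z := (x : ℂ))
    (by rw [Complex.ofReal_re]; exact hx)
  have h3 := hK x hx (by
    rw [← div_eq_mul_inv, div_lt_one hA]; exact hxA)
  rw [← h2, lapC_ofReal, ← Complex.ofReal_mul, ← Complex.ofReal_sub, Complex.norm_real,
    Real.norm_eq_abs] at h3
  exact h3

/-- an upper bound for large `T` gives one for all `T` -/
theorem GD.log_upper (D : GD lam c Φ G s) {w : ℝ → ℝ} {B A : ℝ} (hA : 0 < A) (hb : ∀ x, |w x| ≤ B)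
    (h0 : ∀ x, A < x → w x = 0) {κ ε : ℝ} (hε : |ε| = 1)
    (h : ∀ᶠ T : ℝ in atTop, ε * wsum lam c w T ≤ κ * Real.log T) :
    ∃ K : ℝ, ∀ T, 0 < T → ε * wB lam c s w T ≤ κ * ell T + K := by
  have hB : 0 ≤ B := (abs_nonneg _).trans (hb 0)
  obtain ⟨T₁, hT1⟩ := eventually_atTop.1 (h.and (eventually_ge_atTop (2 : ℝ)))
  set K₀ : ℝ := ∑ i ∈ s, |c i| * B with hK0
  set M : ℝ := (B * ∑' i, |c i| * Real.exp (-(2 * lam i))) * Real.exp (2 * A * T₁) with hM
  have hK00 : 0 ≤ K₀ := by positivity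
  have hM0 : 0 ≤ M := by
    rw [hM]
    exact mul_nonneg (mul_nonneg hB (tsum_nonneg fun p => by positivity)) (Real.exp_pos _).le
  have hT10 : 2 ≤ T₁ := (hT1 T₁ le_rfl).2
  have hell1 : 0 ≤ ell T₁ := by linarith [ell_nonneg (u := T₁) (by linarith)]
  refine ⟨K₀ + |κ| + M + |κ| * ell T₁, fun T hT => ?_⟩
  have hk : 0 ≤ |κ| := abs_nonneg κ
  have hεw : ε * wB lam c s w T ≤ |wB lam c s w T| := by
    refine (le_abs_self _).trans ?_
    rw [abs_mul, hε, one_mul]
  rcases le_or_gt T₁ T with h3 | h3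
  · obtain ⟨h4, h5⟩ := hT1 T h3
    have h6 : ε * wB lam c s w T - ε * wsum lam c w T ≤ K₀ := by
      refine (le_abs_self _).trans ?_
      rw [← mul_sub, abs_mul, hε, one_mul, abs_sub_comm]
      exact D.diff_le hb h0 hT
    have h7 : κ * Real.log T ≤ κ * ell T + |κ| := by
      have h8 := log_le_ell hT
      have h9 := ell_le h5
      have h10 : κ * (Real.log T - ell T) ≤ |κ| * |Real.log T - ell T| := by
        rw [← abs_mul]; exact le_abs_self _
      have h11 : |Real.log T - ell T| ≤ 1 := by rw [abs_le]; constructor <;> linarith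
      nlinarith
    have h12 : 0 ≤ |κ| * ell T₁ := by positivity
    linarith
  · have h4 := D.wB_abs hA hb h0 hT h3.le
    have h5 : ell T ≤ ell T₁ := ell_mono hT.le h3.le
    have h6 := ell_nonneg hT.le
    have h7 : -(|κ| * ell T₁) ≤ κ * ell T := by
      have h8 : |κ * ell T| ≤ |κ| * ell T₁ := by
        rw [abs_mul, abs_of_nonneg (by linarith : 0 ≤ ell T)]
        exact mul_le_mul_of_nonneg_left h5 hk
      linarith [(abs_le.1 h8).1]
    linarith

/-- powers beat logarithms -/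
theorem log_le_exp' (κ : ℝ) {x : ℝ} (hx : 0 < x) : ∀ T ≥ (1 : ℝ),
    κ * Real.log T ≤ (|κ| / x) * Real.exp (x * T) := by
  intro T hT
  have h1 : 0 ≤ Real.log T := Real.log_nonneg hT
  have h2 : Real.log T ≤ T := (Real.log_le_sub_one_of_pos (by linarith)).trans (by linarith)
  have h3 : x * T ≤ Real.exp (x * T) := (Real.add_one_le_exp _).trans' (by linarith)
  have h4 : Real.log T ≤ Real.exp (x * T) / x := by
    rw [le_div_iff₀ hx]
    nlinarith
  calc κ * Real.log T ≤ |κ| * Real.log T := mul_le_mul_of_nonneg_right (le_abs_self κ) h1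
    _ ≤ |κ| * (Real.exp (x * T) / x) := mul_le_mul_of_nonneg_left h4 (abs_nonneg _)
    _ = _ := by ring

/-- the comparison of the orders -/
theorem order_cmp {S : ℝ → ℝ} {m : ℕ} {A K₁ : ℝ} (hA : 0 < A)
    (hK₁ : ∀ x : ℝ, 0 < x → x < A → |x * Pool.Agent.W263.BSD.lap S x - m * -Real.log x| ≤ K₁)
    (hconv : ∀ x > 0, LInt S x) {κ K : ℝ} :
    ((∀ T, 0 < T → 1 * S T ≤ κ * ell T + K) → (m : ℝ) ≤ κ) ∧
    ((∀ T, 0 < T → -1 * S T ≤ κ * ell T + K) → -κ ≤ (m : ℝ)) := by
  constructor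
  · intro hle
    refine coef_le (K := (|κ| * (Real.exp 1 + ck 0) + K) + K₁) ?_
    filter_upwards [Ioo_mem_nhdsGT (show (0 : ℝ) < min 1 A from lt_min one_pos hA)] with x hx
    have h2 := hK₁ x hx.1 (hx.2.trans_le (min_le_right _ _))
    have h3 := lap_le_of_le_ell hx.1 (hx.2.le.trans (min_le_left _ _)) (hconv x hx.1)
      (fun T hT => by have := hle T hT; rwa [one_mul] at this)
    have h4 := (abs_le.1 h2).1
    linarith
  · intro hle
    have h5 : -(m : ℝ) ≤ κ := by
      refine coef_le (K := (|κ| * (Real.exp 1 + ck 0) + K) + K₁) ?_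
      filter_upwards [Ioo_mem_nhdsGT (show (0 : ℝ) < min 1 A from lt_min one_pos hA)] with x hx
      have h2 := hK₁ x hx.1 (hx.2.trans_le (min_le_right _ _))
      have h3 := lap_le_of_le_ell (S := fun T => -S T) (κ := κ) (K := K) hx.1
        (hx.2.le.trans (min_le_left _ _)) (hconv x hx.1).neg (fun T hT => by
          have := hle T hT
          linarith)
      have h6 : Pool.Agent.W263.BSD.lap (fun T => -S T) x = -Pool.Agent.W263.BSD.lap S x := by
        unfold Pool.Agent.W263.BSD.lap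
        rw [← integral_neg]
        congr 1
        funext T
        ring
      rw [h6] at h3
      have h4 := (abs_le.1 h2).2
      linarith
    linarith

/-- **one-sided Goldfeld theorem, from above** -/
theorem GD.upper (D : GD lam c Φ G s) {w : ℝ → ℝ} (hw : Measurable w) (hw0 : ∀ x, 0 ≤ w x)
    {B A : ℝ} (hb : ∀ x, w x ≤ B) (h0 : ∀ x, A < x → w x = 0)
    (h1 : IntegrableOn (fun x : ℝ => (w x - 1) / x) (Ioc 0 1)) {κ : ℝ}
    (hk : ∀ᶠ T : ℝ in atTop, wsum lam c w T ≤ κ * Real.log T) :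
    (∀ ρ : ℂ, 0 < ρ.re → Φ ρ ≠ 0) ∧ ∃ m : ℕ, analyticOrderAt Φ 0 = m ∧ (m : ℝ) ≤ κ := by
  obtain ⟨α, hα, hne⟩ := not_ae_zero h1
  have hA := A_pos h0 hα hne
  have hb' : ∀ x, |w x| ≤ B := fun x => by rw [abs_of_nonneg (hw0 x)]; exact hb x
  have key : ∀ x : ℝ, 0 < x → (∀ y > x, LInt (wB lam c s w) y) ∧
      ∀ ρ : ℂ, x / α < ρ.re → Φ ρ ≠ 0 := by
    intro x hx
    obtain ⟨T₁, hT1⟩ := eventually_atTop.1 hk
    refine D.one_sided hw hw0 hb h0 hα hne hx.le (ε := 1) (Or.inl rfl)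
      (fun h => absurd h (by norm_num)) ⟨|κ| / x, max 1 T₁, fun T hT => ?_⟩
    rw [one_mul]
    exact (hT1 T ((le_max_right _ _).trans hT)).trans
      (log_le_exp' κ hx T ((le_max_left _ _).trans hT))
  have hfree : ∀ ρ : ℂ, 0 < ρ.re → Φ ρ ≠ 0 := by
    intro ρ hρ
    refine (key (α * ρ.re / 2) (by positivity)).2 ρ ?_
    have : α * ρ.re / 2 / α = ρ.re / 2 := by field_simp
    rw [this]
    linarith
  refine ⟨hfree, ?_⟩
  obtain ⟨m, hm, hnear⟩ := D.near hfree
  refine ⟨m, hm, ?_⟩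
  have hconv : ∀ x > 0, LInt (wB lam c s w) x := fun x hx =>
    (key (x / 2) (by positivity)).1 x (by show x / 2 < x; linarith)
  obtain ⟨K₁, hK₁⟩ := hnear w B A hw hA hb' h0 h1 hconv
  obtain ⟨K, hK⟩ := D.log_upper hA hb' h0 (κ := κ) (ε := 1) (by simp) (by
    filter_upwards [hk] with T hT
    rwa [one_mul])
  exact (order_cmp hA hK₁ hconv).1 hK

/-- **one-sided Goldfeld theorem, from below** -/
theorem GD.lower (D : GD lam c Φ G s) {w : ℝ → ℝ} (hw : Measurable w) (hw0 : ∀ x, 0 ≤ w x)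
    {B A : ℝ} (hb : ∀ x, w x ≤ B) (h0 : ∀ x, A < x → w x = 0)
    (h1 : IntegrableOn (fun x : ℝ => (w x - 1) / x) (Ioc 0 1)) {κ : ℝ}
    (hreal : ∀ x : ℝ, 0 < x → Φ x ≠ 0)
    (hk : ∀ᶠ T : ℝ in atTop, κ * Real.log T ≤ wsum lam c w T) :
    (∀ ρ : ℂ, 0 < ρ.re → Φ ρ ≠ 0) ∧ ∃ m : ℕ, analyticOrderAt Φ 0 = m ∧ κ ≤ (m : ℝ) := by
  obtain ⟨α, hα, hne⟩ := not_ae_zero h1
  have hA := A_pos h0 hα hne
  have hb' : ∀ x, |w x| ≤ B := fun x => by rw [abs_of_nonneg (hw0 x)]; exact hb x
  have key : ∀ x : ℝ, 0 < x → (∀ y > x, LInt (wB lam c s w) y) ∧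
      ∀ ρ : ℂ, x / α < ρ.re → Φ ρ ≠ 0 := by
    intro x hx
    obtain ⟨T₁, hT1⟩ := eventually_atTop.1 hk
    refine D.one_sided hw hw0 hb h0 hα hne hx.le (ε := -1) (Or.inr rfl)
      (fun _ => hreal) ⟨|-κ| / x, max 1 T₁, fun T hT => ?_⟩
    have h2 := hT1 T ((le_max_right _ _).trans hT)
    have h3 := log_le_exp' (-κ) hx T ((le_max_left _ _).trans hT)
    linarith
  have hfree : ∀ ρ : ℂ, 0 < ρ.re → Φ ρ ≠ 0 := by
    intro ρ hρ
    refine (key (α * ρ.re / 2) (by positivity)).2 ρ ?_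
    have : α * ρ.re / 2 / α = ρ.re / 2 := by field_simp
    rw [this]
    linarith
  refine ⟨hfree, ?_⟩
  obtain ⟨m, hm, hnear⟩ := D.near hfree
  refine ⟨m, hm, ?_⟩
  have hconv : ∀ x > 0, LInt (wB lam c s w) x := fun x hx =>
    (key (x / 2) (by positivity)).1 x (by show x / 2 < x; linarith)
  obtain ⟨K₁, hK₁⟩ := hnear w B A hw hA hb' h0 h1 hconv
  obtain ⟨K, hK⟩ := D.log_upper hA hb' h0 (κ := -κ) (ε := -1) (by simp) (by
    filter_upwards [hk] with T hT
    linarith)
  have := (order_cmp hA hK₁ hconv).2 hK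
  linarith

/-- **Goldfeld's theorem for every finite cut-off, for general systems** -/
theorem GD.goldfeld (D : GD lam c Φ G s) {w : ℝ → ℝ} (hw : Measurable w) {B A : ℝ}
    (hb : ∀ x, |w x| ≤ B) (h0 : ∀ x, A < x → w x = 0)
    (h1 : IntegrableOn (fun x : ℝ => (w x - 1) / x) (Ioc 0 1)) {k : ℝ}
    (hk : Tendsto (fun T : ℝ => wsum lam c w T / Real.log T) atTop (𝓝 k)) :
    (∀ ρ : ℂ, 0 < ρ.re → Φ ρ ≠ 0) ∧ ∃ m : ℕ, analyticOrderAt Φ 0 = m ∧ (m : ℝ) = k := by
  obtain ⟨α, hα, hne⟩ := not_ae_zero h1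
  have hA := A_pos h0 hα hne
  have hbd : ∀ ε > 0, ∀ᶠ T : ℝ in atTop, wsum lam c w T ≤ (k + ε) * Real.log T ∧
      (k - ε) * Real.log T ≤ wsum lam c w T := by
    intro ε hε
    have h2 := hk.eventually (Metric.ball_mem_nhds k hε)
    filter_upwards [h2, eventually_gt_atTop (1 : ℝ)] with T h3 h4
    have h4' := Real.log_pos h4
    rw [Real.dist_eq, abs_lt] at h3
    have h5 : wsum lam c w T = wsum lam c w T / Real.log T * Real.log T := by
      field_simp
    rw [h5]
    constructor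
    · exact mul_le_mul_of_nonneg_right (by linarith [h3.2]) h4'.le
    · exact mul_le_mul_of_nonneg_right (by linarith [h3.1]) h4'.le
  have key : ∀ x : ℝ, 0 < x → (∀ y > x, LInt (wB lam c s w) y) ∧
      ∀ ρ : ℂ, x / α < ρ.re → Φ ρ ≠ 0 := by
    intro x hx
    obtain ⟨T₁, hT1⟩ := eventually_atTop.1 (hbd 1 one_pos)
    refine D.two_sided hw hb h0 hα hne hx.le ⟨|(|k| + 1)| / x, max 1 T₁, fun T hT => ?_⟩
    obtain ⟨h2, h3⟩ := hT1 T ((le_max_right _ _).trans hT)
    refine le_trans ?_ (log_le_exp' (|k| + 1) hx T ((le_max_left _ _).trans hT))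
    have h4 := Real.log_nonneg ((le_max_left _ _).trans hT)
    have e1 : k ≤ |k| := le_abs_self k
    have e2 : -|k| ≤ k := neg_abs_le k
    rw [abs_le]
    constructor <;> nlinarith
  have hfree : ∀ ρ : ℂ, 0 < ρ.re → Φ ρ ≠ 0 := by
    intro ρ hρ
    refine (key (α * ρ.re / 2) (by positivity)).2 ρ ?_
    have : α * ρ.re / 2 / α = ρ.re / 2 := by field_simp
    rw [this]
    linarith
  refine ⟨hfree, ?_⟩
  obtain ⟨m, hm, hnear⟩ := D.near hfree
  refine ⟨m, hm, ?_⟩
  have hconv : ∀ x > 0, LInt (wB lam c s w) x := fun x hx =>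
    (key (x / 2) (by positivity)).1 x (by show x / 2 < x; linarith)
  obtain ⟨K₁, hK₁⟩ := hnear w B A hw hA hb h0 h1 hconv
  refine le_antisymm ?_ ?_
  · refine le_of_forall_pos_le_add fun ε hε => ?_
    obtain ⟨K, hK⟩ := D.log_upper hA hb h0 (κ := k + ε) (ε := 1) (by simp) (by
      filter_upwards [hbd ε hε] with T hT
      rw [one_mul]
      exact hT.1)
    exact (order_cmp hA hK₁ hconv).1 hK
  · refine le_of_forall_pos_le_add fun ε hε => ?_
    obtain ⟨K, hK⟩ := D.log_upper hA hb h0 (κ := -(k - ε)) (ε := -1) (by simp) (by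
      filter_upwards [hbd ε hε] with T hT
      linarith [hT.2])
    have := (order_cmp hA hK₁ hconv).2 hK
    linarith

end Pool.Agent.W189.FC
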