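import Mathlib

/-! Laplace transforms of functions of exponential growth are holomorphic. -/

set_option autoImplicit false

namespace Pool.Agent.W189.FC

open MeasureTheory Filter Topology Set

/-- the Laplace transform -/
noncomputable def lap (f : ℝ → ℂ) (z : ℂ) : ℂ := ∫ T in Ioi (0 : ℝ), f T * Complex.exp (-(z * T))

theorem norm_exp_neg (z : ℂ) (T : ℝ) : ‖Complex.exp (-(z * T))‖ = Real.exp (-(z.re * T)) := by
  rw [Complex.norm_exp]
  simp

theorem lap_integrable {f : ℝ → ℂ} (hf : AEStronglyMeasurable f (volume.restrict (Ioi 0)))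
    {C c : ℝ} (hb : ∀ᵐ T ∂(volume.restrict (Ioi (0 : ℝ))), ‖f T‖ ≤ C * Real.exp (c * T))
    {z : ℂ} (hz : c < z.re) : IntegrableOn (fun T : ℝ => f T * Complex.exp (-(z * T))) (Ioi 0) := by
  have h1 : IntegrableOn (fun T : ℝ => C * Real.exp (-(z.re - c) * T)) (Ioi 0) :=
    (integrableOn_exp_mul_Ioi (by linarith) 0).const_mul C
  refine Integrable.mono' h1 (hf.mul ?_) ?_
  · exact (Continuous.aestronglyMeasurable (by fun_prop))
  · filter_upwards [hb] with T hT
    rw [norm_mul, norm_exp_neg]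
    calc ‖f T‖ * Real.exp (-(z.re * T)) ≤ (C * Real.exp (c * T)) * Real.exp (-(z.re * T)) :=
          mul_le_mul_of_nonneg_right hT (Real.exp_pos _).le
      _ = C * Real.exp (-(z.re - c) * T) := by
          rw [mul_assoc, ← Real.exp_add]
          congr 2
          ring

theorem lap_differentiableAt {f : ℝ → ℂ} (hf : AEStronglyMeasurable f (volume.restrict (Ioi 0)))
    {C c : ℝ} (hb : ∀ᵐ T ∂(volume.restrict (Ioi (0 : ℝ))), ‖f T‖ ≤ C * Real.exp (c * T))
    {z : ℂ} (hz : c < z.re) : DifferentiableAt ℂ (lap f) z := by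
  set δ := (z.re - c) / 2 with hδ
  have hδ0 : 0 < δ := by rw [hδ]; linarith
  have hC : 0 ≤ C ∨ volume.restrict (Ioi (0 : ℝ)) = 0 := by
    by_contra hcon
    push Not at hcon
    have h1 : ∀ᵐ T ∂(volume.restrict (Ioi (0 : ℝ))), False := by
      filter_upwards [hb] with T hT
      have := (norm_nonneg _).trans hT
      nlinarith [Real.exp_pos (c * T), hcon.1]
    rw [ae_iff] at h1
    simp at h1
  have key := hasDerivAt_integral_of_dominated_loc_of_deriv_le (μ := volume.restrict (Ioi (0 : ℝ)))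
    (F := fun (w : ℂ) (T : ℝ) => f T * Complex.exp (-(w * T)))
    (F' := fun (w : ℂ) (T : ℝ) => f T * (Complex.exp (-(w * T)) * (-T)))
    (x₀ := z) (s := Metric.ball z δ)
    (bound := fun T => |C| * (T * Real.exp (-δ * T))) (Metric.ball_mem_nhds z hδ0) ?_ ?_ ?_ ?_ ?_ ?_
  · exact key.2.differentiableAt
  · refine Eventually.of_forall fun w => hf.mul (Continuous.aestronglyMeasurable (by fun_prop))
  · exact lap_integrable hf hb hz
  · exact hf.mul (Continuous.aestronglyMeasurable (by fun_prop))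
  · filter_upwards [hb, ae_restrict_mem measurableSet_Ioi] with T hT hT0 w hw
    have hT0' : (0 : ℝ) < T := hT0
    have hw1 : z.re - δ < w.re := by
      have h1 : |(w - z).re| ≤ ‖w - z‖ := Complex.abs_re_le_norm _
      rw [Metric.mem_ball, Complex.dist_eq] at hw
      rw [Complex.sub_re] at h1
      have := abs_lt.1 (h1.trans_lt hw)
      linarith [this.1]
    rw [norm_mul, norm_mul, norm_exp_neg, norm_neg, Complex.norm_real, Real.norm_eq_abs,
      abs_of_pos hT0']
    calc ‖f T‖ * (Real.exp (-(w.re * T)) * T)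
        ≤ (|C| * Real.exp (c * T)) * (Real.exp (-(w.re * T)) * T) := by
          refine mul_le_mul_of_nonneg_right (hT.trans ?_) (by positivity)
          exact mul_le_mul_of_nonneg_right (le_abs_self _) (Real.exp_pos _).le
      _ = |C| * (T * Real.exp (c * T + -(w.re * T))) := by
          rw [Real.exp_add]; ring
      _ ≤ |C| * (T * Real.exp (-δ * T)) := by
          refine mul_le_mul_of_nonneg_left (mul_le_mul_of_nonneg_left ?_ hT0'.le) (abs_nonneg _)
          apply Real.exp_le_exp.2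
          nlinarith
  · have h1 : IntegrableOn (fun T : ℝ => T * Real.exp (-δ * T)) (Ioi 0) := by
      have h2 := integrableOn_rpow_mul_exp_neg_mul_rpow (s := 1) (p := 1) (b := δ) (by norm_num)
        (by norm_num) hδ0
      refine h2.congr_fun (fun T hT => ?_) measurableSet_Ioi
      simp
    exact h1.const_mul |C|
  · refine Eventually.of_forall fun T w _ => ?_
    refine HasDerivAt.const_mul _ ?_
    have h1 : HasDerivAt (fun w : ℂ => -(w * T)) (-T : ℂ) w := by
      have := ((hasDerivAt_id' w).mul_const (T : ℂ)).neg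
      rw [one_mul] at this
      exact this
    exact h1.cexp

theorem lap_int_norm_le {f : ℝ → ℂ} {B : ℝ} {a : ℝ} (ha : 0 ≤ a)
    (hb : ∀ᵐ T ∂(volume.restrict (Ioi (0 : ℝ))), ‖f T‖ ≤ B)
    (h0 : ∀ᵐ T ∂(volume.restrict (Ioi (0 : ℝ))), T < a → f T = 0)
    {z : ℂ} (hz : 0 < z.re) : ∫ T in Ioi (0 : ℝ), ‖f T * Complex.exp (-(z * T))‖ ≤
      B * (Real.exp (-(z.re * a)) / z.re) := by
  have h1 : IntegrableOn (fun T : ℝ => B * ((Ici a).indicator (fun T => Real.exp (-z.re * T)) T))
      (Ioi 0) := by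
    refine Integrable.const_mul ?_ B
    exact (integrableOn_exp_mul_Ioi (by linarith) 0).indicator measurableSet_Ici
  refine (integral_mono_of_nonneg (Eventually.of_forall fun T => norm_nonneg _) h1 ?_).trans
    (le_of_eq ?_)
  · filter_upwards [hb, h0] with T hT hT0
    rw [norm_mul, norm_exp_neg]
    by_cases h : T < a
    · rw [hT0 h, indicator_of_notMem (by simpa using h)]
      simp
    · rw [indicator_of_mem (by simpa using h), neg_mul]
      exact mul_le_mul_of_nonneg_right hT (Real.exp_pos _).le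
  · rw [integral_const_mul]
    congr 1
    rw [setIntegral_indicator measurableSet_Ici]
    have h2 : (Ioi (0 : ℝ) ∩ Ici a : Set ℝ) =ᵐ[volume] (Ioi a : Set ℝ) := by
      rcases ha.eq_or_lt with h | h
      · rw [← h]
        have : Ioi (0 : ℝ) ∩ Ici 0 = Ioi 0 := by
          ext x; simp; intro hx; exact hx.le
        rw [this]
      · have : Ioi (0 : ℝ) ∩ Ici a = Ici a := by
          ext x; simp; intro hx; linarith
        rw [this]
        exact Ioi_ae_eq_Ici.symm
    rw [setIntegral_congr_set h2, integral_exp_mul_Ioi (by linarith) a]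
    rw [neg_mul]
    field_simp

theorem lap_norm_le {f : ℝ → ℂ} {B : ℝ} {a : ℝ} (ha : 0 ≤ a)
    (hb : ∀ᵐ T ∂(volume.restrict (Ioi (0 : ℝ))), ‖f T‖ ≤ B)
    (h0 : ∀ᵐ T ∂(volume.restrict (Ioi (0 : ℝ))), T < a → f T = 0)
    {z : ℂ} (hz : 0 < z.re) : ‖lap f z‖ ≤ B * (Real.exp (-(z.re * a)) / z.re) :=
  (norm_integral_le_integral_norm _).trans (lap_int_norm_le ha hb h0 hz)

/-- rescaling -/
theorem lap_scale (v : ℝ → ℂ) {l : ℝ} (hl : 0 < l) (z : ℂ) :
    lap (fun T => v (T / l)) z = l * lap v (z * l) := by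
  unfold lap
  have h := integral_comp_mul_left_Ioi (fun T : ℝ => v (T / l) * Complex.exp (-(z * T))) 0 hl
  rw [mul_zero] at h
  have h2 : (∫ T in Ioi (0 : ℝ), v (T / l) * Complex.exp (-(z * T))) =
      l * ∫ x in Ioi (0 : ℝ), v (l * x / l) * Complex.exp (-(z * ((l * x : ℝ) : ℂ))) := by
    rw [h, Complex.real_smul, ← mul_assoc]
    have : (l : ℂ) * ((l⁻¹ : ℝ) : ℂ) = 1 := by
      rw [← Complex.ofReal_mul, mul_inv_cancel₀ hl.ne', Complex.ofReal_one]
    rw [this, one_mul]
  rw [h2]
  congr 1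
  refine setIntegral_congr_fun measurableSet_Ioi fun x _ => ?_
  rw [mul_div_cancel_left₀ _ hl.ne']
  push_cast
  rw [mul_assoc]

end Pool.Agent.W189.FC
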