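import Pool.Agent.W189.FC.Gen2
import Pool.Agent.W76.BK.MotG
import Pool.Agent.W263.EP.Bad

/-! Finite cut-offs for systems of Frobenius traces. -/

set_option autoImplicit false

namespace Pool.Agent.W189.FC.Mot

open MeasureTheory Filter Topology Set Classical
open Pool.Agent.W189.FC
open Pool.Agent.H341R2 (NormSys)
open Pool.Agent.W263.EP (TData tn cc ff0 LFB LF BB tdata LF_eq LFB_eq BB_diff cc_bad cc_good LL GG)
open Pool.Agent.W76.BK.MotG (lamR sdataR LL_ser)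
open Pool.Agent.W76.BK.Mot (countX)

variable {S : NormSys} {Bs : Finset S.X} {B : S.X → Polynomial ℂ} {tr : S.X → ℕ → ℝ} {ω : ℝ}
  {D : ℝ} {F : ℂ → ℂ}

/-- the `L`-function at the centre without the bad factors -/
noncomputable def PhiS (S : NormSys) (Bs : Finset S.X) (B : S.X → Polynomial ℂ) (ω : ℝ) (F : ℂ → ℂ)
    (z : ℂ) : ℂ := F ((((ω + 1) / 2 : ℝ) : ℂ) + z) * BB S Bs B ((((ω + 1) / 2 : ℝ) : ℂ) + z)

theorem BB_real (hB : ∀ v ∈ Bs, ∀ s : ℝ, (ω + 1) / 2 ≤ s →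
      (B v).eval (((S.N v : ℕ) : ℂ) ^ (-(s : ℂ))) ≠ 0) {s : ℝ} (hs : (ω + 1) / 2 ≤ s) :
    BB S Bs B s ≠ 0 := by
  unfold BB
  exact Finset.prod_ne_zero_iff.mpr fun x hx => hB x hx s hs

theorem PhiS_diff (hF : Differentiable ℂ F) : Differentiable ℂ (PhiS S Bs B ω F) := by
  unfold PhiS
  exact (hF.comp (by fun_prop)).mul ((BB_diff (S := S) (Bs := Bs) (B := B)).comp (by fun_prop))

theorem PhiS_eq (E : TData S (tn S (Bs : Set S.X) tr ω) D)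
    (hB : ∀ v ∈ Bs, ∀ s : ℝ, (ω + 1) / 2 ≤ s →
      (B v).eval (((S.N v : ℕ) : ℂ) ^ (-(s : ℂ))) ≠ 0)
    (hF : Differentiable ℂ F) (hF2 : ∀ s : ℝ, (ω + 2) / 2 < s → F s = LFB S Bs B tr s)
    {z : ℂ} (hz : 1 / 2 < z.re) :
    PhiS S Bs B ω F z = Complex.exp (LL S (tn S (Bs : Set S.X) tr ω) z) := by
  have heq : ∀ x : ℝ, 1 / 2 < x → PhiS S Bs B ω F x =
      Complex.exp (LL S (tn S (Bs : Set S.X) tr ω) x) := by
    intro x hx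
    unfold PhiS
    have e1 : (((ω + 1) / 2 : ℝ) : ℂ) + x = (((ω + 1) / 2 + x : ℝ) : ℂ) := by push_cast; rfl
    have e2 : ((ω : ℂ) + 1) / 2 + (x : ℂ) = (((ω + 1) / 2 + x : ℝ) : ℂ) := by push_cast; rfl
    have h3 := hF2 ((ω + 1) / 2 + x) (by linarith)
    have h4 := LFB_eq (B := B) E (s := (((ω + 1) / 2 + x : ℝ) : ℂ)) (by
      rw [Complex.ofReal_re]; linarith)
    have h5 := LF_eq E (z := (x : ℂ)) (by rwa [Complex.ofReal_re])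
    rw [e2] at h5
    rw [e1, h3, h4, h5, mul_assoc, inv_mul_cancel₀ (BB_real hB (by linarith)), mul_one]
  have ho : IsOpen {z : ℂ | 1 / 2 < z.re} := isOpen_lt continuous_const Complex.continuous_re
  have h1 : AnalyticOnNhd ℂ (PhiS S Bs B ω F) {z : ℂ | 1 / 2 < z.re} :=
    (PhiS_diff hF).differentiableOn.analyticOnNhd ho
  have h2 : AnalyticOnNhd ℂ (fun z => Complex.exp (LL S (tn S (Bs : Set S.X) tr ω) z))
      {z : ℂ | 1 / 2 < z.re} := by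
    refine DifferentiableOn.analyticOnNhd (fun z hz => ?_) ho
    exact (E.LL_diff hz).cexp.differentiableWithinAt
  have h1m : (1 : ℂ) ∈ {z : ℂ | 1 / 2 < z.re} := by
    show (1 : ℝ) / 2 < (1 : ℂ).re
    norm_num
  refine h1.eqOn_of_preconnected_of_frequently_eq h2
    (convex_halfSpace_re_gt _).isPreconnected h1m ?_ hz
  have h3 : Tendsto (fun x : ℝ => (x : ℂ)) (𝓝[>] 1) (𝓝[≠] (1 : ℂ)) := by
    rw [tendsto_nhdsWithin_iff]
    constructor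
    · have := Complex.continuous_ofReal.tendsto (1 : ℝ)
      rw [Complex.ofReal_one] at this
      exact this.mono_left nhdsWithin_le_nhds
    · filter_upwards [self_mem_nhdsWithin] with x hx h
      have hx' : (1 : ℝ) < x := hx
      have : x = 1 := by exact_mod_cast (mem_singleton_iff.1 h)
      linarith
  refine h3.frequently (Eventually.frequently ?_)
  filter_upwards [self_mem_nhdsWithin] with x hx
  have hx' : (1 : ℝ) < x := hx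
  exact heq x (by linarith)

/-- the places of small norm -/
noncomputable def sm (S : NormSys) : Finset S.X := (Pool.Agent.W263.EP.fin_norm S 3).toFinset

theorem gd (E : TData S (tn S (Bs : Set S.X) tr ω) D)
    (hB : ∀ v ∈ Bs, ∀ s : ℝ, (ω + 1) / 2 ≤ s →
      (B v).eval (((S.N v : ℕ) : ℂ) ^ (-(s : ℂ))) ≠ 0)
    (hF : Differentiable ℂ F) (hF2 : ∀ s : ℝ, (ω + 2) / 2 < s → F s = LFB S Bs B tr s) :
    GD (lamR S) (cc S (tn S (Bs : Set S.X) tr ω)) (PhiS S Bs B ω F)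
      (GG S (tn S (Bs : Set S.X) tr ω)) (sm S) := by
  refine ⟨sdataR E, fun i hi => ?_, countX S, PhiS_diff hF, fun w hw => ?_, fun w hw => ?_⟩
  · unfold sm at hi
    rw [Set.Finite.mem_toFinset] at hi
    simp only [mem_ofPred_eq, not_le] at hi
    unfold lamR
    rw [Real.le_log_iff_exp_le (by linarith)]
    have := Real.exp_one_lt_three
    linarith
  · rw [PhiS_eq E hB hF hF2 (by linarith)]
    exact Complex.exp_ne_zero _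
  · rw [LL_ser E (by linarith), PhiS_eq E hB hF hF2 (by linarith)]

/-- the sum over the good places of `ψ(log N / T)` times the logarithm of the inverse Euler factor
at the centre -/
noncomputable def cutS (S : NormSys) (Bs : Finset S.X) (tr : S.X → ℕ → ℝ) (ω : ℝ) (ψ : ℝ → ℝ)
    (T : ℝ) : ℝ :=
  ∑' x, if x ∈ Bs then 0 else ψ (Real.log (S.N x : ℝ) / T) * Real.log (ff0 S tr ω x)

theorem cutS_eq (ψ : ℝ → ℝ) (T : ℝ) : cutS S Bs tr ω ψ T =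
    wsum (lamR S) (cc S (tn S (Bs : Set S.X) tr ω)) ψ T := by
  unfold cutS wsum
  refine tsum_congr fun x => ?_
  unfold lamR
  by_cases hx : x ∈ Bs
  · rw [if_pos hx, cc_bad (show x ∈ (Bs : Set S.X) from hx), zero_mul]
  · rw [if_neg hx, ← cc_good (show x ∉ (Bs : Set S.X) from hx), Real.log_exp]
    ring

theorem free_F {s : ℂ} (h : PhiS S Bs B ω F (s - (((ω + 1) / 2 : ℝ) : ℂ)) ≠ 0) : F s ≠ 0 := by
  unfold PhiS at h
  rw [add_sub_cancel] at h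
  exact left_ne_zero_of_mul h

theorem real_F (hB : ∀ v ∈ Bs, ∀ s : ℝ, (ω + 1) / 2 ≤ s →
      (B v).eval (((S.N v : ℕ) : ℂ) ^ (-(s : ℂ))) ≠ 0)
    (h : ∀ σ : ℝ, (ω + 1) / 2 < σ → F σ ≠ 0) (x : ℝ) (hx : 0 < x) : PhiS S Bs B ω F x ≠ 0 := by
  unfold PhiS
  have e1 : (((ω + 1) / 2 : ℝ) : ℂ) + x = (((ω + 1) / 2 + x : ℝ) : ℂ) := by push_cast; rfl
  rw [e1]
  exact mul_ne_zero (h _ (by linarith)) (BB_real hB (by linarith))

theorem ord_F (hB : ∀ v ∈ Bs, ∀ s : ℝ, (ω + 1) / 2 ≤ s →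
      (B v).eval (((S.N v : ℕ) : ℂ) ^ (-(s : ℂ))) ≠ 0) (hF : Differentiable ℂ F) {m : ℕ}
    (h : analyticOrderAt (PhiS S Bs B ω F) 0 = m) :
    analyticOrderAt F (((ω + 1) / 2 : ℝ) : ℂ) = m := by
  set c : ℂ := (((ω + 1) / 2 : ℝ) : ℂ) with hc
  rw [((PhiS_diff hF).analyticAt 0).analyticOrderAt_eq_natCast] at h
  obtain ⟨g, hg, hg0, he⟩ := h
  rw [(hF.analyticAt c).analyticOrderAt_eq_natCast]
  have hBc : BB S Bs B c ≠ 0 := BB_real hB le_rfl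
  have hgc : AnalyticAt ℂ (fun z => g (z - c)) c := by
    refine AnalyticAt.fun_comp (g := g) (f := fun z : ℂ => z - c) ?_ (by fun_prop)
    rw [sub_self]
    exact hg
  refine ⟨fun z => g (z - c) / BB S Bs B z, hgc.div (BB_diff.analyticAt c) hBc, ?_, ?_⟩
  · simp only
    rw [sub_self]
    exact div_ne_zero hg0 hBc
  · have h1 : Tendsto (fun z : ℂ => z - c) (𝓝 c) (𝓝 0) := by
      have : Continuous fun z : ℂ => z - c := by fun_prop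
      have := this.tendsto c
      rwa [sub_self] at this
    have h2 : ∀ᶠ z in 𝓝 c, BB S Bs B z ≠ 0 :=
      (BB_diff (S := S) (Bs := Bs) (B := B)).continuous.continuousAt.eventually_ne hBc
    filter_upwards [h1.eventually he, h2] with z hz hz2
    have h3 : F z * BB S Bs B z = (z - c) ^ m * g (z - c) := by
      have h4 := hz
      unfold PhiS at h4
      rw [← hc, add_sub_cancel, sub_zero, smul_eq_mul] at h4
      exact h4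
    rw [smul_eq_mul]
    field_simp
    linear_combination h3

/-- **growth** -/
theorem growth (E : TData S (tn S (Bs : Set S.X) tr ω) D)
    (hB : ∀ v ∈ Bs, ∀ s : ℝ, (ω + 1) / 2 ≤ s →
      (B v).eval (((S.N v : ℕ) : ℂ) ^ (-(s : ℂ))) ≠ 0)
    (hF : Differentiable ℂ F) (hF2 : ∀ s : ℝ, (ω + 2) / 2 < s → F s = LFB S Bs B tr s)
    {ψ : ℝ → ℝ} (hψ : Measurable ψ) {M A : ℝ} (hb : ∀ x, |ψ x| ≤ M) (h0 : ∀ x, A < x → ψ x = 0)
    {α : ℝ} (hα : 0 < α) (hne : ¬ ∀ᵐ x : ℝ, α < x → ψ x = 0) {κ : ℝ} (hκ : 0 ≤ κ)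
    (hS : ∃ C T₀ : ℝ, ∀ T ≥ T₀, |cutS S Bs tr ω ψ T| ≤ C * Real.exp (κ * T)) :
    ∀ s : ℂ, (ω + 1) / 2 + κ / α < s.re → F s ≠ 0 := by
  intro s hs
  simp only [cutS_eq] at hS
  refine free_F (((gd E hB hF hF2).two_sided hψ hb h0 hα hne hκ hS).2 _ ?_)
  rw [Complex.sub_re, Complex.ofReal_re]
  linarith

/-- **one-sided growth** -/
theorem growth_one (E : TData S (tn S (Bs : Set S.X) tr ω) D)
    (hB : ∀ v ∈ Bs, ∀ s : ℝ, (ω + 1) / 2 ≤ s →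
      (B v).eval (((S.N v : ℕ) : ℂ) ^ (-(s : ℂ))) ≠ 0)
    (hF : Differentiable ℂ F) (hF2 : ∀ s : ℝ, (ω + 2) / 2 < s → F s = LFB S Bs B tr s)
    {ψ : ℝ → ℝ} (hψ : Measurable ψ) (hψ0 : ∀ x, 0 ≤ ψ x) {M A : ℝ} (hb : ∀ x, ψ x ≤ M)
    (h0 : ∀ x, A < x → ψ x = 0)
    {α : ℝ} (hα : 0 < α) (hne : ¬ ∀ᵐ x : ℝ, α < x → ψ x = 0) {κ : ℝ} (hκ : 0 ≤ κ)
    (hS : (∃ C T₀ : ℝ, ∀ T ≥ T₀, cutS S Bs tr ω ψ T ≤ C * Real.exp (κ * T)) ∨
      ((∀ σ : ℝ, (ω + 1) / 2 < σ → F σ ≠ 0) ∧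
        ∃ C T₀ : ℝ, ∀ T ≥ T₀, -(C * Real.exp (κ * T)) ≤ cutS S Bs tr ω ψ T)) :
    ∀ s : ℂ, (ω + 1) / 2 + κ / α < s.re → F s ≠ 0 := by
  intro s hs
  have hs' : κ / α < (s - (((ω + 1) / 2 : ℝ) : ℂ)).re := by
    rw [Complex.sub_re, Complex.ofReal_re]
    linarith
  simp only [cutS_eq] at hS
  rcases hS with ⟨C, T₀, h⟩ | ⟨hr, C, T₀, h⟩
  · exact free_F (((gd E hB hF hF2).one_sided hψ hψ0 hb h0 hα hne hκ (ε := 1) (Or.inl rfl)
      (fun h => absurd h (by norm_num)) ⟨C, T₀, fun T hT => by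
        rw [one_mul]; exact h T hT⟩).2 _ hs')
  · exact free_F (((gd E hB hF hF2).one_sided hψ hψ0 hb h0 hα hne hκ (ε := -1) (Or.inr rfl)
      (fun _ => real_F hB hr) ⟨C, T₀, fun T hT => by
        have := h T hT
        linarith⟩).2 _ hs')

theorem rh_of (h : ∀ ρ : ℂ, 0 < ρ.re → PhiS S Bs B ω F ρ ≠ 0) :
    ∀ s : ℂ, (ω + 1) / 2 < s.re → F s ≠ 0 := fun s hs =>
  free_F (h _ (by rw [Complex.sub_re, Complex.ofReal_re]; linarith))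

/-- **Goldfeld's theorem for every finite cut-off** -/
theorem goldfeld (E : TData S (tn S (Bs : Set S.X) tr ω) D)
    (hB : ∀ v ∈ Bs, ∀ s : ℝ, (ω + 1) / 2 ≤ s →
      (B v).eval (((S.N v : ℕ) : ℂ) ^ (-(s : ℂ))) ≠ 0)
    (hF : Differentiable ℂ F) (hF2 : ∀ s : ℝ, (ω + 2) / 2 < s → F s = LFB S Bs B tr s)
    {ψ : ℝ → ℝ} (hψ : Measurable ψ) {M A : ℝ} (hb : ∀ x, |ψ x| ≤ M) (h0 : ∀ x, A < x → ψ x = 0)
    (h1 : IntegrableOn (fun x : ℝ => (ψ x - 1) / x) (Ioc 0 1)) {k : ℝ}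
    (hk : Tendsto (fun T : ℝ => cutS S Bs tr ω ψ T / Real.log T) atTop (𝓝 k)) :
    (∀ s : ℂ, (ω + 1) / 2 < s.re → F s ≠ 0) ∧
      ∃ m : ℕ, analyticOrderAt F (((ω + 1) / 2 : ℝ) : ℂ) = m ∧ (m : ℝ) = k := by
  simp only [cutS_eq] at hk
  obtain ⟨h2, m, hm, hmk⟩ := (gd E hB hF hF2).goldfeld hψ hb h0 h1 hk
  exact ⟨rh_of h2, m, ord_F hB hF hm, hmk⟩

/-- **one-sided version from above** -/
theorem upper (E : TData S (tn S (Bs : Set S.X) tr ω) D)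
    (hB : ∀ v ∈ Bs, ∀ s : ℝ, (ω + 1) / 2 ≤ s →
      (B v).eval (((S.N v : ℕ) : ℂ) ^ (-(s : ℂ))) ≠ 0)
    (hF : Differentiable ℂ F) (hF2 : ∀ s : ℝ, (ω + 2) / 2 < s → F s = LFB S Bs B tr s)
    {ψ : ℝ → ℝ} (hψ : Measurable ψ) (hψ0 : ∀ x, 0 ≤ ψ x) {M A : ℝ} (hb : ∀ x, ψ x ≤ M)
    (h0 : ∀ x, A < x → ψ x = 0)
    (h1 : IntegrableOn (fun x : ℝ => (ψ x - 1) / x) (Ioc 0 1)) {κ : ℝ}
    (hk : ∀ᶠ T : ℝ in atTop, cutS S Bs tr ω ψ T ≤ κ * Real.log T) :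
    (∀ s : ℂ, (ω + 1) / 2 < s.re → F s ≠ 0) ∧
      ∃ m : ℕ, analyticOrderAt F (((ω + 1) / 2 : ℝ) : ℂ) = m ∧ (m : ℝ) ≤ κ := by
  simp only [cutS_eq] at hk
  obtain ⟨h2, m, hm, hmk⟩ := (gd E hB hF hF2).upper hψ hψ0 hb h0 h1 hk
  exact ⟨rh_of h2, m, ord_F hB hF hm, hmk⟩

/-- **one-sided version from below** -/
theorem lower (E : TData S (tn S (Bs : Set S.X) tr ω) D)
    (hB : ∀ v ∈ Bs, ∀ s : ℝ, (ω + 1) / 2 ≤ s →
      (B v).eval (((S.N v : ℕ) : ℂ) ^ (-(s : ℂ))) ≠ 0)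
    (hF : Differentiable ℂ F) (hF2 : ∀ s : ℝ, (ω + 2) / 2 < s → F s = LFB S Bs B tr s)
    {ψ : ℝ → ℝ} (hψ : Measurable ψ) (hψ0 : ∀ x, 0 ≤ ψ x) {M A : ℝ} (hb : ∀ x, ψ x ≤ M)
    (h0 : ∀ x, A < x → ψ x = 0)
    (h1 : IntegrableOn (fun x : ℝ => (ψ x - 1) / x) (Ioc 0 1)) {κ : ℝ}
    (hr : ∀ σ : ℝ, (ω + 1) / 2 < σ → F σ ≠ 0)
    (hk : ∀ᶠ T : ℝ in atTop, κ * Real.log T ≤ cutS S Bs tr ω ψ T) :
    (∀ s : ℂ, (ω + 1) / 2 < s.re → F s ≠ 0) ∧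
      ∃ m : ℕ, analyticOrderAt F (((ω + 1) / 2 : ℝ) : ℂ) = m ∧ κ ≤ (m : ℝ) := by
  simp only [cutS_eq] at hk
  obtain ⟨h2, m, hm, hmk⟩ := (gd E hB hF hF2).lower hψ hψ0 hb h0 h1 (real_F hB hr) hk
  exact ⟨rh_of h2, m, ord_F hB hF hm, hmk⟩

/-- the order is finite -/
theorem order_fin (E : TData S (tn S (Bs : Set S.X) tr ω) D)
    (hB : ∀ v ∈ Bs, ∀ s : ℝ, (ω + 1) / 2 ≤ s →
      (B v).eval (((S.N v : ℕ) : ℂ) ^ (-(s : ℂ))) ≠ 0)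
    (hF : Differentiable ℂ F) (hF2 : ∀ s : ℝ, (ω + 2) / 2 < s → F s = LFB S Bs B tr s) :
    ∃ m : ℕ, analyticOrderAt F (((ω + 1) / 2 : ℝ) : ℂ) = m := by
  have D' := gd E hB hF hF2
  obtain ⟨m, Q, hQd, hQ0, -, hQe⟩ := exists_quot' D'.hΦ (D'.h1 2 (by norm_num)) 0
  refine ⟨m, ord_F hB hF ?_⟩
  rw [(D'.hΦ.analyticAt 0).analyticOrderAt_eq_natCast]
  exact ⟨Q, hQd.analyticAt 0, hQ0, Eventually.of_forall fun z => by
    rw [smul_eq_mul]; exact hQe z⟩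

end Pool.Agent.W189.FC.Mot
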