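import Pool.Agent.W189.FC.Data
import Pool.Agent.W263.BSD.Core

/-! One-sided bounds for nonnegative cut-offs. -/

set_option autoImplicit false

namespace Pool.Agent.W189.FC

open MeasureTheory Filter Topology Set
open Pool.Agent.W263.BSD (LInt lapC lapC_ofReal lapC_differentiableAt landau dens dens_pos
  mem_integrableExpSet_dens mgf_dens isOpen_half preconn_half)

variable {ι : Type} {lam c : ι → ℝ}

/-- the exact starting point of a weight -/
theorem exists_start {v : ℝ → ℂ} {B a : ℝ} (V : Vw v B a) {b : ℝ}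
    (hne : ¬ ∀ᵐ t : ℝ, t ∈ Ioo 0 b → v t = 0) :
    ∃ A : ℝ, a ≤ A ∧ A ≤ b ∧ (∀ᵐ t : ℝ, t ∈ Ioo 0 A → v t = 0) ∧
      ∀ y : ℝ, A < y → ¬ ∀ᵐ t : ℝ, t ∈ Ioo 0 y → v t = 0 := by
  set Z : Set ℝ := {y | ∀ᵐ t : ℝ, t ∈ Ioo 0 y → v t = 0} with hZ
  have haZ : a ∈ Z := by
    show ∀ᵐ t : ℝ, t ∈ Ioo 0 a → v t = 0
    exact Eventually.of_forall fun t ht => V.zero t ht.1 ht.2
  have hmono : ∀ x y : ℝ, x ≤ y → y ∈ Z → x ∈ Z := by
    intro x y hxy hy
    have hy' : ∀ᵐ t : ℝ, t ∈ Ioo 0 y → v t = 0 := hy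
    show ∀ᵐ t : ℝ, t ∈ Ioo 0 x → v t = 0
    filter_upwards [hy'] with t ht h
    exact ht ⟨h.1, h.2.trans_le hxy⟩
  have hbdd : ∀ y ∈ Z, y < b := by
    intro y hy
    by_contra hc
    push Not at hc
    exact hne (hmono b y hc hy)
  have hbdd' : BddAbove Z := ⟨b, fun y hy => (hbdd y hy).le⟩
  refine ⟨sSup Z, le_csSup hbdd' haZ, csSup_le ⟨a, haZ⟩ fun y hy => (hbdd y hy).le, ?_, ?_⟩
  · have h2 : ∀ n : ℕ, ∀ᵐ t : ℝ, t ∈ Ioo 0 (sSup Z - 1 / ((n : ℝ) + 1)) → v t = 0 := by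
      intro n
      have h3 : sSup Z - 1 / ((n : ℝ) + 1) < sSup Z := by
        have : (0 : ℝ) < 1 / ((n : ℝ) + 1) := by positivity
        linarith
      obtain ⟨y, hy, hy2⟩ := exists_lt_of_lt_csSup ⟨a, haZ⟩ h3
      exact hmono _ y hy2.le hy
    filter_upwards [ae_all_iff.2 h2] with t ht h
    obtain ⟨n, hn⟩ := exists_nat_one_div_lt (show 0 < sSup Z - t by linarith [h.2])
    exact ht n ⟨h.1, by linarith⟩
  · intro y hy h
    have := le_csSup hbdd' (show y ∈ Z from h)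
    linarith

/-- division by the power of a zero, possibly of order `0` -/
theorem exists_quot' {Φ : ℂ → ℂ} (hΦ : Differentiable ℂ Φ) {z₁ : ℂ} (hz₁ : Φ z₁ ≠ 0) (ρ : ℂ) :
    ∃ (m : ℕ) (Q : ℂ → ℂ), Differentiable ℂ Q ∧ Q ρ ≠ 0 ∧ (m = 0 → Φ ρ ≠ 0) ∧
      ∀ w, Φ w = (w - ρ) ^ m * Q w := by
  by_cases h : Φ ρ = 0
  · obtain ⟨m, Q, h1, h2, h3, h4⟩ := exists_quot hΦ hz₁ h
    exact ⟨m, Q, h2, h3, fun h => absurd h h1, h4⟩
  · exact ⟨0, Φ, hΦ, h, fun _ => h, fun w => by simp⟩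

/-- the model of the contribution of a real zero -/
noncomputable def mdl (w : ℝ → ℝ) (a t₁ x₀ : ℝ) (T : ℝ) : ℝ :=
  ∫ t in Icc a t₁, w t⁻¹ * t⁻¹ * Real.exp (x₀ * T / t)

theorem mdl_meas {w : ℝ → ℝ} (hw : Measurable w) (a t₁ x₀ : ℝ) : Measurable (mdl w a t₁ x₀) := by
  have h : StronglyMeasurable (fun q : ℝ × ℝ => w q.2⁻¹ * q.2⁻¹ * Real.exp (x₀ * q.1 / q.2)) := by
    refine Measurable.stronglyMeasurable ?_
    refine ((hw.comp (measurable_snd.inv)).mul measurable_snd.inv).mul ?_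
    exact Real.measurable_exp.comp ((measurable_fst.const_mul _).div measurable_snd)
  exact (h.integral_prod_right (ν := volume.restrict (Icc a t₁))).measurable

theorem mdl_nonneg {w : ℝ → ℝ} (hw0 : ∀ x, 0 ≤ w x) {a t₁ x₀ : ℝ} (ha : 0 < a) (T : ℝ) :
    0 ≤ mdl w a t₁ x₀ T := by
  unfold mdl
  refine setIntegral_nonneg measurableSet_Icc fun t ht => ?_
  have : 0 < t := ha.trans_le ht.1
  have := hw0 t⁻¹
  positivity

theorem mdl_lap {w : ℝ → ℝ} (hw : Measurable w) (hw0 : ∀ x, 0 ≤ w x) {B : ℝ} (hb : ∀ x, w x ≤ B)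
    {a t₁ x₀ : ℝ} (ha : 0 < a) {x : ℝ} (hx : x₀ < x * a) (hx0 : 0 < x) :
    LInt (mdl w a t₁ x₀) x ∧
      Pool.Agent.W263.BSD.lap (mdl w a t₁ x₀) x = ∫ t in Icc a t₁, w t⁻¹ / (x * t - x₀) := by
  have hB : 0 ≤ B := (hw0 0).trans (hb 0)
  have hpos : ∀ t ∈ Icc a t₁, 0 < t ∧ 0 < x * t - x₀ ∧ 0 < x - x₀ / t := by
    intro t ht
    have h1 : 0 < t := ha.trans_le ht.1
    have h2 : x * a ≤ x * t := mul_le_mul_of_nonneg_left ht.1 hx0.le
    refine ⟨h1, by linarith, ?_⟩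
    rw [sub_pos, div_lt_iff₀ h1]
    linarith
  -- integrability on the product
  have hint : Integrable (fun q : ℝ × ℝ => w q.2⁻¹ * q.2⁻¹ * Real.exp (x₀ * q.1 / q.2) *
      Real.exp (-(x * q.1))) ((volume.restrict (Ioi 0)).prod (volume.restrict (Icc a t₁))) := by
    have hm : AEStronglyMeasurable (fun q : ℝ × ℝ => w q.2⁻¹ * q.2⁻¹ * Real.exp (x₀ * q.1 / q.2) *
      Real.exp (-(x * q.1))) ((volume.restrict (Ioi 0)).prod (volume.restrict (Icc a t₁))) := by
      refine Measurable.aestronglyMeasurable ?_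
      refine (((hw.comp (measurable_snd.inv)).mul measurable_snd.inv).mul ?_).mul ?_
      · exact Real.measurable_exp.comp ((measurable_fst.const_mul _).div measurable_snd)
      · fun_prop
    set δ : ℝ := (x * a - x₀) / t₁ with hδ
    by_cases ht1 : a ≤ t₁
    · have ht10 : 0 < t₁ := ha.trans_le ht1
      have hδ0 : 0 < δ := by rw [hδ]; exact div_pos (by linarith) ht10
      have hdom : Integrable (fun q : ℝ × ℝ => Real.exp (-δ * q.1) * (B * a⁻¹))
          ((volume.restrict (Ioi 0)).prod (volume.restrict (Icc a t₁))) := by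
        have e1 : Integrable (fun T : ℝ => Real.exp (-δ * T)) (volume.restrict (Ioi 0)) :=
          integrableOn_exp_mul_Ioi (by linarith) 0
        have e2 : Integrable (fun _ : ℝ => B * a⁻¹) (volume.restrict (Icc a t₁)) :=
          integrable_const _
        exact e1.mul_prod e2
      refine Integrable.mono' hdom hm ?_
      rw [Measure.prod_restrict, ae_restrict_iff' (measurableSet_Ioi.prod measurableSet_Icc)]
      refine Eventually.of_forall ?_
      rintro ⟨T, t⟩ ⟨hT, ht⟩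
      have hT0 : (0 : ℝ) < T := hT
      obtain ⟨p1, p2, p3⟩ := hpos t ht
      have hw1 := hw0 t⁻¹
      simp only
      rw [Real.norm_eq_abs, abs_of_nonneg (by positivity), mul_assoc, ← Real.exp_add]
      have e3 : x₀ * T / t + -(x * T) ≤ -δ * T := by
        have e4 : x₀ * T / t + -(x * T) = -((x * t - x₀) / t) * T := by field_simp; ring
        rw [e4]
        refine mul_le_mul_of_nonneg_right ?_ hT0.le
        rw [neg_le_neg_iff, hδ, div_le_div_iff₀ ht10 p1]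
        have h5 : x * a ≤ x * t := mul_le_mul_of_nonneg_left ht.1 hx0.le
        have h6 : 0 < x * a - x₀ := by linarith
        calc (x * a - x₀) * t ≤ (x * a - x₀) * t₁ := mul_le_mul_of_nonneg_left ht.2 h6.le
          _ ≤ (x * t - x₀) * t₁ := mul_le_mul_of_nonneg_right (by linarith) ht10.le
      have e5 : w t⁻¹ * t⁻¹ ≤ B * a⁻¹ :=
        mul_le_mul (hb _) (inv_anti₀ ha ht.1) (by positivity) hB
      calc w t⁻¹ * t⁻¹ * Real.exp (x₀ * T / t + -(x * T)) ≤ (B * a⁻¹) * Real.exp (-δ * T) :=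
            mul_le_mul e5 (Real.exp_le_exp.2 e3) (Real.exp_pos _).le (by positivity)
        _ = _ := by ring
    · have : Icc a t₁ = ∅ := Icc_eq_empty ht1
      rw [this]
      simp
  have hkey : ∀ t ∈ Icc a t₁, ∫ T in Ioi (0 : ℝ), w t⁻¹ * t⁻¹ * Real.exp (x₀ * T / t) *
      Real.exp (-(x * T)) = w t⁻¹ / (x * t - x₀) := by
    intro t ht
    obtain ⟨p1, p2, p3⟩ := hpos t ht
    have e1 : (fun T : ℝ => w t⁻¹ * t⁻¹ * Real.exp (x₀ * T / t) * Real.exp (-(x * T))) =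
        fun T : ℝ => (w t⁻¹ * t⁻¹) * Real.exp (-(x - x₀ / t) * T) := by
      funext T
      rw [mul_assoc, ← Real.exp_add]
      congr 2
      field_simp
      ring
    rw [e1, integral_const_mul, integral_exp_mul_Ioi (by linarith) 0, mul_zero, Real.exp_zero]
    field_simp
  constructor
  · unfold LInt mdl IntegrableOn
    have h1 := hint.integral_prod_left
    refine h1.congr (Eventually.of_forall fun T => ?_)
    simp only
    rw [integral_mul_const]
  · unfold Pool.Agent.W263.BSD.lap mdl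
    have h1 : ∫ T in Ioi (0 : ℝ), (∫ t in Icc a t₁, w t⁻¹ * t⁻¹ * Real.exp (x₀ * T / t)) *
        Real.exp (-(x * T)) = ∫ T in Ioi (0 : ℝ), ∫ t in Icc a t₁, w t⁻¹ * t⁻¹ *
        Real.exp (x₀ * T / t) * Real.exp (-(x * T)) := by
      congr 1
      funext T
      rw [integral_mul_const]
    rw [h1, integral_integral_swap hint]
    exact setIntegral_congr_fun measurableSet_Icc fun t ht => hkey t ht

end Pool.Agent.W189.FC
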