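import Pool.Agent.W189.FC.Laplace

/-! The Laplace transform of the weighted sums. -/

set_option autoImplicit false

namespace Pool.Agent.W189.FC

open MeasureTheory Filter Topology Set

variable {ι : Type} {lam c : ι → ℝ} {H : ℂ → ℂ}

/-- the weighted sums -/
noncomputable def wsum (lam c : ι → ℝ) (w : ℝ → ℝ) (T : ℝ) : ℝ := ∑' i, c i * w (lam i / T)

/-- the data of a generalised Dirichlet series; `H` is minus its derivative -/
structure CData (lam c : ι → ℝ) (H : ℂ → ℂ) : Prop where
  lam_ge : ∀ i, 1 ≤ lam i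
  sum : Summable fun i => |c i| * Real.exp (-(2 * lam i))
  ser : ∀ s : ℂ, 3 ≤ s.re → HasSum (fun i => (c i : ℂ) * lam i * Complex.exp (-(s * lam i))) (H s)

/-- the multiplicative transform -/
noncomputable def mel (H : ℂ → ℂ) (v : ℝ → ℂ) (z : ℂ) : ℂ := ∫ t in Ioi (0 : ℝ), v t * H (z * t)

structure Vw (v : ℝ → ℂ) (B a : ℝ) : Prop where
  meas : Measurable v
  bdd : ∀ t, ‖v t‖ ≤ B
  a_pos : 0 < a
  zero : ∀ t, 0 < t → t < a → v t = 0

theorem CData.term_bound (D : CData lam c H) {v : ℝ → ℂ} {B a : ℝ} (V : Vw v B a) {z : ℂ}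
    (hz : 3 ≤ z.re * a) (i : ι) :
    ∫ t in Ioi (0 : ℝ), ‖((c i : ℂ) * lam i) * (v t * Complex.exp (-(z * lam i * t)))‖ ≤
      (B * a / 3) * (|c i| * Real.exp (-(2 * lam i))) := by
  have hl := D.lam_ge i
  have ha := V.a_pos
  have hB : 0 ≤ B := (norm_nonneg _).trans (V.bdd 0)
  have hz0 : 0 < z.re := by
    by_contra h
    push Not at h
    nlinarith
  have h1 : (fun t : ℝ => ‖((c i : ℂ) * lam i) * (v t * Complex.exp (-(z * lam i * t)))‖) =
      fun t : ℝ => (|c i| * lam i) * ‖v t * Complex.exp (-((z * lam i) * t))‖ := by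
    funext t
    rw [norm_mul, norm_mul, Complex.norm_real, Complex.norm_real, Real.norm_eq_abs,
      Real.norm_eq_abs, abs_of_pos (by linarith : 0 < lam i)]
  rw [h1, integral_const_mul]
  have hzr : (z * lam i).re = z.re * lam i := by simp
  have h2 := lap_int_norm_le (f := v) (B := B) (a := a) ha.le
    (Eventually.of_forall V.bdd) (by
      filter_upwards [ae_restrict_mem measurableSet_Ioi] with t ht hta
      exact V.zero t ht hta) (z := z * lam i) (by rw [hzr]; positivity)
  rw [hzr] at h2
  calc (|c i| * lam i) * ∫ t in Ioi (0 : ℝ), ‖v t * Complex.exp (-((z * lam i) * t))‖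
      ≤ (|c i| * lam i) * (B * (Real.exp (-(z.re * lam i * a)) / (z.re * lam i))) :=
        mul_le_mul_of_nonneg_left h2 (by positivity)
    _ = (B / z.re) * (|c i| * Real.exp (-(z.re * lam i * a))) := by
        field_simp
    _ ≤ (B * a / 3) * (|c i| * Real.exp (-(2 * lam i))) := by
        have e1 : B / z.re ≤ B * a / 3 := by
          rw [div_le_div_iff₀ hz0 (by norm_num)]
          nlinarith
        have e2 : Real.exp (-(z.re * lam i * a)) ≤ Real.exp (-(2 * lam i)) := by
          apply Real.exp_le_exp.2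
          nlinarith
        exact mul_le_mul e1 (mul_le_mul_of_nonneg_left e2 (abs_nonneg _)) (by positivity)
          (by positivity)

theorem CData.term_int (D : CData lam c H) {v : ℝ → ℂ} {B a : ℝ} (V : Vw v B a) {z : ℂ}
    (hz : 3 ≤ z.re * a) (i : ι) :
    IntegrableOn (fun t : ℝ => ((c i : ℂ) * lam i) * (v t * Complex.exp (-(z * lam i * t))))
      (Ioi 0) := by
  have hl := D.lam_ge i
  have ha := V.a_pos
  have hz0 : 0 < z.re := by
    by_contra h
    push Not at h
    nlinarith
  have hzr : (z * lam i).re = z.re * lam i := by simp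
  refine Integrable.const_mul ?_ _
  refine lap_integrable (f := v) (C := B) (c := 0) V.meas.aestronglyMeasurable
    (Eventually.of_forall fun T => ?_) (z := z * lam i) (by rw [hzr]; positivity)
  rw [zero_mul, Real.exp_zero, mul_one]
  exact V.bdd T

/-- the series of the transform -/
theorem CData.mel_hasSum [Countable ι] (D : CData lam c H) {v : ℝ → ℂ} {B a : ℝ} (V : Vw v B a)
    {z : ℂ} (hz : 3 ≤ z.re * a) :
    HasSum (fun i => ((c i : ℂ) * lam i) * lap v (z * lam i)) (mel H v z) := by
  have ha := V.a_pos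
  have hz0 : 0 < z.re := by
    by_contra h
    push Not at h
    nlinarith
  have h1 := hasSum_integral_of_summable_integral_norm (μ := volume.restrict (Ioi (0 : ℝ)))
    (F := fun (i : ι) (t : ℝ) => ((c i : ℂ) * lam i) * (v t * Complex.exp (-(z * lam i * t))))
    (D.term_int V hz) (Summable.of_nonneg_of_le
      (fun i => integral_nonneg fun t => norm_nonneg _) (D.term_bound V hz)
      (D.sum.mul_left _))
  have h2 : ∫ t in Ioi (0 : ℝ), ∑' i, ((c i : ℂ) * lam i) *
      (v t * Complex.exp (-(z * lam i * t))) = mel H v z := by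
    unfold mel
    refine setIntegral_congr_fun measurableSet_Ioi fun t ht => ?_
    have ht0 : (0 : ℝ) < t := ht
    by_cases hta : t < a
    · simp only [V.zero t ht0 hta, zero_mul, mul_zero, tsum_zero]
    · push Not at hta
      have h3 : (3 : ℝ) ≤ (z * t).re := by
        rw [Complex.re_mul_ofReal]
        nlinarith
      have h4 := (D.ser (z * t) h3).mul_left (v t)
      rw [← h4.tsum_eq]
      refine tsum_congr fun i => ?_
      rw [show z * (lam i : ℂ) * (t : ℂ) = z * t * lam i by ring]
      ring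
  rw [h2] at h1
  have h3 : (fun i => ∫ t in Ioi (0 : ℝ), ((c i : ℂ) * lam i) *
      (v t * Complex.exp (-(z * lam i * t)))) =
      fun i => ((c i : ℂ) * lam i) * lap v (z * lam i) := by
    funext i
    rw [integral_const_mul]
    rfl
  rw [h3] at h1
  exact h1

theorem CData.term_lap_bound (D : CData lam c H) {v : ℝ → ℂ} {B a : ℝ} (V : Vw v B a) {z : ℂ}
    (hz : 3 ≤ z.re * a) (i : ι) :
    ‖((c i : ℂ) * lam i) * lap v (z * lam i)‖ ≤
      (B * a / 3) * (|c i| * Real.exp (-(2 * lam i))) := by
  refine le_trans ?_ (D.term_bound V hz i)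
  refine le_trans (le_of_eq ?_) (norm_integral_le_integral_norm _)
  rw [integral_const_mul]
  rfl

/-- the transform is holomorphic far to the right -/
theorem CData.mel_diff [Countable ι] (D : CData lam c H) {v : ℝ → ℂ} {B a : ℝ} (V : Vw v B a)
    {z : ℂ} (hz : 3 < z.re * a) : DifferentiableAt ℂ (mel H v) z := by
  have ha := V.a_pos
  have hopen : IsOpen {z : ℂ | 3 < z.re * a} :=
    isOpen_lt continuous_const (Complex.continuous_re.mul continuous_const)
  have h1 : DifferentiableOn ℂ (fun z => ∑' i, ((c i : ℂ) * lam i) * lap v (z * lam i))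
      {z : ℂ | 3 < z.re * a} := by
    refine Complex.differentiableOn_tsum_of_summable_norm
      (u := fun i => (B * a / 3) * (|c i| * Real.exp (-(2 * lam i)))) (D.sum.mul_left _) ?_ hopen ?_
    · intro i w hw
      have hw' : 3 < w.re * a := hw
      have hl := D.lam_ge i
      have hw0 : 0 < w.re := by
        by_contra h
        push Not at h
        nlinarith
      have hzr : (w * lam i).re = w.re * lam i := by simp
      have hd := lap_differentiableAt (f := v) (C := B) (c := 0) V.meas.aestronglyMeasurable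
        (Eventually.of_forall fun T => by
          rw [zero_mul, Real.exp_zero, mul_one]
          exact V.bdd T) (z := w * lam i) (by rw [hzr]; positivity)
      have h2 : DifferentiableAt ℂ (fun z : ℂ => lap v (z * lam i)) w :=
        DifferentiableAt.fun_comp' w hd (by fun_prop)
      exact (h2.const_mul _).differentiableWithinAt
    · intro i w hw
      exact D.term_lap_bound V (le_of_lt hw) i
  have h2 : DifferentiableAt ℂ (fun z => ∑' i, ((c i : ℂ) * lam i) * lap v (z * lam i)) z :=
    h1.differentiableAt (hopen.mem_nhds hz)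
  refine h2.congr_of_eventuallyEq ?_
  filter_upwards [hopen.mem_nhds hz] with w hw
  exact (D.mel_hasSum V (le_of_lt hw)).tsum_eq.symm

/-- exponential decay of `H` -/
theorem CData.H_bound (D : CData lam c H) : ∃ C : ℝ, 0 ≤ C ∧ ∀ s : ℂ, 3 ≤ s.re →
    ‖H s‖ ≤ C * Real.exp (3 - s.re) := by
  refine ⟨∑' i, |c i| * Real.exp (-(2 * lam i)), tsum_nonneg fun i => by positivity,
    fun s hs => ?_⟩
  rw [← (D.ser s hs).tsum_eq, ← tsum_mul_right]
  refine tsum_of_norm_bounded (D.sum.mul_right _).hasSum fun i => ?_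
  have hl := D.lam_ge i
  rw [norm_mul, norm_mul, Complex.norm_real, Complex.norm_real, Real.norm_eq_abs,
    Real.norm_eq_abs, abs_of_pos (by linarith : 0 < lam i), Complex.norm_exp]
  have e1 : (-(s * lam i)).re = -(s.re * lam i) := by simp
  rw [e1]
  have e2 : lam i ≤ Real.exp (lam i) := by
    have := Real.add_one_le_exp (lam i)
    linarith
  have e3 : Real.exp (-(s.re * lam i)) ≤ Real.exp (-(3 * lam i)) * Real.exp (3 - s.re) := by
    rw [← Real.exp_add]
    apply Real.exp_le_exp.2
    nlinarith
  have e4 : Real.exp (-(3 * lam i)) = Real.exp (-(2 * lam i)) * Real.exp (-(lam i)) := by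
    rw [← Real.exp_add]; congr 1; ring
  have e5 : lam i * Real.exp (-(lam i)) ≤ 1 := by
    rw [Real.exp_neg, ← div_eq_mul_inv, div_le_one (Real.exp_pos _)]
    exact e2
  calc |c i| * lam i * Real.exp (-(s.re * lam i))
      ≤ |c i| * lam i * (Real.exp (-(3 * lam i)) * Real.exp (3 - s.re)) :=
        mul_le_mul_of_nonneg_left e3 (by positivity)
    _ = (|c i| * Real.exp (-(2 * lam i)) * Real.exp (3 - s.re)) * (lam i * Real.exp (-(lam i))) := by
        rw [e4]; ring
    _ ≤ (|c i| * Real.exp (-(2 * lam i)) * Real.exp (3 - s.re)) * 1 :=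
        mul_le_mul_of_nonneg_left e5 (by positivity)
    _ = |c i| * Real.exp (-(2 * lam i)) * Real.exp (3 - s.re) := mul_one _

/-- the Laplace transform of the weighted sums -/
theorem CData.lap_wsum [Countable ι] (D : CData lam c H) {w : ℝ → ℝ} (hw : Measurable w) {B A : ℝ}
    (hA : 0 < A) (hb : ∀ x, |w x| ≤ B) (h0 : ∀ x, A < x → w x = 0) {z : ℂ} (hz : 3 * A ≤ z.re) :
    lap (fun T => (wsum lam c w T : ℂ)) z = mel H (fun t => (w t⁻¹ : ℂ)) z := by
  have hB : 0 ≤ B := (abs_nonneg _).trans (hb 0)
  have hz0 : 0 < z.re := by nlinarith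
  have V : Vw (fun t => (w t⁻¹ : ℂ)) B A⁻¹ := by
    refine ⟨?_, fun t => ?_, inv_pos.2 hA, fun t ht hta => ?_⟩
    · exact Complex.measurable_ofReal.comp (hw.comp measurable_inv)
    · rw [Complex.norm_real, Real.norm_eq_abs]; exact hb _
    · rw [h0 t⁻¹, Complex.ofReal_zero]
      rw [lt_inv_comm₀ hA ht]
      exact hta
  have hz3 : 3 ≤ z.re * A⁻¹ := by
    rw [← div_eq_mul_inv, le_div_iff₀ hA]
    exact hz
  rw [← (D.mel_hasSum V hz3).tsum_eq]
  have hterm : ∀ i, ((c i : ℂ) * lam i) * lap (fun t => (w t⁻¹ : ℂ)) (z * lam i) =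
      ∫ T in Ioi (0 : ℝ), (c i : ℂ) * ((w (lam i / T) : ℂ) * Complex.exp (-(z * T))) := by
    intro i
    have hl : 0 < lam i := by linarith [D.lam_ge i]
    rw [mul_assoc, ← lap_scale _ hl z, integral_const_mul]
    unfold lap
    congr 1
    refine setIntegral_congr_fun measurableSet_Ioi fun T _ => ?_
    simp only [inv_div]
  have hbound : ∀ i, ∫ T in Ioi (0 : ℝ),
      ‖(c i : ℂ) * ((w (lam i / T) : ℂ) * Complex.exp (-(z * T)))‖ ≤
      (B / z.re) * (|c i| * Real.exp (-(2 * lam i))) := by
    intro i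
    have hl : 1 ≤ lam i := D.lam_ge i
    have h1 : (fun T : ℝ => ‖(c i : ℂ) * ((w (lam i / T) : ℂ) * Complex.exp (-(z * T)))‖) =
        fun T : ℝ => |c i| * ‖(w (lam i / T) : ℂ) * Complex.exp (-(z * T))‖ := by
      funext T
      rw [norm_mul, Complex.norm_real, Real.norm_eq_abs]
    rw [h1, integral_const_mul]
    have h2 := lap_int_norm_le (f := fun T => (w (lam i / T) : ℂ)) (B := B) (a := lam i / A)
      (by positivity) (Eventually.of_forall fun T => by
        rw [Complex.norm_real, Real.norm_eq_abs]; exact hb _) (by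
        filter_upwards [ae_restrict_mem measurableSet_Ioi] with T hT hTa
        have hT0 : (0 : ℝ) < T := hT
        rw [h0 _ (by rw [lt_div_iff₀ hT0]; rw [lt_div_iff₀ hA] at hTa; linarith),
          Complex.ofReal_zero]) hz0
    calc |c i| * ∫ T in Ioi (0 : ℝ), ‖(w (lam i / T) : ℂ) * Complex.exp (-(z * T))‖
        ≤ |c i| * (B * (Real.exp (-(z.re * (lam i / A))) / z.re)) :=
          mul_le_mul_of_nonneg_left h2 (abs_nonneg _)
      _ = (B / z.re) * (|c i| * Real.exp (-(z.re * (lam i / A)))) := by ring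
      _ ≤ (B / z.re) * (|c i| * Real.exp (-(2 * lam i))) := by
          refine mul_le_mul_of_nonneg_left (mul_le_mul_of_nonneg_left ?_ (abs_nonneg _))
            (by positivity)
          apply Real.exp_le_exp.2
          have : 3 * lam i ≤ z.re * (lam i / A) := by
            rw [mul_div_assoc', le_div_iff₀ hA]
            nlinarith
          linarith
  have hint : ∀ i, IntegrableOn (fun T : ℝ =>
      (c i : ℂ) * ((w (lam i / T) : ℂ) * Complex.exp (-(z * T)))) (Ioi 0) := by
    intro i
    refine Integrable.const_mul ?_ _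
    refine lap_integrable (f := fun T => (w (lam i / T) : ℂ)) (C := B) (c := 0) ?_
      (Eventually.of_forall fun T => ?_) (z := z) hz0
    · exact (Complex.measurable_ofReal.comp
        (hw.comp (measurable_const.div measurable_id))).aestronglyMeasurable
    · rw [zero_mul, Real.exp_zero, mul_one, Complex.norm_real, Real.norm_eq_abs]
      exact hb _
  have h1 := hasSum_integral_of_summable_integral_norm (μ := volume.restrict (Ioi (0 : ℝ)))
    (F := fun (i : ι) (T : ℝ) => (c i : ℂ) * ((w (lam i / T) : ℂ) * Complex.exp (-(z * T))))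
    hint (Summable.of_nonneg_of_le (fun i => integral_nonneg fun t => norm_nonneg _) hbound
      (D.sum.mul_left _))
  have h2 : (fun i => ((c i : ℂ) * lam i) * lap (fun t => (w t⁻¹ : ℂ)) (z * lam i)) =
      fun i => ∫ T in Ioi (0 : ℝ), (c i : ℂ) * ((w (lam i / T) : ℂ) * Complex.exp (-(z * T))) :=
    funext hterm
  rw [h2, h1.tsum_eq]
  unfold lap
  refine setIntegral_congr_fun measurableSet_Ioi fun T _ => ?_
  simp only [wsum]
  rw [Complex.ofReal_tsum, ← tsum_mul_right]
  refine tsum_congr fun i => ?_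
  push_cast
  ring

end Pool.Agent.W189.FC
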