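import Pool.Agent.W189.FC.One
import Pool.Agent.W189.FC.Abel
import Pool.Agent.W263.BSD.Asy

/-! One-sided bounds for nonnegative cut-offs: the theorem of Landau. -/

set_option autoImplicit false

namespace Pool.Agent.W189.FC

open MeasureTheory Filter Topology Set
open Pool.Agent.W263.BSD (LInt lapC lapC_ofReal lapC_differentiableAt landau dens dens_pos
  mem_integrableExpSet_dens mgf_dens ex ex_meas ex_LInt ex_lap)

variable {ι : Type} {lam c : ι → ℝ}

/-- **One-sided bounds force convergence.** -/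
theorem CData.conv_of_onesided [Countable ι] {H : ℂ → ℂ} (D : CData lam c H) {Φ G : ℂ → ℂ}
    (hΦ : Differentiable ℂ Φ) (h1 : ∀ w : ℂ, 1 < w.re → Φ w ≠ 0)
    (hG : ∀ w : ℂ, 0 < w.re → DifferentiableAt ℂ G w)
    (hH : ∀ s : ℂ, 0 < s.re → H s = logDeriv Φ s - deriv G s)
    {w : ℝ → ℝ} (hw : Measurable w) (hw0 : ∀ x, 0 ≤ w x) {B A : ℝ} (hA : 0 < A)
    (hb : ∀ x, w x ≤ B) (h0 : ∀ x, A < x → w x = 0)
    {S : ℝ → ℝ} (hSmeas : Measurable S) {X : ℝ} (hSX : ∀ x > X, LInt S x)
    (hSm : ∀ z : ℂ, X ≤ z.re → lapC S z = mel H (fun t => (w t⁻¹ : ℂ)) z)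
    {b : ℝ} (hne : ¬ ∀ᵐ t : ℝ, t ∈ Ioo 0 b → (w t⁻¹ : ℂ) = 0)
    {κ C : ℝ} (hκ : 0 ≤ κ) {ε : ℝ} (hε : ε = 1 ∨ ε = -1)
    (hup : ∀ T, 0 < T → ε * S T ≤ C * Real.exp (κ * T))
    (hreal : ε = -1 → ∀ x : ℝ, 0 < x → Φ x ≠ 0) :
    ∀ x > κ, LInt S x := by
  by_contra hcon
  have hB : 0 ≤ B := (hw0 0).trans (hb 0)
  set v : ℝ → ℂ := fun t => (w t⁻¹ : ℂ) with hv
  have V : Vw v B A⁻¹ := by
    refine ⟨?_, fun t => ?_, inv_pos.2 hA, fun t ht hta => ?_⟩
    · exact Complex.measurable_ofReal.comp (hw.comp measurable_inv)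
    · rw [hv, Complex.norm_real, Real.norm_eq_abs, abs_of_nonneg (hw0 _)]; exact hb _
    · rw [hv]
      simp only
      rw [h0 t⁻¹, Complex.ofReal_zero]
      rw [lt_inv_comm₀ hA ht]
      exact hta
  obtain ⟨q, hq1, hq2, hqz, hqn⟩ := exists_start V hne
  have hq0 : 0 < q := (inv_pos.2 hA).trans_le hq1
  set v' : ℝ → ℂ := (Ici q).indicator v with hv'
  have V' : Vw v' B q := by
    refine ⟨V.meas.indicator measurableSet_Ici, fun t => ?_, hq0, fun t _ h => ?_⟩
    · by_cases h : t ∈ Ici q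
      · rw [hv', indicator_of_mem h]; exact V.bdd t
      · rw [hv', indicator_of_notMem h, norm_zero]; exact hB
    · rw [hv', indicator_of_notMem (by simpa using h)]
  have hvv : ∀ᵐ t ∂(volume.restrict (Ioi (0 : ℝ))), v t = v' t := by
    rw [ae_restrict_iff' measurableSet_Ioi]
    filter_upwards [hqz] with t ht ht0
    by_cases h : t < q
    · rw [ht ⟨ht0, h⟩, hv', indicator_of_notMem (by simpa using h)]
    · rw [hv', indicator_of_mem (by simpa using h)]
  -- the abscissa of convergence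
  set Ts : Set ℝ := {x | κ ≤ x ∧ ∀ x' > x, LInt S x'} with hTs
  have hTne : Ts.Nonempty := ⟨max κ X, le_max_left _ _, fun x' hx' =>
    hSX x' (lt_of_le_of_lt (le_max_right _ _) hx')⟩
  have hTb : BddBelow Ts := ⟨κ, fun x hx => hx.1⟩
  set s := sInf Ts with hs
  have hs0 : κ ≤ s := le_csInf hTne fun x hx => hx.1
  have hconv : ∀ x > s, LInt S x := by
    intro x hx
    obtain ⟨t, ht, htx⟩ := exists_lt_of_csInf_lt hTne hx
    exact ht.2 x htx
  rcases hs0.eq_or_lt with h | hsκ
  · exact hcon fun x hx => hconv x (by rw [← h]; exact hx)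
  have hspos : 0 < s := lt_of_le_of_lt hκ hsκ
  have hLd : ∀ z : ℂ, s < z.re → DifferentiableAt ℂ (lapC S) z := fun z hz =>
    lapC_differentiableAt hSmeas hconv hz
  -- zeros
  have hzero : ∀ ρ : ℂ, s * q < ρ.re → Φ ρ ≠ 0 := by
    intro ρ hρ
    have h2 : q < ρ.re / s := by rw [lt_div_iff₀ hspos]; linarith
    have hy1 : q < (q + ρ.re / s) / 2 := by linarith
    have hy2 : s * ((q + ρ.re / s) / 2) < ρ.re := by
      have : s * ((q + ρ.re / s) / 2) = (s * q + ρ.re) / 2 := by field_simp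
      rw [this]; linarith
    exact D.no_zero_ae hΦ h1 hG hH V (L := lapC S) (κ := s) hspos.le hLd (X := X)
      (fun z hz => hSm z hz) (by linarith) (hqn _ hy1) hy2
  set x₀ : ℝ := s * q with hx0d
  have hx0 : 0 < x₀ := by rw [hx0d]; positivity
  obtain ⟨m, Q, hQd, hQ0, hm0, hQe⟩ := exists_quot' hΦ (h1 2 (by norm_num)) (x₀ : ℂ)
  have hQ : ∀ ρ : ℂ, x₀ < ρ.re → Q ρ ≠ 0 := by
    intro ρ hρ h
    exact hzero ρ hρ (by rw [hQe, h, mul_zero])
  have hεm : (1 - ε) * (m : ℝ) = 0 := by
    rcases hε with h | h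
    · rw [h]; ring
    · have h2 := hreal h x₀ hx0
      have h3 : m = 0 := by
        by_contra hm
        apply h2
        rw [hQe, sub_self, zero_pow hm, zero_mul]
      rw [h3]; simp
  have hεε : ε * ε = 1 := by rcases hε with h | h <;> rw [h] <;> norm_num
  -- the functions
  have hGd : ∀ w : ℂ, 0 < w.re → DifferentiableAt ℂ (deriv G) w := by
    intro w hw
    have h2 : DifferentiableOn ℂ G {w : ℂ | 0 < w.re} := fun w hw => (hG w hw).differentiableWithinAt
    have ho : IsOpen {w : ℂ | 0 < w.re} := isOpen_lt continuous_const Complex.continuous_re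
    exact (h2.deriv ho).differentiableAt (ho.mem_nhds hw)
  have hlog : ∀ (P : ℂ → ℂ), Differentiable ℂ P → ∀ w, P w ≠ 0 →
      DifferentiableAt ℂ (logDeriv P) w := by
    intro P hP w hw
    have h2 : DifferentiableAt ℂ (deriv P) w := by
      have h3 : DifferentiableOn ℂ P univ := hP.differentiableOn
      exact (h3.deriv isOpen_univ).differentiableAt (isOpen_univ.mem_nhds (mem_univ _))
    exact h2.div (hP w) hw
  set H₁ : ℂ → ℂ := fun w => logDeriv Q w - deriv G w with hH1
  set O₁ : Set ℂ := {w | 0 < w.re ∧ Q w ≠ 0} with hO1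
  have hO1o : IsOpen O₁ :=
    (isOpen_lt continuous_const Complex.continuous_re).inter
      (hQd.continuous.isOpen_preimage _ isOpen_compl_singleton)
  have hH1d : DifferentiableOn ℂ H₁ O₁ := fun w hw =>
    ((hlog Q hQd w hw.2).sub (hGd w hw.1)).differentiableWithinAt
  set O : Set ℂ := {w | x₀ < w.re} with hO
  have hOO1 : O ⊆ O₁ := fun w hw => ⟨hx0.trans hw, hQ w hw⟩
  have hHH : ∀ w ∈ O, H w = m / (w - x₀) + H₁ w := by
    intro w hw
    have hw' : x₀ < w.re := hw
    have hwρ : w - x₀ ≠ 0 := by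
      intro h
      rw [sub_eq_zero] at h
      rw [h, Complex.ofReal_re] at hw'
      exact lt_irrefl _ hw'
    have hQw := hQ w hw'
    rw [hH w (hx0.trans hw'), hH1]
    simp only
    have h2 : Φ = fun w => (w - x₀) ^ m * Q w := funext hQe
    have h3 : logDeriv Φ w = m / (w - x₀) + logDeriv Q w := by
      rw [h2, logDeriv_mul (f := fun w : ℂ => (w - x₀) ^ m) (g := Q) w (pow_ne_zero m hwρ) hQw
        (by fun_prop) (hQd w)]
      congr 1
      rw [logDeriv_apply]
      have h4 : HasDerivAt (fun w : ℂ => (w - x₀) ^ m) ((m : ℂ) * (w - x₀) ^ (m - 1)) w := by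
        have := ((hasDerivAt_id' w).sub_const (x₀ : ℂ)).fun_pow m
        simpa using this
      rw [h4.deriv]
      rcases Nat.eq_zero_or_pos m with h | h
      · rw [h]; simp
      · obtain ⟨k, rfl⟩ : ∃ k, m = k + 1 := ⟨m - 1, by omega⟩
        rw [Nat.add_sub_cancel, pow_succ]
        field_simp
    rw [h3]
    ring
  have hHd : ∀ w : ℂ, s * q < w.re → DifferentiableAt ℂ H w := by
    intro w hw
    have hw0' : 0 < w.re := hx0.trans hw
    have h2 : H =ᶠ[𝓝 w] fun s => logDeriv Φ s - deriv G s := by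
      have ho : IsOpen {w : ℂ | 0 < w.re} := isOpen_lt continuous_const Complex.continuous_re
      filter_upwards [ho.mem_nhds hw0'] with s hs
      exact hH s hs
    exact ((hlog Φ hΦ w (hzero w hw)).sub (hGd w hw0')).congr_of_eventuallyEq h2
  -- the remainder
  set t₁ : ℝ := max q (4 / s) with ht1d
  have hqt : q ≤ t₁ := le_max_left _ _
  have ht1 : 0 < t₁ := hq0.trans_le hqt
  have h4s : 4 ≤ s * t₁ := by
    have h2 : 4 / s ≤ t₁ := le_max_right _ _
    rw [div_le_iff₀ hspos] at h2
    linarith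
  set R1 : ℂ → ℂ := fun z => (∫ t in Icc q t₁, v' t * H₁ (z * t)) +
    mel H ((Ioi t₁).indicator v') z with hR1
  have hin0 : ∀ t ∈ Icc q t₁, ((s : ℂ) * t) ∈ O₁ := by
    intro t ht
    have ht0 : 0 < t := hq0.trans_le ht.1
    have hre : ((s : ℂ) * t).re = s * t := by rw [Complex.re_mul_ofReal, Complex.ofReal_re]
    refine ⟨by rw [hre]; positivity, ?_⟩
    rcases ht.1.eq_or_lt with h | h
    · have h2 : ((s : ℂ) * t) = (x₀ : ℂ) := by rw [hx0d, ← h]; push_cast; rfl
      rw [h2]; exact hQ0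
    · refine hQ _ ?_
      rw [hre, hx0d]
      exact mul_lt_mul_of_pos_left h hspos
  have hR1d : ∀ᶠ z in 𝓝 (s : ℂ), DifferentiableAt ℂ R1 z := by
    have hev : ∀ᶠ z in 𝓝 (s : ℂ), ∀ t ∈ Icc q t₁, z * (t : ℂ) ∈ O₁ := by
      refine isCompact_Icc.eventually_forall_of_forall_eventually
        (P := fun (z : ℂ) (t : ℝ) => z * (t : ℂ) ∈ O₁) fun t ht => ?_
      have hc : Continuous fun p : ℂ × ℝ => p.1 * (p.2 : ℂ) := by fun_prop
      exact hc.continuousAt.preimage_mem_nhds (hO1o.mem_nhds (hin0 t ht))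
    have hev2 : ∀ᶠ z in 𝓝 (s : ℂ), 3 < z.re * t₁ := by
      have ho : IsOpen {z : ℂ | 3 < z.re * t₁} :=
        isOpen_lt continuous_const (Complex.continuous_re.mul continuous_const)
      refine ho.mem_nhds ?_
      show 3 < (s : ℂ).re * t₁
      rw [Complex.ofReal_re]; linarith
    filter_upwards [hev, hev2] with z hz1 hz2
    exact (fin_diff V'.meas V'.bdd hO1o hH1d hq0.le hz1).add (D.mel_diff (V'.tail ht1) hz2)
  -- the model
  set J : ℝ → ℝ := fun x => ∫ t in Icc q t₁, w t⁻¹ / (x * t - x₀) with hJ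
  have hmdl : ∀ x : ℝ, s < x → LInt (mdl w q t₁ x₀) x ∧
      Pool.Agent.W263.BSD.lap (mdl w q t₁ x₀) x = J x := by
    intro x hx
    refine mdl_lap hw hw0 hb hq0 ?_ (hspos.trans hx)
    rw [hx0d]
    exact mul_lt_mul_of_pos_right hx hq0
  -- the identity for real points
  have hident : ∀ x : ℝ, s < x → Pool.Agent.W263.BSD.lap S x = m * J x + (R1 x).re := by
    intro x hx
    have hx00 : 0 < x := hspos.trans hx
    have hLm := D.eq_mel V' hspos.le hHd hLd (X := X)
      (fun z hz => (hSm z hz).trans (mel_congr hvv z)) (z := (x : ℂ))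
      (by rw [Complex.ofReal_re]; exact hx)
    have hxt : ∀ t : ℝ, q ≤ t → (x : ℂ) * t ∈ O := by
      intro t ht
      show x₀ < ((x : ℂ) * t).re
      rw [Complex.re_mul_ofReal, Complex.ofReal_re, hx0d]
      calc s * q < x * q := mul_lt_mul_of_pos_right hx hq0
        _ ≤ x * t := mul_le_mul_of_nonneg_left ht hx00.le
    have hHO : ContinuousOn H O := fun w hw => (hHd w hw).continuousAt.continuousWithinAt
    have hsp := D.mel_split V' hHO hqt (z := (x : ℂ)) hxt (by
      rw [Complex.ofReal_re]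
      have : s * t₁ < x * t₁ := mul_lt_mul_of_pos_right hx ht1
      linarith)
    have hpc : ContinuousOn (fun w : ℂ => (m : ℂ) / (w - x₀)) O := by
      refine continuousOn_const.div (by fun_prop) fun w hw h => ?_
      have hw' : x₀ < w.re := hw
      rw [sub_eq_zero] at h
      rw [h, Complex.ofReal_re] at hw'
      exact lt_irrefl _ hw'
    have i1 : IntegrableOn (fun t : ℝ => v' t * ((m : ℂ) / (x * t - x₀))) (Icc q t₁) :=
      fin_integrable (h := fun w : ℂ => (m : ℂ) / (w - x₀)) V'.meas V'.bdd hpc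
        fun t ht => hxt t ht.1
    have i2 : IntegrableOn (fun t : ℝ => v' t * H₁ (x * t)) (Icc q t₁) :=
      fin_integrable V'.meas V'.bdd (hH1d.continuousOn.mono hOO1) fun t ht => hxt t ht.1
    have e1 : ∫ t in Icc q t₁, v' t * H (x * t) =
        (∫ t in Icc q t₁, v' t * ((m : ℂ) / (x * t - x₀))) +
          ∫ t in Icc q t₁, v' t * H₁ (x * t) := by
      rw [← integral_add i1 i2]
      refine setIntegral_congr_fun measurableSet_Icc fun t ht => ?_
      rw [hHH _ (hxt t ht.1)]
      ring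
    have e2 : ∫ t in Icc q t₁, v' t * ((m : ℂ) / (x * t - x₀)) = ((m * J x : ℝ) : ℂ) := by
      rw [hJ]
      simp only
      rw [← integral_const_mul, ← integral_complex_ofReal]
      refine setIntegral_congr_fun measurableSet_Icc fun t ht => ?_
      rw [hv', indicator_of_mem (show t ∈ Ici q from ht.1), hv]
      push_cast
      ring
    have e3 : lapC S x = ((m * J x : ℝ) : ℂ) + R1 x := by
      rw [hLm, hsp, e1, e2, hR1]
      ring
    have e4 := congrArg Complex.re e3
    rw [lapC_ofReal, Complex.ofReal_re, Complex.add_re, Complex.ofReal_re] at e4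
    exact e4
  -- the positive function
  set F1 : ℝ → ℝ := fun T => (C * ex κ T - ε * S T) + m * mdl w q t₁ x₀ T with hF1
  have hNm : Measurable fun T => C * ex κ T - ε * S T :=
    ((ex_meas κ).const_mul C).sub (hSmeas.const_mul ε)
  have hF1m : Measurable F1 := hNm.add ((mdl_meas hw q t₁ x₀).const_mul _)
  have hN0 : ∀ T, 0 < T → 0 ≤ C * ex κ T - ε * S T := by
    intro T hT
    have := hup T hT
    unfold ex
    linarith
  have hF10 : ∀ T, 0 < T → 0 ≤ F1 T := by
    intro T hT
    have h2 := hN0 T hT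
    have h3 := mdl_nonneg (w := w) hw0 (a := q) (t₁ := t₁) (x₀ := x₀) hq0 T
    rw [hF1]
    simp only
    positivity
  have hF1i : ∀ x : ℝ, s < x → LInt F1 x := fun x hx =>
    (((ex_LInt (show κ < x by linarith)).const_mul C).sub ((hconv x hx).const_mul ε)).add
      ((hmdl x hx).1.const_mul _)
  have hF1l : ∀ x : ℝ, s < x →
      Pool.Agent.W263.BSD.lap F1 x = C / (x - κ) - ε * (R1 x).re := by
    intro x hx
    rw [hF1, Pool.Agent.W263.BSD.lap_add (((ex_LInt (show κ < x by linarith)).const_mul C).sub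
      ((hconv x hx).const_mul ε)) ((hmdl x hx).1.const_mul _), Pool.Agent.W263.BSD.lap_sub
      ((ex_LInt (show κ < x by linarith)).const_mul C) ((hconv x hx).const_mul ε),
      Pool.Agent.W263.BSD.lap_const_mul, Pool.Agent.W263.BSD.lap_const_mul,
      Pool.Agent.W263.BSD.lap_const_mul, (hmdl x hx).2, hident x hx,
      ex_lap (show κ < x by linarith)]
    linear_combination (J x) * hεm
  -- the analytic continuation
  set g : ℂ → ℂ := fun z => (C : ℂ) / (-z - κ) - ε * R1 (-z) with hg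
  have hga : AnalyticAt ℂ g ((-s : ℝ) : ℂ) := by
    have hopen : ∀ᶠ z in 𝓝 ((-s : ℝ) : ℂ), DifferentiableAt ℂ g z := by
      have hneg : Tendsto (fun z : ℂ => -z) (𝓝 ((-s : ℝ) : ℂ)) (𝓝 (s : ℂ)) := by
        have := (continuous_neg (G := ℂ)).tendsto ((-s : ℝ) : ℂ)
        have e : -((-s : ℝ) : ℂ) = (s : ℂ) := by push_cast; ring
        rwa [e] at this
      have e1 := hneg.eventually hR1d
      have e2 : ∀ᶠ z in 𝓝 ((-s : ℝ) : ℂ), κ < (-z).re := by
        have : IsOpen {z : ℂ | κ < (-z).re} :=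
          isOpen_lt continuous_const (Complex.continuous_re.comp continuous_neg)
        exact this.mem_nhds (by simpa using hsκ)
      filter_upwards [e1, e2] with z h2 h3
      have h4 : -z - (κ : ℂ) ≠ 0 := by
        intro h
        rw [sub_eq_zero] at h
        rw [h, Complex.ofReal_re] at h3
        exact lt_irrefl _ h3
      refine DifferentiableAt.sub ?_ (DifferentiableAt.const_mul ?_ _)
      · exact (differentiableAt_const _).div (by fun_prop) h4
      · exact DifferentiableAt.comp (g := R1) z h2 differentiable_neg.differentiableAt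
    exact Complex.analyticAt_iff_eventually_differentiableAt.mpr hopen
  have hgr : AnalyticAt ℝ (fun t : ℝ => (g t).re) (-s) := hga.re_ofReal
  obtain ⟨t, hts, ht⟩ := landau (X := id) (μ := dens F1) (dens_pos F1 hF1m) hgr
    (fun t ht => (mem_integrableExpSet_dens hF1m hF10 t).mpr (hF1i (-t) (by linarith))) (by
      filter_upwards [self_mem_nhdsWithin] with t ht
      have ht' : t < -s := ht
      have hx : s < -t := by linarith
      rw [mgf_dens hF1m hF10, hF1l _ hx, hg]
      simp only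
      have e : -(t : ℂ) = ((-t : ℝ) : ℂ) := by push_cast; ring
      rw [e]
      have e5 : (C : ℂ) / (((-t : ℝ) : ℂ) - (κ : ℂ)) = ((C / (-t - κ) : ℝ) : ℂ) := by push_cast; rfl
      rw [e5, Complex.sub_re, Complex.ofReal_re, Complex.re_ofReal_mul])
  -- contradiction
  have ht1 : LInt F1 (-t) := (mem_integrableExpSet_dens hF1m hF10 t).mp ht
  set t' : ℝ := max (-t) ((κ + s) / 2) with ht'
  have h5 : t' < s := max_lt (by linarith) (by linarith)
  have h6 : t' ∈ Ts := by
    refine ⟨le_trans (by linarith) (le_max_right _ _), fun x hx => ?_⟩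
    have hxκ : κ < x := lt_of_lt_of_le (by linarith) (le_trans (le_max_right _ _) hx.le)
    have h7 : LInt F1 x := ht1.mono hF1m (le_trans (le_max_left _ _) hx.le)
    have h8 : LInt (fun T => C * ex κ T - ε * S T) x := by
      refine Pool.Agent.W263.BSD.LInt.of_bound hNm h7 fun T hT => ?_
      rw [abs_of_nonneg (hN0 T hT), hF1]
      simp only
      have h3 := mdl_nonneg (w := w) hw0 (a := q) (t₁ := t₁) (x₀ := x₀) hq0 T
      have : 0 ≤ (m : ℝ) * mdl w q t₁ x₀ T := by positivity
      linarith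
    have h9 := (((ex_LInt hxκ).const_mul C).sub h8).const_mul ε
    have h10 : (fun T => ε * (C * ex κ T - (C * ex κ T - ε * S T))) = S := by
      funext T
      have : ε * (C * ex κ T - (C * ex κ T - ε * S T)) = (ε * ε) * S T := by ring
      rw [this, hεε, one_mul]
    rwa [h10] at h9
  have := csInf_le hTb h6
  linarith

end Pool.Agent.W189.FC
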